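import Pool.Agent.Helper27.SO.Glob
import Pool.Agent.Helper28.SP.Perm

set_option autoImplicit false

/-! From a subdivision to a compatible family of trees. -/

namespace Helper13.TS

open Finset
open Pool.Agent.Helper28.SO (TreeFam TRealized)
open Pool.Agent.Helper27.SO (Sys InC Phi N1 Y Inj all_nonneg N1_eq_zero N1_nonneg)

variable {n d : ℕ}

/-- a point of a simplex -/
theorem exists_inC {B : Fin n → Finset (Fin d)} (hB : ∀ i, (B i).Nonempty) :
    ∃ y : Fin n → Fin d → ℝ, InC B y := by
  classical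
  choose c hc using hB
  refine ⟨fun i k => if k = c i then 1 else 0, fun i k => ?_, fun i => ?_, fun i k hk => ?_⟩
  · split_ifs <;> norm_num
  · simp
  · rw [if_neg]
    rintro rfl
    exact hk (hc i)

theorem sum_deg (B : Fin n → Finset (Fin d)) :
    ∑ c, (univ.filter (fun i => c ∈ B i)).card = ∑ i, (B i).card := by
  classical
  have e1 : ∀ i, (B i).card = ∑ c, if c ∈ B i then 1 else 0 := by
    intro i
    rw [← Finset.card_filter]
    congr 1
    ext c
    simp
  simp only [e1, Finset.card_filter]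
  exact Finset.sum_comm

theorem sum_card (hn : 1 ≤ n) (hd : 1 ≤ d) {B : Fin n → Finset (Fin d)}
    (hB : ∀ i, (B i).Nonempty) (hs : ∑ i, ((B i).card - 1) = d - 1) :
    ∑ i, (B i).card = n + d - 1 := by
  have h1 : ∑ i, (B i).card = ∑ i, ((B i).card - 1) + ∑ _i : Fin n, 1 := by
    rw [← Finset.sum_add_distrib]
    refine Finset.sum_congr rfl fun i _ => ?_
    have := (hB i).card_pos
    omega
  rw [h1, hs]
  simp
  omega

/-- the decompositions of a point with arbitrary label weights agree -/
theorem weights_eq {S : Finset (Fin n → Finset (Fin d))} (hS : Sys S)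
    (hC : Pool.Agent.Helper27.SO.Cov S fun _ => 1) (hI : Inj S fun _ => 1)
    {B C : Fin n → Finset (Fin d)} (hB : B ∈ S) (hCS : C ∈ S) (g g' : Fin n → Fin d → ℝ)
    (hg : ∀ i c, 0 ≤ g i c) (hg' : ∀ i c, 0 ≤ g' i c) (hsg : ∀ i c, c ∉ B i → g i c = 0)
    (hsg' : ∀ i c, c ∉ C i → g' i c = 0) (hrow : ∀ i, ∑ c, g i c = ∑ c, g' i c)
    (hcol : ∀ c, ∑ i, g i c = ∑ i, g' i c) : g = g' := by
  classical
  obtain ⟨y₀, hy₀⟩ := exists_inC (hS.ne B hB)
  obtain ⟨z₀, hz₀⟩ := exists_inC (hS.ne C hCS)
  set r : Fin n → ℝ := fun i => ∑ c, g i c with hr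
  have hr0 : ∀ i, 0 ≤ r i := fun i => Finset.sum_nonneg fun c _ => hg i c
  set R : ℝ := 1 + ∑ i, r i with hR
  have hRpos : 0 < R := by
    have := Finset.sum_nonneg (s := univ) fun i _ => hr0 i
    linarith
  have hrR : ∀ i, r i ≤ R := by
    intro i
    have := Finset.single_le_sum (s := univ) (fun i _ => hr0 i) (Finset.mem_univ i)
    linarith
  set y : Fin n → Fin d → ℝ := fun i c => if r i = 0 then y₀ i c else g i c / r i with hy
  set z : Fin n → Fin d → ℝ := fun i c => if r i = 0 then z₀ i c else g' i c / r i with hz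
  have hyY : y ∈ Y S := by
    refine ⟨B, hB, fun i c => ?_, fun i => ?_, fun i c hc => ?_⟩
    · simp only [hy]
      split_ifs
      · exact hy₀.nonneg i c
      · exact div_nonneg (hg i c) (hr0 i)
    · simp only [hy]
      split_ifs with h
      · exact hy₀.sum i
      · rw [← Finset.sum_div]
        exact div_self h
    · simp only [hy]
      split_ifs
      · exact hy₀.supp i c hc
      · rw [hsg i c hc, zero_div]
  have hzY : z ∈ Y S := by
    refine ⟨C, hCS, fun i c => ?_, fun i => ?_, fun i c hc => ?_⟩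
    · simp only [hz]
      split_ifs
      · exact hz₀.nonneg i c
      · exact div_nonneg (hg' i c) (hr0 i)
    · simp only [hz]
      split_ifs with h
      · exact hz₀.sum i
      · rw [← Finset.sum_div, ← hrow i]
        exact div_self h
    · simp only [hz]
      split_ifs
      · exact hz₀.supp i c hc
      · rw [hsg' i c hc, zero_div]
  have hg0 : ∀ i, r i = 0 → ∀ c, g i c = 0 := by
    intro i h c
    exact (Finset.sum_eq_zero_iff_of_nonneg fun c _ => hg i c).1 h c (Finset.mem_univ c)
  have hg0' : ∀ i, r i = 0 → ∀ c, g' i c = 0 := by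
    intro i h c
    have h' : ∑ c, g' i c = 0 := by rw [← hrow i]; exact h
    exact (Finset.sum_eq_zero_iff_of_nonneg fun c _ => hg' i c).1 h' c (Finset.mem_univ c)
  have hyg : ∀ i c, r i * y i c = g i c := by
    intro i c
    simp only [hy]
    split_ifs with h
    · rw [h, zero_mul, hg0 i h c]
    · field_simp
  have hzg : ∀ i c, r i * z i c = g' i c := by
    intro i c
    simp only [hz]
    split_ifs with h
    · rw [h, zero_mul, hg0' i h c]
    · field_simp
  have key := all_nonneg hS ⟨y, hyY⟩ hC hI (fun i => r i / R)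
    (fun i => div_nonneg (hr0 i) hRpos.le) (fun i => (div_le_one hRpos).2 (hrR i)) y hyY z hzY
  have hPhi : Phi (fun i => r i / R) y - Phi (fun i => r i / R) z = 0 := by
    funext c
    unfold Phi
    simp only [Pi.sub_apply, Pi.zero_apply]
    have e1 : ∀ i, r i / R * y i c = g i c / R := by
      intro i
      rw [← hyg i c]
      ring
    have e2 : ∀ i, r i / R * z i c = g' i c / R := by
      intro i
      rw [← hzg i c]
      ring
    simp only [e1, e2]
    rw [← Finset.sum_div, ← Finset.sum_div, hcol c, sub_self]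
  funext i c
  by_cases h : r i = 0
  · rw [hg0 i h c, hg0' i h c]
  · have h1 := key i
    rw [hPhi] at h1
    have h2 : N1 (0 : Fin d → ℝ) = 0 := by simp [N1]
    rw [h2] at h1
    have h3 : 0 < r i / R := div_pos (lt_of_le_of_ne (hr0 i) (Ne.symm h)) hRpos
    have h4 : N1 (y i - z i) = 0 := by
      have h5 := N1_nonneg (y i - z i)
      have h6 : r i / R * N1 (y i - z i) = 0 := le_antisymm h1 (mul_nonneg h3.le h5)
      rcases mul_eq_zero.1 h6 with h7 | h7
      · exact absurd h7 h3.ne'
      · exact h7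
    have h5 := congrFun (N1_eq_zero h4) c
    simp only [Pi.sub_apply, Pi.zero_apply] at h5
    rw [← hyg i c, ← hzg i c, sub_eq_zero.1 h5]

/-- every lattice point has a tree -/
theorem exists_deg (hn : 1 ≤ n) (hd : 1 ≤ d) {S : Finset (Fin n → Finset (Fin d))} (hS : Sys S)
    (hC : Pool.Agent.Helper27.SO.Cov S fun _ => 1)
    (hcard : ∀ B ∈ S, ∑ i, ((B i).card - 1) = d - 1) (v : Fin d → ℕ) (hv : ∑ c, v c = n - 1) :
    ∃ B ∈ S, ∀ c, (univ.filter (fun i => c ∈ B i)).card = v c + 1 := by
  classical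
  have hd0 : (0 : ℝ) < d := by exact_mod_cast hd
  obtain ⟨y, ⟨B, hB, hyB⟩, hyx⟩ := hC (fun c => (v c : ℝ) + 1 / d)
    (fun c => by positivity) (by
      rw [Finset.sum_add_distrib, ← Nat.cast_sum, hv]
      simp only [Finset.sum_const, Finset.card_univ, Fintype.card_fin, nsmul_eq_mul, mul_one]
      rw [mul_one_div_cancel hd0.ne', Nat.cast_sub hn]
      push_cast
      ring)
  have hdeg : ∀ c, v c + 1 ≤ (univ.filter (fun i => c ∈ B i)).card := by
    intro c
    have h1 : (v c : ℝ) + 1 / d = ∑ i, y i c := by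
      rw [← congrFun hyx c]
      simp [Phi]
    have h2 : ∑ i, y i c ≤ ((univ.filter (fun i => c ∈ B i)).card : ℝ) := by
      rw [Finset.card_filter]
      push_cast
      refine Finset.sum_le_sum fun i _ => ?_
      split_ifs with h
      · rw [← hyB.sum i]
        exact Finset.single_le_sum (fun c _ => hyB.nonneg i c) (Finset.mem_univ c)
      · rw [hyB.supp i c h]
    have h3 : (v c : ℝ) < ((univ.filter (fun i => c ∈ B i)).card : ℝ) := by
      have : (0 : ℝ) < 1 / d := by positivity
      linarith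
    exact_mod_cast h3
  refine ⟨B, hB, fun c => ?_⟩
  have htot : ∑ c, (v c + 1) = ∑ c, (univ.filter (fun i => c ∈ B i)).card := by
    rw [sum_deg, sum_card hn hd (hS.ne B hB) (hcard B hB), Finset.sum_add_distrib, hv]
    simp
    omega
  exact ((Finset.sum_eq_sum_iff_of_le fun c _ => hdeg c).1 htot c (Finset.mem_univ c)).symm

/-- **From a subdivision to a compatible family of trees.** -/
theorem exists_treeFam (hn : 1 ≤ n) (hd : 1 ≤ d) {S : Finset (Fin n → Finset (Fin d))}
    (hS : Sys S) (hC : Pool.Agent.Helper27.SO.Cov S fun _ => 1) (hI : Inj S fun _ => 1)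
    (hcard : ∀ B ∈ S, ∑ i, ((B i).card - 1) = d - 1) :
    ∃ T : (Fin d → ℕ) → Fin n → Finset (Fin d), TreeFam n d T ∧
      ∀ v : Fin d → ℕ, (∃ B ∈ S, ∃ i, B i = univ ∧
        ∀ c, v c = (univ.filter (fun j => j ≠ i ∧ c ∈ B j)).card) →
      ∑ c, v c = n - 1 ∧ ∃ i, T v i = univ := by
  classical
  have hex : ∀ v : Fin d → ℕ, ∃ B : Fin n → Finset (Fin d), (∑ c, v c = n - 1 →
      B ∈ S ∧ ∀ c, (univ.filter (fun i => c ∈ B i)).card = v c + 1) ∧
      ((∃ B ∈ S, ∃ i, B i = univ ∧ ∀ c, v c = (univ.filter (fun j => j ≠ i ∧ c ∈ B j)).card) →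
        ∑ c, v c = n - 1 ∧ ∃ i, B i = univ) := by
    intro v
    by_cases h : ∃ B ∈ S, ∃ i, B i = univ ∧
        ∀ c, v c = (univ.filter (fun j => j ≠ i ∧ c ∈ B j)).card
    · obtain ⟨B, hB, i, hi, hvc⟩ := h
      have hdeg : ∀ c, (univ.filter (fun j => c ∈ B j)).card = v c + 1 := by
        intro c
        rw [hvc c, ← Finset.card_insert_of_notMem (a := i)
          (s := univ.filter (fun j => j ≠ i ∧ c ∈ B j)) (by simp)]
        congr 1
        ext j
        simp only [Finset.mem_filter, Finset.mem_univ, true_and, Finset.mem_insert]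
        constructor
        · intro hj
          by_cases hji : j = i
          · exact Or.inl hji
          · exact Or.inr ⟨hji, hj⟩
        · rintro (rfl | ⟨-, hj⟩)
          · rw [hi]
            exact Finset.mem_univ c
          · exact hj
      refine ⟨B, fun _ => ⟨hB, hdeg⟩, fun _ => ⟨?_, i, hi⟩⟩
      have h1 := sum_deg B
      rw [sum_card hn hd (hS.ne B hB) (hcard B hB)] at h1
      simp only [hdeg, Finset.sum_add_distrib] at h1
      simp at h1
      omega
    · by_cases hv : ∑ c, v c = n - 1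
      · obtain ⟨B, hB, hdeg⟩ := exists_deg hn hd hS hC hcard v hv
        exact ⟨B, fun _ => ⟨hB, hdeg⟩, fun h' => absurd h' h⟩
      · exact ⟨fun _ => ∅, fun h' => absurd h' hv, fun h' => absurd h' h⟩
  choose T hT1 hT2 using hex
  refine ⟨T, ⟨fun v hv c => (hT1 v hv).2 c, ?_⟩, fun v hv => hT2 v hv⟩
  intro v w hv hw g g' hg hg' hsg hsg' hrow hcol
  exact weights_eq hS hC hI (hT1 v hv).1 (hT1 w hw).1 g g' hg hg' hsg hsg' hrow hcol

end Helper13.TS
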