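import Pool.Agent.Helper13.TS.Bridge

set_option autoImplicit false

/-! A realised set is the set of holes of a compatible family of trees. -/

namespace Helper13.TS

open Finset
open Pool.Agent.Helper28.SO (TreeFam TRealized Realized IsFineMixed cell mem_cell_iff vectorSpan_cell)
open Pool.Agent.Helper27.SO (Sys InC Phi N1 Y Inj Ind dirs col col_apply)

variable {n d : ℕ}

/-- a cell of full dimension with the right number of edges is independent -/
theorem ind_of_finrank {B : Fin n → Finset (Fin d)} (hB : ∀ i, (B i).Nonempty)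
    (hsum : ∑ i, ((B i).card - 1) = d - 1)
    (hrk : Module.finrank ℝ (vectorSpan ℝ (cell B)) = d - 1) : Ind B := by
  classical
  choose c hcB using hB
  let ι := Σ i : Fin n, {k : Fin d // k ∈ (B i).erase (c i)}
  let b : ι → (Fin d → ℝ) := fun p => Pi.single p.2.1 1 - Pi.single (c p.1) 1
  have hcard : Fintype.card ι = d - 1 := by
    have h1 : Fintype.card ι = ∑ i, ((B i).card - 1) := by
      rw [Fintype.card_sigma]
      refine Finset.sum_congr rfl fun i _ => ?_
      rw [Fintype.card_coe, Finset.card_erase_of_mem (hcB i)]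
    rw [h1, hsum]
  have hspan : Submodule.span ℝ (Set.range b) = vectorSpan ℝ (cell B) := by
    rw [vectorSpan_cell B (fun i => ⟨c i, hcB i⟩)]
    apply le_antisymm
    · rw [Submodule.span_le]
      rintro z ⟨p, rfl⟩
      refine Submodule.subset_span ⟨p.1, p.2.1, Finset.mem_of_mem_erase p.2.2, c p.1, hcB p.1, rfl⟩
    · rw [Submodule.span_le]
      rintro z ⟨i, k, hk, k', hk', rfl⟩
      have hm : ∀ k ∈ B i, (Pi.single k (1 : ℝ) - Pi.single (c i) 1 : Fin d → ℝ) ∈
          Submodule.span ℝ (Set.range b) := by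
        intro k hk
        by_cases h : k = c i
        · rw [h, sub_self]
          exact Submodule.zero_mem _
        · exact Submodule.subset_span ⟨⟨i, k, Finset.mem_erase.2 ⟨h, hk⟩⟩, rfl⟩
      have h := Submodule.sub_mem _ (hm k hk) (hm k' hk')
      rwa [sub_sub_sub_cancel_right] at h
  have hli : LinearIndependent ℝ b := by
    rw [linearIndependent_iff_card_eq_finrank_span, hcard]
    unfold Set.finrank
    rw [hspan, hrk]
  rw [Fintype.linearIndependent_iff] at hli
  intro δ hδ hcol
  obtain ⟨h1, h2⟩ := hδ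
  have hzero : ∑ p : ι, δ p.1 p.2.1 • b p = 0 := by
    have e1 : ∀ i, ∑ k : {k : Fin d // k ∈ (B i).erase (c i)},
        δ i k.1 • (Pi.single k.1 (1 : ℝ) - Pi.single (c i) 1 : Fin d → ℝ) =
        ∑ k, δ i k • (Pi.single k (1 : ℝ) - Pi.single (c i) 1 : Fin d → ℝ) := by
      intro i
      let F : Fin d → (Fin d → ℝ) := fun k => δ i k • (Pi.single k (1 : ℝ) - Pi.single (c i) 1)
      refine (Finset.sum_coe_sort ((B i).erase (c i)) F).trans ?_
      refine Finset.sum_subset (Finset.subset_univ _) fun k _ hk => ?_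
      show δ i k • (Pi.single k (1 : ℝ) - Pi.single (c i) 1 : Fin d → ℝ) = 0
      by_cases hkc : k = c i
      · rw [hkc, sub_self, smul_zero]
      · rw [h2 i k (fun h => hk (Finset.mem_erase.2 ⟨hkc, h⟩)), zero_smul]
    have e2 : ∀ i, ∑ k, δ i k • (Pi.single k (1 : ℝ) - Pi.single (c i) 1 : Fin d → ℝ) = δ i := by
      intro i
      simp only [smul_sub, Finset.sum_sub_distrib]
      rw [← Finset.sum_smul, h1 i, zero_smul, sub_zero]
      ext k
      simp [Finset.sum_apply, Pi.single_apply]
    show ∑ p : ι, δ p.1 p.2.1 • (Pi.single p.2.1 (1 : ℝ) - Pi.single (c p.1) 1 : Fin d → ℝ) = 0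
    rw [Fintype.sum_sigma]
    simp only [e1, e2]
    ext k
    rw [Finset.sum_apply]
    exact congrFun hcol k
  have hz := hli (fun p => δ p.1 p.2.1) hzero
  ext i k
  show δ i k = 0
  by_cases hk : k ∈ B i
  · by_cases hkc : k = c i
    · have h3 := h1 i
      rw [← Finset.add_sum_erase _ _ (Finset.mem_univ (c i)), Finset.sum_eq_zero
        (s := univ.erase (c i)), add_zero] at h3
      · rw [hkc]
        exact h3
      · intro k' hk'
        by_cases hk'' : k' ∈ B i
        · exact hz ⟨i, k', Finset.mem_erase.2 ⟨Finset.ne_of_mem_erase hk', hk''⟩⟩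
        · exact h2 i k' hk''
    · exact hz ⟨i, k, Finset.mem_erase.2 ⟨hkc, hk⟩⟩
  · exact h2 i k hk

theorem sys_of {S : Finset (Fin n → Finset (Fin d))} (h : IsFineMixed n d S) : Sys S :=
  ⟨fun B hB => ind_of_finrank (h.1 B hB).1 (h.1 B hB).2.1 (h.1 B hB).2.2,
    fun B hB => (h.1 B hB).1⟩

theorem cov_of {S : Finset (Fin n → Finset (Fin d))} (h : IsFineMixed n d S) :
    Pool.Agent.Helper27.SO.Cov S fun _ => 1 := by
  intro x hx hs
  obtain ⟨B, hB, hxB⟩ := h.2.1 x hx (by rw [hs]; simp)
  obtain ⟨y, h1, h2, h3, h4⟩ := (mem_cell_iff B x).1 hxB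
  refine ⟨y, ⟨B, hB, h1, h2, fun i c hc => h3 i c hc⟩, ?_⟩
  funext c
  unfold Phi
  rw [h4 c]
  simp

theorem inj_of {S : Finset (Fin n → Finset (Fin d))} (h : IsFineMixed n d S) :
    Inj S fun _ => 1 := by
  classical
  have hS := sys_of h
  rintro y ⟨B, hB, hy⟩ z ⟨C, hC, hz⟩ hyz
  have hcol : ∀ c, ∑ i, y i c = ∑ i, z i c := by
    intro c
    have := congrFun hyz c
    unfold Phi at this
    simpa using this
  have hyB : (fun c => ∑ i, y i c) ∈ cell B :=
    (mem_cell_iff B _).2 ⟨y, hy.nonneg, hy.sum, hy.supp, fun c => rfl⟩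
  have hzC : (fun c => ∑ i, y i c) ∈ cell C :=
    (mem_cell_iff C _).2 ⟨z, hz.nonneg, hz.sum, hz.supp, hcol⟩
  rcases h.2.2 B hB C hC with he | ⟨l, m, hF⟩
  · have : (fun c => ∑ i, y i c) ∈ cell B ∩ cell C := ⟨hyB, hzC⟩
    rw [he] at this
    exact absurd this (Set.notMem_empty _)
  · obtain ⟨hF1, hF2⟩ := hF _ rfl
    have hmem : (fun c => ∑ i, y i c) ∈ cell B ∩ cell C := ⟨hyB, hzC⟩
    rw [hF2] at hmem
    obtain ⟨w, w1, w2, w3, w4⟩ := (mem_cell_iff _ _).1 hmem
    have key : ∀ D : Fin n → Finset (Fin d), D ∈ S → (∀ i c, c ∉ D i → w i c = 0) →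
        ∀ u : Fin n → Fin d → ℝ, InC D u → (∀ c, ∑ i, u i c = ∑ i, w i c) → u = w := by
      intro D hD hwD u hu huw
      have := hS.ind D hD (u - w) ⟨fun i => ?_, fun i c hc => ?_⟩ ?_
      · exact sub_eq_zero.1 this
      · simp only [Pi.sub_apply, Finset.sum_sub_distrib]
        rw [hu.sum i, w2 i, sub_self]
      · simp only [Pi.sub_apply]
        rw [hu.supp i c hc, hwD i c hc, sub_zero]
      · funext c
        rw [col_apply]
        simp only [Pi.sub_apply, Finset.sum_sub_distrib, Pi.zero_apply]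
        rw [huw c, sub_self]
    have hyw : y = w := key B hB (fun i c hc => w3 i c (fun h' => hc (by
      simp only [Finset.mem_filter] at h'
      exact h'.1))) y hy (fun c => w4 c)
    have hzw : z = w := key C hC (fun i c hc => w3 i c (fun h' => hc (by
      rw [congrFun hF1 i] at h'
      simp only [Finset.mem_filter] at h'
      exact h'.1))) z hz (fun c => by rw [← hcol c]; exact w4 c)
    rw [hyw, hzw]

/-- **A realised set of `n` points is the set of holes of a compatible family of trees.** -/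
theorem exists_tRealized (hn : 1 ≤ n) (hd : 1 ≤ d) {U : Finset (Fin d → ℕ)} (hU : U.card = n)
    (h : Realized n d U) : ∃ v : Fin n → Fin d → ℕ, (∀ u, u ∈ U ↔ ∃ k, v k = u) ∧
      TRealized n d v := by
  classical
  obtain ⟨S, hS, hUS⟩ := h
  obtain ⟨T, hT, hholes⟩ := exists_treeFam hn hd (sys_of hS) (cov_of hS) (inj_of hS)
    (fun B hB => (hS.1 B hB).2.1)
  have h1 : ∀ u : {u // u ∈ U}, ∑ c, u.1 c = n - 1 ∧ ∃ i, T u.1 i = univ := fun u =>
    hholes u.1 ((hUS u.1).1 u.2)
  choose hsum f hf using h1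
  have hinj : Function.Injective f := by
    intro u w huw
    apply Subtype.ext
    refine hT.hole_unique hn hd u.1 w.1 (hsum u) (hsum w) (f u) (hf u) ?_
    rw [huw]
    exact hf w
  have hcard : Fintype.card {u // u ∈ U} = Fintype.card (Fin n) := by
    rw [Fintype.card_coe, hU, Fintype.card_fin]
  have hbij : Function.Bijective f := (Fintype.bijective_iff_injective_and_card f).2 ⟨hinj, hcard⟩
  let e : {u // u ∈ U} ≃ Fin n := Equiv.ofBijective f hbij
  refine ⟨fun k => (e.symm k).1, fun u => ⟨fun hu => ⟨e ⟨u, hu⟩, by simp⟩, ?_⟩, T, hT,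
    fun k => hsum (e.symm k), fun k => ?_⟩
  · rintro ⟨k, rfl⟩
    exact (e.symm k).2
  · have h2 := hf (e.symm k)
    have h3 : f (e.symm k) = k := e.apply_symm_apply k
    rw [h3] at h2
    exact h2

/-- The labelling does not matter. -/
theorem tRealized_of_realized (hn : 1 ≤ n) (hd : 1 ≤ d) {U : Finset (Fin d → ℕ)}
    (hU : U.card = n) (h : Realized n d U) (v : Fin n → Fin d → ℕ)
    (hv : ∀ u, u ∈ U ↔ ∃ k, v k = u) : TRealized n d v := by
  classical
  obtain ⟨w, hw, hT⟩ := exists_tRealized hn hd hU h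
  have hinj : ∀ w : Fin n → Fin d → ℕ, (∀ u, u ∈ U ↔ ∃ k, w k = u) → Function.Injective w := by
    intro w hw
    have himg : univ.image w = U := by
      ext u
      rw [Finset.mem_image, hw u]
      simp
    have h1 : (univ.image w).card = (univ : Finset (Fin n)).card := by
      rw [himg, hU, Finset.card_fin]
    have h2 := Finset.card_image_iff.1 h1
    intro a b hab
    exact h2 (Finset.mem_coe.2 (Finset.mem_univ a)) (Finset.mem_coe.2 (Finset.mem_univ b)) hab
  have h3 : ∀ k, ∃ k', w k' = v k := fun k => (hw _).1 ((hv _).2 ⟨k, rfl⟩)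
  choose π hπ using h3
  have hπinj : Function.Injective π := by
    intro a b hab
    apply hinj v hv
    rw [← hπ a, ← hπ b, hab]
  have h4 := hT.perm_label (Equiv.ofBijective π (Finite.injective_iff_bijective.1 hπinj))
  have h5 : (fun k => w ((Equiv.ofBijective π (Finite.injective_iff_bijective.1 hπinj)) k)) = v :=
    funext fun k => hπ k
  rw [h5] at h4
  exact h4

/-- **The frozen notion and families of trees.** -/
theorem realized_iff (hn : 1 ≤ n) (hd : 1 ≤ d) {U : Finset (Fin d → ℕ)}
    (hU : U.card = n) (v : Fin n → Fin d → ℕ) (hv : ∀ u, u ∈ U ↔ ∃ k, v k = u) :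
    Realized n d U ↔ TRealized n d v :=
  ⟨fun h => tRealized_of_realized hn hd hU h v hv, fun h => h.realized hn hd U hv⟩

end Helper13.TS
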