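import Mathlib

set_option autoImplicit false

/-! Simplicial cones on a vector configuration with paired facets: if one generic point is covered
exactly once, then every point has at most one nonnegative expansion. -/

namespace Helper13.TS.Fan

open Finset

variable {α V : Type*} [DecidableEq α] [AddCommGroup V] [Module ℝ V]

/-- A collection `S` of bases of the configuration `u` (with coordinate functionals `φ`) whose
facets are paired or lie on the boundary. -/
structure Cx (u : α → V) (S : Finset (Finset α)) (φ : Finset α → α → V →ₗ[ℝ] ℝ) : Prop where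
  repr : ∀ B ∈ S, ∀ P, ∑ a ∈ B, φ B a P • u a = P
  dual : ∀ B ∈ S, ∀ a ∈ B, ∀ b ∈ B, φ B a (u b) = if a = b then 1 else 0
  facet : ∀ B ∈ S, ∀ e ∈ B, (∀ a, 0 ≤ φ B e (u a)) ∨
    ∃ C ∈ S, ∃ e' ∈ C, C ≠ B ∧ B.erase e = C.erase e' ∧ φ C e' (u e) < 0 ∧
      ∀ C' ∈ S, C' ≠ B → B.erase e ⊆ C' → C' = C

variable {u : α → V} {S : Finset (Finset α)} {φ : Finset α → α → V →ₗ[ℝ] ℝ}

theorem Cx.rel (h : Cx u S φ) {B C : Finset α} (hB : B ∈ S) (hC : C ∈ S) {e e' : α} (he : e ∈ B)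
    (he' : e' ∈ C) (hBC : B.erase e = C.erase e') (P : V) :
    φ C e' P = φ B e P * φ C e' (u e) := by
  conv_lhs => rw [← h.repr B hB P]
  rw [map_sum, Finset.sum_eq_single e]
  · rw [map_smul, smul_eq_mul]
  · intro b hb hbe
    have h1 : b ∈ C.erase e' := hBC ▸ Finset.mem_erase.2 ⟨hbe, hb⟩
    rw [map_smul, h.dual C hC e' he' b (Finset.mem_of_mem_erase h1),
      if_neg (Finset.ne_of_mem_erase h1).symm, smul_zero]
  · intro h1
    exact absurd he h1

theorem Cx.coord (h : Cx u S φ) {B C : Finset α} (hB : B ∈ S) (hC : C ∈ S) {e e' : α} (he : e ∈ B)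
    (hBC : B.erase e = C.erase e') {P : V} (hP : φ B e P = 0) {b : α} (hb : b ∈ B.erase e) :
    φ C b P = φ B b P := by
  have hbC : b ∈ C := Finset.mem_of_mem_erase (hBC ▸ hb)
  conv_lhs => rw [← h.repr B hB P]
  rw [map_sum, Finset.sum_eq_single b]
  · rw [map_smul, h.dual C hC b hbC b hbC, if_pos rfl, smul_eq_mul, mul_one]
  · intro a ha hab
    by_cases hae : a = e
    · subst hae
      rw [hP, zero_smul, map_zero]
    · have h1 : a ∈ C.erase e' := hBC ▸ Finset.mem_erase.2 ⟨hae, ha⟩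
      rw [map_smul, h.dual C hC b hbC a (Finset.mem_of_mem_erase h1), if_neg (Ne.symm hab),
        smul_zero]
  · intro h1
    exact absurd (Finset.mem_of_mem_erase hb) h1

/-- `P` lies in the interior of the cone of `B`. -/
def Ins (φ : Finset α → α → V →ₗ[ℝ] ℝ) (B : Finset α) (P : V) : Prop := ∀ a ∈ B, 0 < φ B a P

/-- The point `P` is on the positive side of all boundary facets. -/
def Pos (u : α → V) (S : Finset (Finset α)) (φ : Finset α → α → V →ₗ[ℝ] ℝ) (P : V) : Prop :=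
  ∀ B ∈ S, ∀ e ∈ B, (∀ a, 0 ≤ φ B e (u a)) → 0 < φ B e P

theorem Cx.pos (h : Cx u S φ) {B₀ : Finset α} (hB₀ : B₀ ∈ S) {P : V} (hP : Ins φ B₀ P) :
    Pos u S φ P := by
  intro B hB e he hbd
  have h1 : ∀ Q : V, φ B e Q = ∑ a ∈ B₀, φ B₀ a Q * φ B e (u a) := by
    intro Q
    conv_lhs => rw [← h.repr B₀ hB₀ Q]
    rw [map_sum]
    exact Finset.sum_congr rfl fun a _ => by rw [map_smul, smul_eq_mul]
  rw [h1 P]
  apply Finset.sum_pos'
  · intro a ha
    exact mul_nonneg (hP a ha).le (hbd a)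
  · by_contra hcon
    push Not at hcon
    have h2 : ∀ a ∈ B₀, φ B e (u a) = 0 := by
      intro a ha
      have h3 := hcon a ha
      have h4 := hP a ha
      rcases (hbd a).lt_or_eq with h5 | h5
      · exact absurd h3 (not_le.2 (mul_pos h4 h5))
      · exact h5.symm
    have h6 := h1 (u e)
    rw [h.dual B hB e he e he, if_pos rfl, Finset.sum_eq_zero] at h6
    · exact one_ne_zero h6
    · intro a ha
      rw [h2 a ha, mul_zero]

/-- The exit of a family of affine functions. -/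
theorem exists_exit (A : Finset α) (p q : α → ℝ) (s₁ : ℝ) (hs₀ : 0 ≤ s₁) (hs₁ : s₁ ≤ 1)
    (hpos : ∀ a ∈ A, 0 < (1 - s₁) * p a + s₁ * q a) (hneg : ∃ a ∈ A, q a < 0)
    (hq : ∀ a ∈ A, q a ≠ 0) (hgen : ∀ a ∈ A, ∀ b ∈ A, a ≠ b → p a * q b ≠ p b * q a) :
    ∃ e ∈ A, ∃ s, s₁ < s ∧ s < 1 ∧ (1 - s) * p e + s * q e = 0 ∧ q e < 0 ∧ 0 < p e ∧
      ∀ b ∈ A, b ≠ e → 0 < (1 - s) * p b + s * q b := by
  classical
  have hp : ∀ a ∈ A, q a < 0 → 0 < p a := by
    intro a ha hqa
    have h1 := hpos a ha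
    have h2 : 0 < (1 - s₁) * p a := by
      have : s₁ * q a ≤ 0 := mul_nonpos_of_nonneg_of_nonpos hs₀ hqa.le
      linarith
    rcases (by linarith : 0 ≤ 1 - s₁).lt_or_eq with h3 | h3
    · exact (mul_pos_iff_of_pos_left h3).1 h2
    · rw [← h3, zero_mul] at h2
      exact absurd h2 (lt_irrefl _)
  have hneA : (A.filter (fun a => q a < 0)).Nonempty := by
    obtain ⟨a, ha, hqa⟩ := hneg
    exact ⟨a, Finset.mem_filter.2 ⟨ha, hqa⟩⟩
  obtain ⟨e, he, hmin⟩ := Finset.exists_min_image _ (fun a => p a / (p a - q a)) hneA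
  rw [Finset.mem_filter] at he
  obtain ⟨heA, hqe⟩ := he
  have hpe := hp e heA hqe
  have hde : 0 < p e - q e := by linarith
  have hte : p e / (p e - q e) * (p e - q e) = p e := div_mul_cancel₀ _ hde.ne'
  set t := p e / (p e - q e) with ht
  have h0 : (1 - t) * p e + t * q e = 0 := by linarith
  have hst : s₁ < t := by
    have h1 := hpos e heA
    by_contra hcon
    push Not at hcon
    nlinarith
  have ht1 : t < 1 := by
    by_contra hcon
    push Not at hcon
    nlinarith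
  refine ⟨e, heA, t, hst, ht1, h0, hqe, hpe, ?_⟩
  intro b hb hbe
  rcases lt_or_gt_of_ne (hq b hb) with hqb | hqb
  · have hpb := hp b hb hqb
    have hdb : 0 < p b - q b := by linarith
    have htb : p b / (p b - q b) * (p b - q b) = p b := div_mul_cancel₀ _ hdb.ne'
    have h1 := hmin b (Finset.mem_filter.2 ⟨hb, hqb⟩)
    have h2 : t < p b / (p b - q b) := by
      refine lt_of_le_of_ne h1 ?_
      intro h3
      apply hgen e heA b hb (Ne.symm hbe)
      have h4 : p e * (p b - q b) = p b * (p e - q e) := by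
        rw [← h3] at htb
        calc p e * (p b - q b) = (t * (p e - q e)) * (p b - q b) := by rw [hte]
          _ = (t * (p b - q b)) * (p e - q e) := by ring
          _ = p b * (p e - q e) := by rw [htb]
      linarith
    have h3 : t * (p b - q b) < p b := by
      calc t * (p b - q b) < p b / (p b - q b) * (p b - q b) := mul_lt_mul_of_pos_right h2 hdb
        _ = p b := htb
    linarith
  · have h1 := hpos b hb
    have h2 : (1 - s₁) * ((1 - t) * p b + t * q b) =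
        (1 - t) * ((1 - s₁) * p b + s₁ * q b) + (t - s₁) * q b := by ring
    have h3 : 0 < (1 - s₁) * ((1 - t) * p b + t * q b) := by
      rw [h2]
      have := mul_pos (by linarith : 0 < 1 - t) h1
      have := mul_pos (by linarith : 0 < t - s₁) hqb
      linarith
    exact (mul_pos_iff_of_pos_left (by linarith : 0 < 1 - s₁)).1 h3

/-- The points of the segment. -/
def line (P Q : V) (s : ℝ) : V := (1 - s) • P + s • Q

theorem map_line (f : V →ₗ[ℝ] ℝ) (P Q : V) (s : ℝ) :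
    f (line P Q s) = (1 - s) * f P + s * f Q := by
  unfold line
  rw [map_add, map_smul, map_smul, smul_eq_mul, smul_eq_mul]

/-- Genericity. -/
def Gen (S : Finset (Finset α)) (φ : Finset α → α → V →ₗ[ℝ] ℝ) (P : V) : Prop :=
  ∀ B ∈ S, ∀ a ∈ B, φ B a P ≠ 0

/-- Genericity of a pair. -/
def GenPair (S : Finset (Finset α)) (φ : Finset α → α → V →ₗ[ℝ] ℝ) (P Q : V) : Prop :=
  ∀ B ∈ S, ∀ a ∈ B, ∀ b ∈ B, a ≠ b → φ B a P * φ B b Q ≠ φ B b P * φ B a Q

/-- `B` leaves the segment at `s` and `C` enters. -/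
def Cross (u : α → V) (S : Finset (Finset α)) (φ : Finset α → α → V →ₗ[ℝ] ℝ) (P Q : V)
    (B C : Finset α) : Prop :=
  B ∈ S ∧ C ∈ S ∧ C ≠ B ∧ ∃ e ∈ B, ∃ e' ∈ C, ∃ s : ℝ, B.erase e = C.erase e' ∧
    φ C e' (u e) < 0 ∧ 0 < s ∧ s < 1 ∧ φ B e (line P Q s) = 0 ∧ 0 < φ B e P ∧
    ∀ b ∈ B.erase e, 0 < φ B b (line P Q s)

theorem aff_lt {p q s₁ s₂ : ℝ} (hp : p < 0) (hs₂ : 0 < s₂) (h2 : (1 - s₂) * p + s₂ * q = 0)
    (h1 : 0 < (1 - s₁) * p + s₁ * q) : s₂ < s₁ := by
  by_contra hcon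
  push Not at hcon
  have h3 : s₂ * ((1 - s₁) * p + s₁ * q) = (s₂ - s₁) * p + s₁ * ((1 - s₂) * p + s₂ * q) := by ring
  rw [h2, mul_zero, add_zero] at h3
  have h4 := mul_pos hs₂ h1
  rw [h3] at h4
  have h5 : (s₂ - s₁) * p ≤ 0 := mul_nonpos_of_nonneg_of_nonpos (by linarith) hp.le
  linarith

theorem Cx.cross_inj (h : Cx u S φ) {P Q : V} {B₁ B₂ C : Finset α} (h₁ : Cross u S φ P Q B₁ C)
    (h₂ : Cross u S φ P Q B₂ C) : B₁ = B₂ := by
  obtain ⟨hB₁, hC, hne₁, e₁, he₁, e₁', he₁', s₁, her₁, hκ₁, hs₁, hs₁', hz₁, hp₁, hb₁⟩ := h₁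
  obtain ⟨hB₂, -, hne₂, e₂, he₂, e₂', he₂', s₂, her₂, hκ₂, hs₂, hs₂', hz₂, hp₂, hb₂⟩ := h₂
  by_cases hee : e₁' = e₂'
  · subst hee
    rcases h.facet C hC e₁' he₁' with hf | ⟨D, hD, -, -, -, -, -, hDu⟩
    · exact absurd (hf e₁) (not_le.2 hκ₁)
    · rw [hDu B₁ hB₁ hne₁.symm (by rw [← her₁]; exact Finset.erase_subset _ _),
        hDu B₂ hB₂ hne₂.symm (by rw [← her₂]; exact Finset.erase_subset _ _)]
  · exfalso
    have key : ∀ {B B' : Finset α} {e e' f f' : α} {s t : ℝ}, B ∈ S → B' ∈ S → e ∈ B → f ∈ B' →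
        e' ∈ C → f' ∈ C → B.erase e = C.erase e' → B'.erase f = C.erase f' → e' ≠ f' →
        φ C f' (u f) < 0 → 0 < t → φ B e (line P Q s) = 0 → φ B' f (line P Q t) = 0 →
        0 < φ B' f P → (∀ b ∈ B.erase e, 0 < φ B b (line P Q s)) → t < s := by
      intro B B' e e' f f' s t hB hB' he hf he' hf' her her' hne hκ ht hz hz' hp hb
      have hf'B : f' ∈ B.erase e := her ▸ Finset.mem_erase.2 ⟨Ne.symm hne, hf'⟩
      have h1 : 0 < φ C f' (line P Q s) := by
        rw [h.coord hB hC he her hz hf'B]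
        exact hb f' hf'B
      have h2 : φ C f' P < 0 := by
        rw [h.rel hB' hC hf hf' her']
        exact mul_neg_of_pos_of_neg hp hκ
      have h3 : φ C f' (line P Q t) = 0 := by
        rw [h.rel hB' hC hf hf' her', hz', zero_mul]
      rw [map_line] at h1 h3
      exact aff_lt h2 ht h3 h1
    have h1 := key hB₁ hB₂ he₁ he₂ he₁' he₂' her₁ her₂ hee hκ₂ hs₂ hz₁ hz₂ hp₂ hb₁
    have h2 := key hB₂ hB₁ he₂ he₁ he₂' he₁' her₂ her₁ (Ne.symm hee) hκ₁ hs₁ hz₂ hz₁ hp₁ hb₂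
    linarith

/-- After the crossing one is inside `C`. -/
theorem Cx.after (h : Cx u S φ) {P Q : V} {B C : Finset α} (hB : B ∈ S) (hC : C ∈ S) {e e' : α}
    (he : e ∈ B) (he' : e' ∈ C) (her : B.erase e = C.erase e') (hκ : φ C e' (u e) < 0) {s : ℝ}
    (hs1 : s < 1) (hz : φ B e (line P Q s) = 0) (hq : φ B e Q < 0) (T : Finset α)
    (hb : ∀ b ∈ B.erase e, b ∈ T → 0 < φ B b (line P Q s)) :
    ∃ t, s < t ∧ t < 1 ∧ ∀ b ∈ C, (b = e' ∨ b ∈ T) → 0 < φ C b (line P Q t) := by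
  classical
  have hcont : ∀ b, Continuous fun t : ℝ => φ C b (line P Q t) := by
    intro b
    simp_rw [map_line]
    fun_prop
  have h1 : ∀ᶠ t in nhdsWithin s (Set.Ioi s), ∀ b ∈ C.filter (fun b => b ≠ e' ∧ b ∈ T),
      0 < φ C b (line P Q t) := by
    rw [Finset.eventually_all]
    intro b hbC
    obtain ⟨hbC, hbe, hbT⟩ := Finset.mem_filter.1 hbC
    have hbB : b ∈ B.erase e := her ▸ Finset.mem_erase.2 ⟨hbe, hbC⟩
    have h2 : 0 < φ C b (line P Q s) := by
      rw [h.coord hB hC he her hz hbB]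
      exact hb b hbB hbT
    exact ((hcont b).tendsto s |>.mono_left nhdsWithin_le_nhds).eventually_const_lt h2
  have h2 : ∀ᶠ t in nhdsWithin s (Set.Ioi s), t < 1 :=
    (eventually_lt_nhds hs1).filter_mono nhdsWithin_le_nhds
  have h3 : ∀ᶠ t in nhdsWithin s (Set.Ioi s), s < t := self_mem_nhdsWithin
  obtain ⟨t, ht1, ht2, ht3⟩ := (h1.and (h2.and h3)).exists
  refine ⟨t, ht3, ht2, ?_⟩
  intro b hbC hbT
  by_cases hbe : b = e'
  · subst hbe
    rw [h.rel hB hC he he' her]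
    apply mul_pos_of_neg_of_neg _ hκ
    rw [map_line] at hz ⊢
    have h4 : (1 - s) * ((1 - t) * φ B e P + t * φ B e Q) =
        (1 - t) * ((1 - s) * φ B e P + s * φ B e Q) + (t - s) * φ B e Q := by ring
    rw [hz, mul_zero, zero_add] at h4
    have h5 : (t - s) * φ B e Q < 0 := mul_neg_of_pos_of_neg (by linarith) hq
    rw [← h4] at h5
    by_contra hcon
    push Not at hcon
    have := mul_nonneg (by linarith : 0 ≤ 1 - s) hcon
    linarith
  · rcases hbT with hbT | hbT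
    · exact absurd hbT hbe
    · exact ht1 b (Finset.mem_filter.2 ⟨hbC, hbe, hbT⟩)

open Classical in
/-- Generic points are covered at most as often as other generic points. -/
theorem Cx.count_le (h : Cx u S φ) {P Q : V} (hQ : Pos u S φ Q) (hgQ : Gen S φ Q)
    (hPQ : GenPair S φ P Q) :
    (S.filter (fun B => Ins φ B P)).card ≤ (S.filter (fun B => Ins φ B Q)).card := by
  set M := S.filter (fun B => ∃ s : ℝ, 0 ≤ s ∧ s ≤ 1 ∧ Ins φ B (line P Q s)) with hM
  have hP0 : ∀ B, Ins φ B P → Ins φ B (line P Q 0) := by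
    intro B hB a ha
    rw [map_line]
    have := hB a ha
    linarith
  have hQ1 : ∀ B, Ins φ B Q → Ins φ B (line P Q 1) := by
    intro B hB a ha
    rw [map_line]
    have := hB a ha
    linarith
  have e1 : M.filter (fun B => Ins φ B P) = S.filter (fun B => Ins φ B P) := by
    ext B
    simp only [hM, Finset.mem_filter]
    constructor
    · rintro ⟨⟨h1, -⟩, h2⟩
      exact ⟨h1, h2⟩
    · rintro ⟨h1, h2⟩
      exact ⟨⟨h1, 0, le_refl _, zero_le_one, hP0 B h2⟩, h2⟩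
  have e2 : M.filter (fun B => Ins φ B Q) = S.filter (fun B => Ins φ B Q) := by
    ext B
    simp only [hM, Finset.mem_filter]
    constructor
    · rintro ⟨⟨h1, -⟩, h2⟩
      exact ⟨h1, h2⟩
    · rintro ⟨h1, h2⟩
      exact ⟨⟨h1, 1, zero_le_one, le_refl _, hQ1 B h2⟩, h2⟩
  have c1 := Finset.card_filter_add_card_filter_not (s := M) (fun B => Ins φ B P)
  have c2 := Finset.card_filter_add_card_filter_not (s := M) (fun B => Ins φ B Q)
  rw [e1] at c1
  rw [e2] at c2
  suffices hle : (M.filter (fun B => ¬ Ins φ B Q)).card ≤ (M.filter (fun B => ¬ Ins φ B P)).card by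
    omega
  have key : ∀ B ∈ M.filter (fun B => ¬ Ins φ B Q), ∃ C ∈ M.filter (fun B => ¬ Ins φ B P),
      Cross u S φ P Q B C := by
    intro B hB
    rw [Finset.mem_filter, hM, Finset.mem_filter] at hB
    obtain ⟨⟨hBS, s₁, hs₀, hs₁, hins⟩, hnot⟩ := hB
    have hneg : ∃ a ∈ B, φ B a Q < 0 := by
      unfold Ins at hnot
      push Not at hnot
      obtain ⟨a, ha, hle⟩ := hnot
      exact ⟨a, ha, lt_of_le_of_ne hle (hgQ B hBS a ha)⟩
    obtain ⟨e, he, s, hs1s, hs1, hz, hqe, hpe, hb⟩ := exists_exit B (fun a => φ B a P)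
      (fun a => φ B a Q) s₁ hs₀ hs₁ (fun a ha => by
        have := hins a ha
        rwa [map_line] at this) hneg (fun a ha => hgQ B hBS a ha)
      (fun a ha b hb hab => hPQ B hBS a ha b hb hab)
    have hz' : φ B e (line P Q s) = 0 := by rw [map_line]; exact hz
    have hb' : ∀ b ∈ B.erase e, 0 < φ B b (line P Q s) := by
      intro b hbB
      rw [map_line]
      exact hb b (Finset.mem_of_mem_erase hbB) (Finset.ne_of_mem_erase hbB)
    rcases h.facet B hBS e he with hf | ⟨C, hC, e', he', hCB, her, hκ, -⟩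
    · exact absurd (hQ B hBS e he hf) (not_lt.2 hqe.le)
    · obtain ⟨t, hst, ht1, hins'⟩ := h.after hBS hC he he' her hκ hs1 hz' hqe C
        (fun b hbB _ => hb' b hbB)
      refine ⟨C, ?_, hBS, hC, hCB, e, he, e', he', s, her, hκ, by linarith, hs1, hz', hpe, hb'⟩
      rw [Finset.mem_filter, hM, Finset.mem_filter]
      refine ⟨⟨hC, t, by linarith, ht1.le, fun b hb => hins' b hb (Or.inr hb)⟩, ?_⟩
      intro hCP
      have h1 := hCP e' he'
      rw [h.rel hBS hC he he' her] at h1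
      exact absurd h1 (not_lt.2 (mul_nonpos_of_nonneg_of_nonpos hpe.le hκ.le))
  choose! f hf hcr using key
  apply Finset.card_le_card_of_injOn f (fun B hB => hf B hB)
  intro B₁ hB₁ B₂ hB₂ heq
  have h1 := hcr B₁ hB₁
  have h2 := hcr B₂ hB₂
  rw [heq] at h1
  exact h.cross_inj h1 h2

/-- Perturbation to a generic point. -/
theorem exists_generic (Λ M : Finset (V →ₗ[ℝ] ℝ)) (P : V) (hΛ : ∀ l ∈ Λ, l ≠ 0)
    (hM : ∀ l ∈ M, 0 < l P) : ∃ Q, (∀ l ∈ Λ, l Q ≠ 0) ∧ ∀ l ∈ M, 0 < l Q := by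
  obtain ⟨w, hw⟩ := Module.Dual.exists_forall_ne_zero_of_forall_exists
    (K := ℝ) (M := V) (fun l : Λ => (l : V →ₗ[ℝ] ℝ)) (by
      intro l
      by_contra hcon
      push Not at hcon
      exact hΛ l.1 l.2 (LinearMap.ext hcon))
  have h1 : ∀ᶠ t in nhdsWithin (0 : ℝ) (Set.Ioi 0), ∀ l ∈ Λ, l P + t * l w ≠ 0 := by
    rw [Finset.eventually_all]
    intro l hl
    have hlw := hw ⟨l, hl⟩
    by_cases hP : l P = 0
    · have h3 : ∀ᶠ t in nhdsWithin (0 : ℝ) (Set.Ioi 0), (0 : ℝ) < t := self_mem_nhdsWithin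
      filter_upwards [h3] with t ht
      rw [hP, zero_add]
      exact mul_ne_zero ht.ne' hlw
    · have hc : Continuous fun t : ℝ => l P + t * l w := by fun_prop
      have h4 : (fun t : ℝ => l P + t * l w) 0 ≠ 0 := by simpa using hP
      exact ((hc.tendsto 0).mono_left nhdsWithin_le_nhds).eventually_ne h4
  have h2 : ∀ᶠ t in nhdsWithin (0 : ℝ) (Set.Ioi 0), ∀ l ∈ M, 0 < l P + t * l w := by
    rw [Finset.eventually_all]
    intro l hl
    have hc : Continuous fun t : ℝ => l P + t * l w := by fun_prop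
    have h4 : 0 < (fun t : ℝ => l P + t * l w) 0 := by simpa using hM l hl
    exact ((hc.tendsto 0).mono_left nhdsWithin_le_nhds).eventually_const_lt h4
  obtain ⟨t, ht1, ht2⟩ := (h1.and h2).exists
  refine ⟨P + t • w, ?_, ?_⟩
  · intro l hl
    rw [map_add, map_smul, smul_eq_mul]
    exact ht1 l hl
  · intro l hl
    rw [map_add, map_smul, smul_eq_mul]
    exact ht2 l hl

end Helper13.TS.Fan
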