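import Pool.Agent.Helper13.TS.Fan

set_option autoImplicit false

/-! Simplicial cones with paired facets: nonnegative expansions are unique. -/

namespace Helper13.TS.Fan

open Finset

variable {α V : Type*} [DecidableEq α] [AddCommGroup V] [Module ℝ V]
variable {u : α → V} {S : Finset (Finset α)} {φ : Finset α → α → V →ₗ[ℝ] ℝ}

open Classical in
/-- The coordinate functionals. -/
noncomputable def coords (S : Finset (Finset α)) (φ : Finset α → α → V →ₗ[ℝ] ℝ) :
    Finset (V →ₗ[ℝ] ℝ) :=
  S.biUnion fun B => B.image (φ B)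

open Classical in
/-- The functionals expressing that two crossings are simultaneous. -/
noncomputable def pairs (S : Finset (Finset α)) (φ : Finset α → α → V →ₗ[ℝ] ℝ) (P : V) :
    Finset (V →ₗ[ℝ] ℝ) :=
  S.biUnion fun B => (B ×ˢ B).biUnion fun p => if p.1 = p.2 then ∅ else
    {φ B p.1 P • φ B p.2 - φ B p.2 P • φ B p.1}

theorem Cx.coords_ne (h : Cx u S φ) : ∀ l ∈ coords S φ, l ≠ 0 := by
  classical
  intro l hl
  unfold coords at hl
  obtain ⟨B, hB, hl⟩ := Finset.mem_biUnion.1 hl
  obtain ⟨a, ha, rfl⟩ := Finset.mem_image.1 hl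
  intro h0
  have := h.dual B hB a ha a ha
  rw [h0, if_pos rfl, LinearMap.zero_apply] at this
  exact zero_ne_one this

theorem Cx.pairs_ne (h : Cx u S φ) {P : V} (hP : Gen S φ P) : ∀ l ∈ pairs S φ P, l ≠ 0 := by
  classical
  intro l hl
  unfold pairs at hl
  obtain ⟨B, hB, hl⟩ := Finset.mem_biUnion.1 hl
  obtain ⟨⟨a, b⟩, hab, hl⟩ := Finset.mem_biUnion.1 hl
  obtain ⟨ha, hb⟩ := Finset.mem_product.1 hab
  simp only at ha hb hl
  by_cases hne : a = b
  · rw [if_pos hne] at hl
    exact absurd hl (Finset.notMem_empty _)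
  · rw [if_neg hne, Finset.mem_singleton] at hl
    subst hl
    intro h0
    have h1 := congrArg (fun l : V →ₗ[ℝ] ℝ => l (u b)) h0
    simp only [LinearMap.sub_apply, LinearMap.smul_apply, LinearMap.zero_apply, smul_eq_mul] at h1
    rw [h.dual B hB b hb b hb, h.dual B hB a ha b hb, if_pos rfl, if_neg hne] at h1
    apply hP B hB a ha
    linarith

theorem gen_of {P : V} (h : ∀ l ∈ coords S φ, l P ≠ 0) : Gen S φ P := by
  classical
  intro B hB a ha
  exact h _ (Finset.mem_biUnion.2 ⟨B, hB, Finset.mem_image.2 ⟨a, ha, rfl⟩⟩)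

theorem genPair_of {P Q : V} (h : ∀ l ∈ pairs S φ P, l Q ≠ 0) : GenPair S φ P Q := by
  classical
  intro B hB a ha b hb hab h0
  have h1 := h (φ B a P • φ B b - φ B b P • φ B a) (by
    unfold pairs
    refine Finset.mem_biUnion.2 ⟨B, hB, Finset.mem_biUnion.2 ⟨(a, b),
      Finset.mem_product.2 ⟨ha, hb⟩, ?_⟩⟩
    simp only
    rw [if_neg hab, Finset.mem_singleton])
  simp only [LinearMap.sub_apply, LinearMap.smul_apply, smul_eq_mul] at h1
  apply h1
  linarith

/-- One generic point is covered once. -/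
def Base (S : Finset (Finset α)) (φ : Finset α → α → V →ₗ[ℝ] ℝ) : Prop :=
  ∃ B₀ ∈ S, ∃ P, Ins φ B₀ P ∧ ∀ C ∈ S, C ≠ B₀ → ∃ a ∈ C, φ C a P < 0

theorem Cx.unique_gen (h : Cx u S φ) (hb : Base S φ) {P : V} (hP : Gen S φ P) {B B' : Finset α}
    (hB : B ∈ S) (hB' : B' ∈ S) (hi : Ins φ B P) (hi' : Ins φ B' P) : B = B' := by
  classical
  rcases isEmpty_or_nonempty α with hα | hα
  · rw [Finset.eq_empty_of_isEmpty B, Finset.eq_empty_of_isEmpty B']
  obtain ⟨B₀, hB₀, P₀, hP₀, hout⟩ := hb
  choose! w hwC hw using hout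
  obtain ⟨Q, hQ1, hQ2⟩ := exists_generic (coords S φ ∪ pairs S φ P)
    (B₀.image (φ B₀) ∪ (S.erase B₀).image (fun C => - φ C (w C))) P₀ (by
      intro l hl
      rcases Finset.mem_union.1 hl with hl | hl
      · exact h.coords_ne l hl
      · exact h.pairs_ne hP l hl) (by
      intro l hl
      rcases Finset.mem_union.1 hl with hl | hl
      · obtain ⟨a, ha, rfl⟩ := Finset.mem_image.1 hl
        exact hP₀ a ha
      · obtain ⟨C, hC, rfl⟩ := Finset.mem_image.1 hl
        rw [Finset.mem_erase] at hC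
        rw [LinearMap.neg_apply]
        have := hw C hC.2 hC.1
        linarith)
  have hgQ : Gen S φ Q := gen_of fun l hl => hQ1 l (Finset.mem_union_left _ hl)
  have hPQ : GenPair S φ P Q := genPair_of fun l hl => hQ1 l (Finset.mem_union_right _ hl)
  have hins : Ins φ B₀ Q := fun a ha =>
    hQ2 _ (Finset.mem_union_left _ (Finset.mem_image.2 ⟨a, ha, rfl⟩))
  have hone : (S.filter (fun B => Ins φ B Q)).card ≤ 1 := by
    rw [Finset.card_le_one]
    have key : ∀ C ∈ S.filter (fun B => Ins φ B Q), C = B₀ := by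
      intro C hC
      rw [Finset.mem_filter] at hC
      by_contra hne
      have h1 := hQ2 (- φ C (w C)) (Finset.mem_union_right _ (Finset.mem_image.2
        ⟨C, Finset.mem_erase.2 ⟨hne, hC.1⟩, rfl⟩))
      rw [LinearMap.neg_apply] at h1
      have h2 := hC.2 (w C) (hwC C hC.1 hne)
      linarith
    intro C hC C' hC'
    rw [key C hC, key C' hC']
  have hle := (h.count_le (h.pos hB₀ hins) hgQ hPQ).trans hone
  rw [Finset.card_le_one] at hle
  exact hle B (Finset.mem_filter.2 ⟨hB, hi⟩) B' (Finset.mem_filter.2 ⟨hB', hi'⟩)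

/-- The expansion of `P` on `B`. -/
def co (φ : Finset α → α → V →ₗ[ℝ] ℝ) (B : Finset α) (P : V) (a : α) : ℝ :=
  if a ∈ B then φ B a P else 0

theorem Cx.co_pair (h : Cx u S φ) {B C : Finset α} (hB : B ∈ S) (hC : C ∈ S) {e e' : α}
    (he : e ∈ B) (he' : e' ∈ C) (her : B.erase e = C.erase e') {P : V} (hP : φ B e P = 0) (a : α) :
    co φ C P a = co φ B P a := by
  unfold co
  by_cases ha : a ∈ B.erase e
  · have haC : a ∈ C := Finset.mem_of_mem_erase (her ▸ ha)
    rw [if_pos haC, if_pos (Finset.mem_of_mem_erase ha), h.coord hB hC he her hP ha]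
  · have h1 : (if a ∈ B then φ B a P else 0) = 0 := by
      split_ifs with haB
      · have : a = e := by
          by_contra hne
          exact ha (Finset.mem_erase.2 ⟨hne, haB⟩)
        rw [this, hP]
      · rfl
    have h2 : (if a ∈ C then φ C a P else 0) = 0 := by
      split_ifs with haC
      · have : a = e' := by
          by_contra hne
          exact ha (her ▸ Finset.mem_erase.2 ⟨hne, haC⟩)
        rw [this, h.rel hB hC he he' her, hP, zero_mul]
      · rfl
    rw [h1, h2]

theorem Cx.phi_sum (h : Cx u S φ) {B : Finset α} (hB : B ∈ S) {a : α} (ha : a ∈ B) :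
    φ B a (∑ b ∈ B, u b) = 1 := by
  rw [map_sum, Finset.sum_eq_single a]
  · rw [h.dual B hB a ha a ha, if_pos rfl]
  · intro b hb hba
    rw [h.dual B hB a ha b hb, if_neg (Ne.symm hba)]
  · intro h1
    exact absurd ha h1

/-- **Nonnegative expansions are unique.** -/
theorem Cx.compat (h : Cx u S φ) (hb : Base S φ) {P : V} {B B' : Finset α} (hB : B ∈ S)
    (hB' : B' ∈ S) (hi : ∀ a ∈ B, 0 ≤ φ B a P) (hi' : ∀ a ∈ B', 0 ≤ φ B' a P) (a : α) :
    co φ B P a = co φ B' P a := by
  classical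
  haveI : Nonempty α := ⟨a⟩
  obtain ⟨p, hp1, hp2⟩ := exists_generic (coords S φ) (B.image (φ B)) (∑ b ∈ B, u b)
    h.coords_ne (by
      intro l hl
      obtain ⟨a, ha, rfl⟩ := Finset.mem_image.1 hl
      rw [h.phi_sum hB ha]
      exact one_pos)
  have hgp : Gen S φ p := gen_of hp1
  have hip : Ins φ B p := fun a ha => hp2 _ (Finset.mem_image.2 ⟨a, ha, rfl⟩)
  obtain ⟨q, hq1, hq2⟩ := exists_generic (coords S φ ∪ pairs S φ p) (B'.image (φ B'))
    (∑ b ∈ B', u b) (by
      intro l hl
      rcases Finset.mem_union.1 hl with hl | hl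
      · exact h.coords_ne l hl
      · exact h.pairs_ne hgp l hl) (by
      intro l hl
      obtain ⟨a, ha, rfl⟩ := Finset.mem_image.1 hl
      rw [h.phi_sum hB' ha]
      exact one_pos)
  have hgq : Gen S φ q := gen_of fun l hl => hq1 l (Finset.mem_union_left _ hl)
  have hpq : GenPair S φ p q := genPair_of fun l hl => hq1 l (Finset.mem_union_right _ hl)
  have hiq : Ins φ B' q := fun a ha => hq2 _ (Finset.mem_image.2 ⟨a, ha, rfl⟩)
  have hposq := h.pos hB' hiq
  set F := S.filter (fun C => (∀ a, co φ C P a = co φ B P a) ∧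
    ∃ s : ℝ, 0 ≤ s ∧ s ≤ 1 ∧ ∀ a ∈ C, φ C a P = 0 → 0 < φ C a (line p q s)) with hF
  have hBF : B ∈ F := by
    rw [hF, Finset.mem_filter]
    refine ⟨hB, fun _ => rfl, 0, le_refl _, zero_le_one, ?_⟩
    intro a ha _
    rw [map_line]
    have := hip a ha
    linarith
  obtain ⟨C, hCF, hCq⟩ : ∃ C ∈ F, ∀ a ∈ C, φ C a P = 0 → 0 < φ C a q := by
    by_contra hcon
    push Not at hcon
    have key : ∀ C ∈ F, ∃ e ∈ C, ∃ s : ℝ, φ C e P = 0 ∧ s < 1 ∧ φ C e (line p q s) = 0 ∧
        φ C e q < 0 ∧ 0 < φ C e p ∧ ∀ b ∈ C, φ C b P = 0 → b ≠ e → 0 < φ C b (line p q s) := by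
      intro C hC
      have hC' := hC
      rw [hF, Finset.mem_filter] at hC'
      obtain ⟨hCS, -, s₁, hs₀, hs₁, hloc⟩ := hC'
      obtain ⟨a, ha, haP, haq⟩ := hcon C hC
      obtain ⟨e, he, s, -, hs1, hz, hqe, hpe, hrest⟩ := exists_exit
        (C.filter (fun b => φ C b P = 0)) (fun b => φ C b p) (fun b => φ C b q) s₁ hs₀ hs₁
        (fun b hb => by
          obtain ⟨hb1, hb2⟩ := Finset.mem_filter.1 hb
          have := hloc b hb1 hb2
          rwa [map_line] at this)
        ⟨a, Finset.mem_filter.2 ⟨ha, haP⟩, lt_of_le_of_ne haq (hgq C hCS a ha)⟩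
        (fun b hb => hgq C hCS b (Finset.mem_filter.1 hb).1)
        (fun b hb c hc hbc => hpq C hCS b (Finset.mem_filter.1 hb).1 c (Finset.mem_filter.1 hc).1
          hbc)
      obtain ⟨he1, he2⟩ := Finset.mem_filter.1 he
      refine ⟨e, he1, s, he2, hs1, by rw [map_line]; exact hz, hqe, hpe, ?_⟩
      intro b hb hbP hbe
      rw [map_line]
      exact hrest b (Finset.mem_filter.2 ⟨hb, hbP⟩) hbe
    choose! e heC s heP hs1 hz hqe hpe hrest using key
    obtain ⟨C, hCF, hmax⟩ := Finset.exists_max_image F s ⟨B, hBF⟩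
    have hCS : C ∈ S := (Finset.mem_filter.1 (hF ▸ hCF)).1
    have hCco := (Finset.mem_filter.1 (hF ▸ hCF)).2.1
    rcases h.facet C hCS (e C) (heC C hCF) with hf | ⟨D, hD, e', he', hDC, her, hκ, -⟩
    · exact absurd (hposq C hCS (e C) (heC C hCF) hf) (not_lt.2 (hqe C hCF).le)
    · obtain ⟨t, hst, ht1, hins⟩ := h.after hCS hD (heC C hCF) he' her hκ (hs1 C hCF) (hz C hCF)
        (hqe C hCF) (C.filter (fun b => φ C b P = 0)) (fun b hb hbT =>
          hrest C hCF b (Finset.mem_of_mem_erase hb) (Finset.mem_filter.1 hbT).2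
            (Finset.ne_of_mem_erase hb))
      have hs0 : 0 < s C := by
        have h1 := hz C hCF
        rw [map_line] at h1
        by_contra hcon2
        push Not at hcon2
        have h2 := hpe C hCF
        have h3 := hqe C hCF
        nlinarith
      have hDF : D ∈ F := by
        rw [hF, Finset.mem_filter]
        refine ⟨hD, fun a => ?_, t, by linarith, ht1.le, ?_⟩
        · rw [h.co_pair hCS hD (heC C hCF) he' her (heP C hCF) a]
          exact hCco a
        · intro b hb hbP
          by_cases hbe : b = e'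
          · exact hins b hb (Or.inl hbe)
          · have hbC : b ∈ C.erase (e C) := her ▸ Finset.mem_erase.2 ⟨hbe, hb⟩
            refine hins b hb (Or.inr (Finset.mem_filter.2 ⟨Finset.mem_of_mem_erase hbC, ?_⟩))
            rw [← h.coord hCS hD (heC C hCF) her (heP C hCF) hbC]
            exact hbP
      have h1 := hmax D hDF
      have h2 : 0 < φ D (e D) (line p q t) := by
        by_cases hbe : e D = e'
        · exact hins _ (heC D hDF) (Or.inl hbe)
        · have hbC : e D ∈ C.erase (e C) := her ▸ Finset.mem_erase.2 ⟨hbe, heC D hDF⟩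
          refine hins _ (heC D hDF) (Or.inr (Finset.mem_filter.2
            ⟨Finset.mem_of_mem_erase hbC, ?_⟩))
          rw [← h.coord hCS hD (heC C hCF) her (heP C hCF) hbC]
          exact heP D hDF
      have h3 := hz D hDF
      rw [map_line] at h2 h3
      have h4 := hpe D hDF
      have h5 := hqe D hDF
      nlinarith
  have hCS : C ∈ S := (Finset.mem_filter.1 (hF ▸ hCF)).1
  have hCco := (Finset.mem_filter.1 (hF ▸ hCF)).2.1
  have hCP : ∀ a ∈ C, 0 ≤ φ C a P := by
    intro a ha
    have h1 := hCco a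
    unfold co at h1
    rw [if_pos ha] at h1
    rw [h1]
    split_ifs with haB
    · exact hi a haB
    · exact le_refl _
  have h1 : ∀ᶠ t in nhdsWithin (0 : ℝ) (Set.Ioi 0), ∀ l ∈ coords S φ, l P + t * l q ≠ 0 := by
    rw [Finset.eventually_all]
    intro l hl
    have hlq := hq1 l (Finset.mem_union_left _ hl)
    by_cases hP : l P = 0
    · have h3 : ∀ᶠ t in nhdsWithin (0 : ℝ) (Set.Ioi 0), (0 : ℝ) < t := self_mem_nhdsWithin
      filter_upwards [h3] with t ht
      rw [hP, zero_add]
      exact mul_ne_zero ht.ne' hlq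
    · have hc : Continuous fun t : ℝ => l P + t * l q := by fun_prop
      have h4 : (fun t : ℝ => l P + t * l q) 0 ≠ 0 := by simpa using hP
      exact ((hc.tendsto 0).mono_left nhdsWithin_le_nhds).eventually_ne h4
  have h2 : ∀ᶠ t in nhdsWithin (0 : ℝ) (Set.Ioi 0), ∀ b ∈ C, 0 < φ C b P + t * φ C b q := by
    rw [Finset.eventually_all]
    intro b hb
    rcases (hCP b hb).lt_or_eq with hP | hP
    · have hc : Continuous fun t : ℝ => φ C b P + t * φ C b q := by fun_prop
      have h4 : 0 < (fun t : ℝ => φ C b P + t * φ C b q) 0 := by simpa using hP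
      exact ((hc.tendsto 0).mono_left nhdsWithin_le_nhds).eventually_const_lt h4
    · have h3 : ∀ᶠ t in nhdsWithin (0 : ℝ) (Set.Ioi 0), (0 : ℝ) < t := self_mem_nhdsWithin
      filter_upwards [h3] with t ht
      rw [← hP, zero_add]
      exact mul_pos ht (hCq b hb hP.symm)
  have h3 : ∀ᶠ t in nhdsWithin (0 : ℝ) (Set.Ioi 0), (0 : ℝ) < t := self_mem_nhdsWithin
  obtain ⟨t, ht1, ht2, ht3⟩ := (h1.and (h2.and h3)).exists
  have hgen : Gen S φ (P + t • q) := gen_of (by
    intro l hl
    rw [map_add, map_smul, smul_eq_mul]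
    exact ht1 l hl)
  have hCB' : C = B' := h.unique_gen hb hgen hCS hB' (by
    intro b hb
    rw [map_add, map_smul, smul_eq_mul]
    exact ht2 b hb) (by
    intro b hb
    rw [map_add, map_smul, smul_eq_mul]
    have h4 := hi' b hb
    have h5 := mul_pos ht3 (hiq b hb)
    linarith)
  rw [← hCB']
  exact (hCco a).symm

end Helper13.TS.Fan
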