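import Pool.Agent.Helper13.TS.Tree3
import Pool.Agent.Helper28.SP.Merge

set_option autoImplicit false

/-! Sets of positions whose colours can be grouped into three classes such that the grouped
positions are spread-out are realised. -/

namespace Helper13.TS

open Pool.Agent.Helper28.SO (TreeFam TRealized mergeV Realized)

variable {n d e : ℕ}

/-- The vector of the sums of the coordinates of `w` over the classes of `g`. -/
def fold (g : Fin d → Fin e) (w : Fin d → ℕ) : Fin e → ℕ :=
  fun x => ∑ c ∈ Finset.univ.filter (fun c => g c = x), w c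

theorem sum_fold (g : Fin d → Fin e) (w : Fin d → ℕ) : ∑ x, fold g w x = ∑ c, w c := by
  unfold fold
  exact Finset.sum_fiberwise _ _ _

theorem fold_mono (g : Fin d → Fin e) {w w' : Fin d → ℕ} (h : ∀ c, w c ≤ w' c) (x : Fin e) :
    fold g w x ≤ fold g w' x :=
  Finset.sum_le_sum fun c _ => h c

theorem SpreadOut.of_fold {ι : Type*} {v : ι → Fin d → ℕ} (g : Fin d → Fin e)
    (hs : SpreadOut n (fun k => fold g (v k))) : SpreadOut n v := by
  intro J hJ m hm
  rw [← sum_fold g m]
  exact hs J hJ (fold g m) fun k hk x => fold_mono g (hm k hk) x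

theorem fold_mergeV (g : Fin (d + 1) → Fin e) (z : Fin (d + 1)) (s : Fin d)
    (h : g z = g (z.succAbove s)) (w : Fin (d + 1) → ℕ) :
    fold (fun c => g (z.succAbove c)) (mergeV z s w) = fold g w := by
  funext x
  unfold fold mergeV
  rw [Finset.sum_filter, Finset.sum_filter, Fin.sum_univ_succAbove _ z]
  have h1 : ∀ c : Fin d, (if g (z.succAbove c) = x then
      w (z.succAbove c) + (if c = s then w z else 0) else 0) =
      (if g (z.succAbove c) = x then w (z.succAbove c) else 0) +
        (if c = s then (if g z = x then w z else 0) else 0) := by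
    intro c
    by_cases hc : c = s
    · subst hc
      rw [← h]
      split_ifs <;> simp
    · split_ifs <;> simp_all
  rw [Finset.sum_congr rfl fun c _ => h1 c, Finset.sum_add_distrib, Finset.sum_ite_eq']
  simp [add_comm]

/-- Positions that become spread-out after grouping the colours in three classes are realised. -/
theorem tRealized_of_fold (hn : 1 ≤ n) : ∀ (d : ℕ), 1 ≤ d → ∀ (v : Fin n → Fin d → ℕ)
    (g : Fin d → Fin 3), (∀ k, ∑ c, v k c = n - 1) → SpreadOut n (fun k => fold g (v k)) →
    TRealized n d v := by
  intro d
  induction d with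
  | zero => intro hd; omega
  | succ d ih =>
    intro _ v g hv hs
    have hs' : SpreadOut n v := hs.of_fold g
    rcases Nat.lt_or_ge d 2 with hd | hd
    · interval_cases d
      · exact ⟨_, Pool.Agent.Helper28.SO.treeFam_one n hn, hv, fun k => rfl⟩
      · exact Pool.Agent.Helper28.SO.tRealized_two hn v hv (hs'.injective hv)
    · by_cases hg : Function.Injective g
      · have hd3 : d = 2 := by
          have := Fintype.card_le_of_injective g hg
          rw [Fintype.card_fin, Fintype.card_fin] at this
          omega
        subst hd3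
        obtain ⟨T, hT, hTv⟩ := treeFam3 hn v hv hs'
        exact ⟨T, hT, hv, hTv⟩
      · obtain ⟨z, c, hzc, hne⟩ : ∃ z c, g z = g c ∧ z ≠ c := by
          by_contra h
          push Not at h
          exact hg fun z c hzc => h z c hzc
        obtain ⟨s, rfl⟩ := Fin.exists_succAbove_eq hne.symm
        refine TRealized.merge hn hd z s v (ih (by omega) _ (fun c => g (z.succAbove c)) ?_ ?_)
        · intro k
          rw [Pool.Agent.Helper28.SO.sum_mergeV]
          exact hv k
        · have : (fun k => fold (fun c => g (z.succAbove c)) (mergeV z s (v k))) =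
              fun k => fold g (v k) := by
            funext k
            exact fold_mergeV g z s hzc (v k)
          rw [this]
          exact hs

/-- The same for a set of positions. -/
theorem realized_of_fold (hn : 1 ≤ n) (hd : 1 ≤ d) (U : Finset (Fin d → ℕ)) (hU : U.card = n)
    (hsum : ∀ v ∈ U, ∑ c, v c = n - 1) (g : Fin d → Fin 3)
    (h : ∀ W ⊆ U, W.Nonempty → ∀ m : Fin 3 → ℕ,
      (∀ w ∈ W, ∀ x, m x ≤ ∑ c ∈ Finset.univ.filter (fun c => g c = x), w c) →
      ∑ x, m x ≤ n - W.card) : Realized n d U := by
  classical
  let φ : Fin n ≃ U := (finCongr hU.symm).trans U.equivFin.symm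
  let v : Fin n → Fin d → ℕ := fun k => (φ k : Fin d → ℕ)
  have hvU : ∀ k, v k ∈ U := fun k => (φ k).2
  have hinj : Function.Injective v := fun i j hij => φ.injective (Subtype.ext hij)
  have hT : TRealized n d v := by
    refine tRealized_of_fold hn d hd v g (fun k => hsum _ (hvU k)) ?_
    intro J hJ m hm
    have h1 := h (J.image v) (by
      intro w hw
      obtain ⟨k, -, rfl⟩ := Finset.mem_image.1 hw
      exact hvU k) (hJ.image v) m (by
      intro w hw
      obtain ⟨k, hk, rfl⟩ := Finset.mem_image.1 hw
      exact hm k hk)
    rw [Finset.card_image_of_injective _ hinj] at h1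
    exact h1
  refine hT.realized hn hd U ?_
  intro u
  constructor
  · intro hu
    refine ⟨φ.symm ⟨u, hu⟩, ?_⟩
    show ((φ (φ.symm ⟨u, hu⟩) : U) : Fin d → ℕ) = u
    rw [Equiv.apply_symm_apply]
  · rintro ⟨k, rfl⟩
    exact hvU k

end Helper13.TS
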