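import Pool.Agent.Helper13.TS.Equiv
import Pool.Agent.Helper50.SO.Check

set_option autoImplicit false

/-! The frozen statements S12235 and S12236 in terms of families of trees. -/

namespace Helper13.TS

open Finset
open Pool.Agent.Helper28.SO (TreeFam TRealized Realized IsFineMixed cell)

variable {n d : ℕ}

theorem SpreadOut.inj {v : Fin n → Fin d → ℕ} (hs : SpreadOut n v)
    (hv : ∀ k, ∑ c, v k c = n - 1) : Function.Injective v := by
  classical
  intro i j hij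
  by_contra hne
  have h1 := hs {i, j} ⟨i, by simp⟩ (v i) (by
    intro k hk c
    rcases Finset.mem_insert.1 hk with rfl | hk
    · exact le_rfl
    · rw [Finset.mem_singleton.1 hk, hij])
  rw [hv, Finset.card_pair hne] at h1
  have hi := i.2
  have hj := j.2
  have : (i : ℕ) ≠ j := fun h => hne (Fin.ext h)
  omega

/-- the frozen condition on the set of the values of a labelled family -/
theorem frozen_of_spreadOut {v : Fin n → Fin d → ℕ} (hs : SpreadOut n v) :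
    ∀ W ⊆ univ.image v, W.Nonempty → ∀ m : Fin d → ℕ, (∀ w ∈ W, ∀ k, m k ≤ w k) →
      ∑ k, m k ≤ n - W.card := by
  classical
  intro W hW hWne m hm
  have h1 : ∀ w : {w // w ∈ W}, ∃ k, v k = w.1 := by
    intro w
    have := hW w.2
    simpa using this
  choose f hf using h1
  have hfinj : Function.Injective f := fun a b hab => Subtype.ext (by rw [← hf a, ← hf b, hab])
  have h2 := hs (univ.image f) (by
    obtain ⟨w, hw⟩ := hWne
    exact ⟨f ⟨w, hw⟩, by simp⟩) m (by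
    intro j hj c
    obtain ⟨w, -, rfl⟩ := Finset.mem_image.1 hj
    rw [hf w]
    exact hm w.1 w.2 c)
  rwa [Finset.card_image_of_injective _ hfinj, Finset.card_univ, Fintype.card_coe] at h2

theorem spreadOut_of_frozen {v : Fin n → Fin d → ℕ} (hinj : Function.Injective v)
    (h : ∀ W ⊆ univ.image v, W.Nonempty → ∀ m : Fin d → ℕ, (∀ w ∈ W, ∀ k, m k ≤ w k) →
      ∑ k, m k ≤ n - W.card) : SpreadOut n v := by
  classical
  intro J hJ m hm
  have h1 := h (J.image v) (Finset.image_subset_image (Finset.subset_univ _)) (hJ.image v) m (by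
    intro w hw
    obtain ⟨j, hj, rfl⟩ := Finset.mem_image.1 hw
    exact hm j hj)
  rwa [Finset.card_image_of_injective _ hinj] at h1

theorem image_of_card {U : Finset (Fin d → ℕ)} (hU : U.card = n) :
    ∃ v : Fin n → Fin d → ℕ, Function.Injective v ∧ univ.image v = U := by
  classical
  let φ : Fin n ≃ U := (finCongr hU.symm).trans U.equivFin.symm
  refine ⟨fun k => (φ k : Fin d → ℕ), fun i j hij => φ.injective (Subtype.ext hij), ?_⟩
  ext u
  simp only [Finset.mem_image, Finset.mem_univ, true_and]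
  constructor
  · rintro ⟨k, rfl⟩
    exact (φ k).2
  · intro hu
    exact ⟨φ.symm ⟨u, hu⟩, by simp⟩

/-- S12235 from families of trees. -/
theorem main_of (h : ∀ n d : ℕ, 1 ≤ n → 1 ≤ d → ∀ v : Fin n → Fin d → ℕ,
      (∀ k, ∑ c, v k c = n - 1) → SpreadOut n v → TRealized n d v) :
    ∀ (n d : ℕ), 1 ≤ n → 1 ≤ d →
    ∀ P : (Fin n → Finset (Fin d)) → Set (Fin d → ℝ),
    P = (fun B => convexHull ℝ {x : Fin d → ℝ | ∃ f : Fin n → Fin d, (∀ i, f i ∈ B i) ∧
          ∀ k, x k = ((Finset.univ.filter (fun i => f i = k)).card : ℝ)}) →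
    ∀ U : Finset (Fin d → ℕ), U.card = n → (∀ v ∈ U, ∑ k, v k = n - 1) →
    (∀ W ⊆ U, W.Nonempty → ∀ m : Fin d → ℕ, (∀ w ∈ W, ∀ k, m k ≤ w k) →
        ∑ k, m k ≤ n - W.card) →
    ∃ S : Finset (Fin n → Finset (Fin d)),
      (∀ B ∈ S, (∀ i, (B i).Nonempty) ∧ ∑ i, ((B i).card - 1) = d - 1 ∧
          Module.finrank ℝ (vectorSpan ℝ (P B)) = d - 1) ∧
      (∀ x : Fin d → ℝ, (∀ k, 0 ≤ x k) → ∑ k, x k = (n : ℝ) → ∃ B ∈ S, x ∈ P B) ∧
      (∀ B ∈ S, ∀ C ∈ S, P B ∩ P C = ∅ ∨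
          ∃ l m : Fin d → ℝ, ∀ F : Fin n → Finset (Fin d),
            F = (fun i => (B i).filter (fun k => ∀ k' ∈ B i, l k ≤ l k')) →
            (F = (fun i => (C i).filter (fun k => ∀ k' ∈ C i, m k ≤ m k')) ∧
              P B ∩ P C = P F)) ∧
      (∀ v : Fin d → ℕ, v ∈ U ↔ ∃ B ∈ S, ∃ i, B i = Finset.univ ∧
          ∀ k, v k = (Finset.univ.filter (fun j => j ≠ i ∧ k ∈ B j)).card) := by
  classical
  intro n d hn hd P hP U hU hsum hsp
  subst hP
  obtain ⟨v, hinj, himg⟩ := image_of_card hU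
  subst himg
  have hT := h n d hn hd v (fun k => hsum _ (by simp)) (spreadOut_of_frozen hinj hsp)
  obtain ⟨S, hS, hUS⟩ := hT.realized hn hd (univ.image v) (by
    intro u
    simp)
  exact ⟨S, hS.1, hS.2.1, hS.2.2, hUS⟩

/-- S12236 from one spread-out family which is not realised by a family of trees. -/
theorem not_main_of {n d : ℕ} (hn : 1 ≤ n) (hd : 1 ≤ d) (v : Fin n → Fin d → ℕ)
    (hv : ∀ k, ∑ c, v k c = n - 1) (hs : SpreadOut n v) (h : ¬ TRealized n d v) :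
    ¬ (∀ (n d : ℕ), 1 ≤ n → 1 ≤ d →
    ∀ P : (Fin n → Finset (Fin d)) → Set (Fin d → ℝ),
    P = (fun B => convexHull ℝ {x : Fin d → ℝ | ∃ f : Fin n → Fin d, (∀ i, f i ∈ B i) ∧
          ∀ k, x k = ((Finset.univ.filter (fun i => f i = k)).card : ℝ)}) →
    ∀ U : Finset (Fin d → ℕ), U.card = n → (∀ v ∈ U, ∑ k, v k = n - 1) →
    (∀ W ⊆ U, W.Nonempty → ∀ m : Fin d → ℕ, (∀ w ∈ W, ∀ k, m k ≤ w k) →
        ∑ k, m k ≤ n - W.card) →
    ∃ S : Finset (Fin n → Finset (Fin d)),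
      (∀ B ∈ S, (∀ i, (B i).Nonempty) ∧ ∑ i, ((B i).card - 1) = d - 1 ∧
          Module.finrank ℝ (vectorSpan ℝ (P B)) = d - 1) ∧
      (∀ x : Fin d → ℝ, (∀ k, 0 ≤ x k) → ∑ k, x k = (n : ℝ) → ∃ B ∈ S, x ∈ P B) ∧
      (∀ B ∈ S, ∀ C ∈ S, P B ∩ P C = ∅ ∨
          ∃ l m : Fin d → ℝ, ∀ F : Fin n → Finset (Fin d),
            F = (fun i => (B i).filter (fun k => ∀ k' ∈ B i, l k ≤ l k')) →
            (F = (fun i => (C i).filter (fun k => ∀ k' ∈ C i, m k ≤ m k')) ∧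
              P B ∩ P C = P F)) ∧
      (∀ v : Fin d → ℕ, v ∈ U ↔ ∃ B ∈ S, ∃ i, B i = Finset.univ ∧
          ∀ k, v k = (Finset.univ.filter (fun j => j ≠ i ∧ k ∈ B j)).card)) := by
  classical
  intro hmain
  have hinj := hs.inj hv
  have hcard : (univ.image v).card = n := by
    rw [Finset.card_image_of_injective _ hinj, Finset.card_fin]
  obtain ⟨S, h1, h2, h3, h4⟩ := hmain n d hn hd _ rfl (univ.image v) hcard (by
    intro w hw
    obtain ⟨k, -, rfl⟩ := Finset.mem_image.1 hw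
    exact hv k) (frozen_of_spreadOut hs)
  exact h (tRealized_of_realized hn hd hcard ⟨S, ⟨h1, h2, h3⟩, h4⟩ v (by
    intro u
    simp))

/-- The same with the computable test of spread-outness. -/
theorem not_main_of_test {n d : ℕ} (hn : 1 ≤ n) (hd : 1 ≤ d) (v : Fin n → Fin d → ℕ)
    (hv : ∀ k, ∑ c, v k c = n - 1) (hs : Helper50.SO.soB n (Helper50.SO.rows v) = true)
    (h : ¬ TRealized n d v) :
    ¬ (∀ (n d : ℕ), 1 ≤ n → 1 ≤ d →
    ∀ P : (Fin n → Finset (Fin d)) → Set (Fin d → ℝ),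
    P = (fun B => convexHull ℝ {x : Fin d → ℝ | ∃ f : Fin n → Fin d, (∀ i, f i ∈ B i) ∧
          ∀ k, x k = ((Finset.univ.filter (fun i => f i = k)).card : ℝ)}) →
    ∀ U : Finset (Fin d → ℕ), U.card = n → (∀ v ∈ U, ∑ k, v k = n - 1) →
    (∀ W ⊆ U, W.Nonempty → ∀ m : Fin d → ℕ, (∀ w ∈ W, ∀ k, m k ≤ w k) →
        ∑ k, m k ≤ n - W.card) →
    ∃ S : Finset (Fin n → Finset (Fin d)),
      (∀ B ∈ S, (∀ i, (B i).Nonempty) ∧ ∑ i, ((B i).card - 1) = d - 1 ∧
          Module.finrank ℝ (vectorSpan ℝ (P B)) = d - 1) ∧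
      (∀ x : Fin d → ℝ, (∀ k, 0 ≤ x k) → ∑ k, x k = (n : ℝ) → ∃ B ∈ S, x ∈ P B) ∧
      (∀ B ∈ S, ∀ C ∈ S, P B ∩ P C = ∅ ∨
          ∃ l m : Fin d → ℝ, ∀ F : Fin n → Finset (Fin d),
            F = (fun i => (B i).filter (fun k => ∀ k' ∈ B i, l k ≤ l k')) →
            (F = (fun i => (C i).filter (fun k => ∀ k' ∈ C i, m k ≤ m k')) ∧
              P B ∩ P C = P F)) ∧
      (∀ v : Fin d → ℕ, v ∈ U ↔ ∃ B ∈ S, ∃ i, B i = Finset.univ ∧
          ∀ k, v k = (Finset.univ.filter (fun j => j ≠ i ∧ k ∈ B j)).card)) :=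
  not_main_of hn hd v hv (Helper50.SO.spreadOut_of_soB hs) h

end Helper13.TS
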