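import Mathlib

/-!
# Generic flags in characteristic two (thread TH-S, MP_eb8c5c_co)

For a finite row type `R` and a finite column type `S`, `cdet a = ∑_{σ : R ≃ S} ∏_r a r (σ r)` is
the determinant in characteristic two, with no choice of an ordering.  For flags
`ξ : Fin d → ℕ → Fin n → K` (rows indexed by a colour and a natural number):

* `Delta ξ m` is the determinant of the rows `(c, i)`, `i < m c`;
* `line ξ v k` is the coordinate `k` of the line cut out by the rows `(c, i)`, `i < v c`;
* `pdet ξ v` is the determinant of the lines `v i`.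

Main result: `exists_flags`: for a spread-out family there are flags over a field of characteristic
two with all `Delta ξ m ≠ 0` and `pdet ξ v ≠ 0`.
-/

set_option autoImplicit false

namespace Helper13.TS

open Finset

/-- The determinant in characteristic two, as a sum over bijections. -/
def cdet {A : Type*} [CommSemiring A] {R S : Type*} [Fintype R] [Fintype S] [DecidableEq R]
    [DecidableEq S] (a : R → S → A) : A :=
  ∑ σ : R ≃ S, ∏ r, a r (σ r)

section cdet

variable {A : Type*} [CommRing A] {R S : Type*} [Fintype R] [Fintype S] [DecidableEq R]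
  [DecidableEq S]

theorem map_cdet {B : Type*} [CommSemiring B] {A : Type*} [CommSemiring A] (φ : A →+* B)
    (a : R → S → A) : φ (cdet a) = cdet (fun r s => φ (a r s)) := by
  simp only [cdet, map_sum, map_prod]

theorem cdet_eq_det [CharP A 2] (a : R → S → A) (e : R ≃ S) :
    cdet a = Matrix.det (Matrix.of fun r r' => a r (e r')) := by
  classical
  have hsign : ∀ σ : Equiv.Perm R, ((Equiv.Perm.sign σ : ℤˣ) : ℤ) • (1 : A) = 1 := by
    intro σ
    rcases Int.units_eq_one_or (Equiv.Perm.sign σ) with h | h
    · simp [h]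
    · rw [h]
      have h2 : (2 : A) = 0 := CharTwo.two_eq_zero
      have : (-1 : A) = 1 := by
        have : (1 : A) + 1 = 0 := by rw [one_add_one_eq_two]; exact h2
        exact neg_eq_of_add_eq_zero_left this
      simp [this]
  rw [← Matrix.det_transpose, Matrix.det_apply']
  unfold cdet
  refine Fintype.sum_equiv (Equiv.mk (fun σ : R ≃ S => (σ.trans e.symm : Equiv.Perm R))
    (fun τ => τ.trans e) (fun σ => by ext x; simp) (fun τ => by ext x; simp)) _ _ ?_
  intro σ
  have h1 : (((Equiv.Perm.sign (σ.trans e.symm : Equiv.Perm R) : ℤˣ) : ℤ) : A) = 1 := by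
    have := hsign (σ.trans e.symm : Equiv.Perm R)
    simpa using this
  simp only [Equiv.coe_fn_mk, Matrix.transpose_apply, Matrix.of_apply]
  rw [h1, one_mul]
  refine Finset.prod_congr rfl fun r _ => ?_
  simp

/-- A cdet whose entries are zero off the graph of a bijection `σ₀`, one on it, equals one. -/
theorem cdet_graph {A : Type*} [CommSemiring A] (σ₀ : R ≃ S) :
    cdet (fun r s => if s = σ₀ r then (1 : A) else 0) = 1 := by
  classical
  unfold cdet
  rw [Finset.sum_eq_single σ₀]
  · simp
  · intro σ _ hσ
    obtain ⟨r, hr⟩ : ∃ r, σ r ≠ σ₀ r := by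
      by_contra h
      push Not at h
      exact hσ (Equiv.ext h)
    exact Finset.prod_eq_zero (Finset.mem_univ r) (by simp [hr])
  · intro h
    exact absurd (Finset.mem_univ _) h

end cdet

section flags

variable {n d : ℕ}

/-- The rows `(c, i)` with `i < m c`. -/
abbrev Rows {d : ℕ} (m : Fin d → ℕ) : Type := Σ c : Fin d, Fin (m c)

/-- The determinant of the rows `(c, i)`, `i < m c`. -/
def Delta {A : Type*} [CommSemiring A] (ξ : Fin d → ℕ → Fin n → A) (m : Fin d → ℕ) : A :=
  cdet (fun (r : Rows m) (k : Fin n) => ξ r.1 r.2 k)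

/-- The line cut out by the rows `(c, i)`, `i < v c` (its `k`-th coordinate is the minor without
the column `k`). -/
def line {A : Type*} [CommSemiring A] (ξ : Fin d → ℕ → Fin n → A) (v : Fin d → ℕ) (k : Fin n) :
    A :=
  cdet (fun (r : Rows v) (j : {j : Fin n // j ≠ k}) => ξ r.1 r.2 j)

/-- The determinant of a family of lines. -/
def pdet {A : Type*} [CommSemiring A] {ι : Type*} [Fintype ι] [DecidableEq ι]
    (ξ : Fin d → ℕ → Fin n → A) (v : ι → Fin d → ℕ) : A :=
  cdet (fun (i : ι) (k : Fin n) => line ξ (v i) k)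

theorem map_Delta {A B : Type*} [CommSemiring A] [CommSemiring B] (φ : A →+* B)
    (ξ : Fin d → ℕ → Fin n → A) (m : Fin d → ℕ) :
    φ (Delta ξ m) = Delta (fun c i k => φ (ξ c i k)) m := by
  simp only [Delta, map_cdet]

theorem map_line {A B : Type*} [CommSemiring A] [CommSemiring B] (φ : A →+* B)
    (ξ : Fin d → ℕ → Fin n → A) (v : Fin d → ℕ) (k : Fin n) :
    φ (line ξ v k) = line (fun c i k => φ (ξ c i k)) v k := by
  simp only [line, map_cdet]

theorem map_pdet {A B : Type*} [CommSemiring A] [CommSemiring B] {ι : Type*} [Fintype ι]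
    [DecidableEq ι] (φ : A →+* B)
    (ξ : Fin d → ℕ → Fin n → A) (v : ι → Fin d → ℕ) :
    φ (pdet ξ v) = pdet (fun c i k => φ (ξ c i k)) v := by
  simp only [pdet, map_cdet, map_line]

/-- Spread-out families (in the form of the frozen statement). -/
def SpreadOut {ι : Type*} (n : ℕ) (v : ι → Fin d → ℕ) : Prop :=
  ∀ J : Finset ι, J.Nonempty → ∀ m : Fin d → ℕ, (∀ j ∈ J, ∀ c, m c ≤ v j c) →
    ∑ c, m c ≤ n - J.card

/-- The polynomial ring of the generic entries. -/
abbrev Poly (n d : ℕ) : Type := MvPolynomial (Fin d × ℕ × Fin n) (ZMod 2)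

/-- The generic flags. -/
noncomputable def gen (n d : ℕ) : Fin d → ℕ → Fin n → Poly n d :=
  fun c i k => MvPolynomial.X (c, i, k)

/-- A generic `cdet` with a prescribed zero pattern is non-zero as soon as a bijection avoids the
zeros. -/
theorem cdet_pattern_ne_zero {R S : Type*} [Fintype R] [Fintype S] [DecidableEq R]
    [DecidableEq S] {τ : Type*} [DecidableEq τ] (f : R → S → τ) (hf : ∀ r s r' s', f r s = f r' s' → r = r' ∧ s = s')
    (bad : R → S → Prop) [∀ r s, Decidable (bad r s)] (σ₀ : R ≃ S) (h : ∀ r, ¬ bad r (σ₀ r)) :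
    cdet (fun r s => if bad r s then (0 : MvPolynomial τ (ZMod 2)) else MvPolynomial.X (f r s))
      ≠ 0 := by
  classical
  intro h0
  let g : τ → ZMod 2 := fun t => if ∃ r, t = f r (σ₀ r) then 1 else 0
  have h1 := congrArg (MvPolynomial.eval₂Hom (RingHom.id (ZMod 2)) g) h0
  rw [map_cdet, map_zero] at h1
  have h2 : (fun (r : R) (s : S) => (MvPolynomial.eval₂Hom (RingHom.id (ZMod 2)) g)
      (if bad r s then (0 : MvPolynomial τ (ZMod 2)) else MvPolynomial.X (f r s)))
      = fun r s => if s = σ₀ r then (1 : ZMod 2) else 0 := by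
    funext r s
    by_cases hs : s = σ₀ r
    · subst hs
      rw [if_neg (h r), if_pos rfl]
      simp only [MvPolynomial.coe_eval₂Hom, MvPolynomial.eval₂_X]
      simp only [g]
      rw [if_pos ⟨r, rfl⟩]
    · rw [if_neg hs]
      by_cases hb : bad r s
      · rw [if_pos hb, map_zero]
      · rw [if_neg hb]
        simp only [MvPolynomial.coe_eval₂Hom, MvPolynomial.eval₂_X]
        simp only [g]
        rw [if_neg]
        rintro ⟨r', hr'⟩
        obtain ⟨rfl, h4⟩ := hf _ _ _ _ hr'
        exact hs h4
  rw [h2, cdet_graph] at h1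
  exact one_ne_zero h1

theorem Delta_gen_ne_zero (m : Fin d → ℕ) (hm : ∑ c, m c = n) : Delta (gen n d) m ≠ 0 := by
  classical
  have hcard : Fintype.card (Rows m) = Fintype.card (Fin n) := by
    simp [Rows, hm]
  obtain ⟨e⟩ : Nonempty (Rows m ≃ Fin n) := ⟨Fintype.equivOfCardEq hcard⟩
  have h := cdet_pattern_ne_zero (R := Rows m) (S := Fin n)
    (fun r k => ((r.1, (r.2 : ℕ), k) : Fin d × ℕ × Fin n))
    (by
      rintro ⟨c, i⟩ k ⟨c', i'⟩ k' h
      simp only [Prod.mk.injEq] at h
      obtain ⟨rfl, h1, rfl⟩ := h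
      refine ⟨?_, rfl⟩
      have : i = i' := Fin.ext h1
      subst this
      rfl)
    (fun _ _ => False) e (fun _ h => h)
  simpa [Delta, gen] using h

/-- The pattern specialisation: row `(c, i)` is zero in the columns `k` with `i < v k c`. -/
noncomputable def spec (v : Fin n → Fin d → ℕ) : Poly n d →+* Poly n d :=
  MvPolynomial.eval₂Hom MvPolynomial.C (fun t : Fin d × ℕ × Fin n =>
    if t.2.1 < v t.2.2 t.1 then 0 else MvPolynomial.X t)

theorem spec_gen (v : Fin n → Fin d → ℕ) (c : Fin d) (i : ℕ) (k : Fin n) :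
    spec v (gen n d c i k) = if i < v k c then 0 else MvPolynomial.X (c, i, k) := by
  simp [spec, gen]

/-- Hall: the bijection behind the diagonal entry `k`. -/
theorem exists_hall (v : Fin n → Fin d → ℕ) (hv : ∀ k, ∑ c, v k c = n - 1)
    (hs : SpreadOut n v) (k : Fin n) :
    ∃ σ : Rows (v k) ≃ {j : Fin n // j ≠ k}, ∀ r, ¬ ((r.2 : ℕ) < v (σ r : Fin n) r.1) := by
  classical
  let t : {j : Fin n // j ≠ k} → Finset (Rows (v k)) :=
    fun j => Finset.univ.filter (fun r => ¬ ((r.2 : ℕ) < v j r.1))
  have hcardR : Fintype.card (Rows (v k)) = n - 1 := by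
    simp [Rows, hv]
  have hcardS : Fintype.card {j : Fin n // j ≠ k} = n - 1 := by
    simp [Fintype.card_subtype_compl]
  have hall : ∀ s : Finset {j : Fin n // j ≠ k}, s.card ≤ (s.biUnion t).card := by
    intro s
    rcases s.eq_empty_or_nonempty with rfl | hsne
    · simp
    -- the minimum over `insert k s`
    let J : Finset (Fin n) := insert k (s.map (Function.Embedding.subtype _))
    have hJne : J.Nonempty := ⟨k, Finset.mem_insert_self _ _⟩
    have hJcard : J.card = s.card + 1 := by
      rw [Finset.card_insert_of_notMem, Finset.card_map]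
      simp
    let m : Fin d → ℕ := fun c => J.inf' hJne (fun j => v j c)
    have hm : ∀ j ∈ J, ∀ c, m c ≤ v j c := fun j hj c => Finset.inf'_le _ hj
    have hsum := hs J hJne m hm
    -- complement of the union
    have hcompl : (s.biUnion t)ᶜ.card ≤ ∑ c, m c := by
      have : (s.biUnion t)ᶜ ⊆ (Finset.univ : Finset (Rows m)).map
          ⟨fun r => (⟨r.1, ⟨r.2, lt_of_lt_of_le r.2.2 (hm k (Finset.mem_insert_self _ _) r.1)⟩⟩ :
            Rows (v k)), by
            rintro ⟨c, i⟩ ⟨c', i'⟩ h
            simp only [Sigma.mk.injEq] at h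
            obtain ⟨rfl, h⟩ := h
            simp only [heq_eq_eq, Fin.mk.injEq] at h
            have : i = i' := Fin.ext h
            subst this
            rfl⟩ := by
        intro r hr
        simp only [Finset.mem_compl, Finset.mem_biUnion, t, Finset.mem_filter, Finset.mem_univ,
          true_and, not_exists, not_and, not_not] at hr
        rw [Finset.mem_map]
        have hlt : (r.2 : ℕ) < m r.1 := by
          simp only [m]
          rw [Finset.lt_inf'_iff]
          intro j hj
          rcases Finset.mem_insert.mp hj with rfl | hj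
          · exact r.2.2
          · rw [Finset.mem_map] at hj
            obtain ⟨j', hj', rfl⟩ := hj
            exact hr j' hj'
        exact ⟨⟨r.1, ⟨r.2, hlt⟩⟩, Finset.mem_univ _, rfl⟩
      refine (Finset.card_le_card this).trans ?_
      rw [Finset.card_map, Finset.card_univ]
      simp [Rows]
    have htot : (s.biUnion t)ᶜ.card + (s.biUnion t).card = n - 1 := by
      rw [Finset.card_compl, hcardR]
      have := Finset.card_le_univ (s.biUnion t)
      rw [hcardR] at this
      omega
    have hscard : s.card ≤ n - 1 := by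
      have := Finset.card_le_univ s
      rwa [hcardS] at this
    rw [hJcard] at hsum
    have hn : 1 ≤ n := by
      have := k.2
      omega
    omega
  obtain ⟨f, hf, hft⟩ := (Finset.all_card_le_biUnion_card_iff_exists_injective t).mp hall
  have hbij : Function.Bijective f := by
    rw [Fintype.bijective_iff_injective_and_card]
    exact ⟨hf, by rw [hcardR, hcardS]⟩
  refine ⟨(Equiv.ofBijective f hbij).symm, fun r => ?_⟩
  have h1 := hft ((Equiv.ofBijective f hbij).symm r)
  have h2 : f ((Equiv.ofBijective f hbij).symm r) = r :=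
    (Equiv.ofBijective f hbij).apply_symm_apply r
  rw [h2] at h1
  simpa [t] using h1

theorem pdet_gen_ne_zero (v : Fin n → Fin d → ℕ) (hv : ∀ k, ∑ c, v k c = n - 1)
    (hs : SpreadOut n v) : pdet (gen n d) v ≠ 0 := by
  classical
  intro h0
  have h1 := congrArg (spec v) h0
  rw [map_zero, map_pdet] at h1
  -- the matrix of the specialised lines is diagonal
  set ξ : Fin d → ℕ → Fin n → Poly n d := fun c i k => spec v (gen n d c i k) with hξ
  have hoff : ∀ k j : Fin n, j ≠ k → line ξ (v k) j = 0 := by
    intro k j hjk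
    unfold line cdet
    refine Finset.sum_eq_zero fun σ _ => ?_
    -- the row matched with the column `k`
    let r := σ.symm ⟨k, fun h => hjk h.symm⟩
    have hr : ((σ r : {j' : Fin n // j' ≠ j}) : Fin n) = k := by
      simp [r]
    refine Finset.prod_eq_zero (Finset.mem_univ r) ?_
    change ξ r.1 r.2 ((σ r : {j' : Fin n // j' ≠ j}) : Fin n) = 0
    rw [hr]
    change spec v (gen n d r.1 r.2 k) = 0
    rw [spec_gen, if_pos r.2.2]
  have hdiag : ∀ k : Fin n, line ξ (v k) k ≠ 0 := by
    intro k
    obtain ⟨σ, hσ⟩ := exists_hall v hv hs k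
    have h := cdet_pattern_ne_zero (R := Rows (v k)) (S := {j : Fin n // j ≠ k})
      (fun r j => ((r.1, (r.2 : ℕ), (j : Fin n)) : Fin d × ℕ × Fin n))
      (by
        rintro ⟨c, i⟩ k ⟨c', i'⟩ k' h
        simp only [Prod.mk.injEq] at h
        obtain ⟨rfl, h1, h2⟩ := h
        refine ⟨?_, Subtype.ext h2⟩
        have : i = i' := Fin.ext h1
        subst this
        rfl)
      (fun r j => (r.2 : ℕ) < v (j : Fin n) r.1) σ hσ
    have h4 : line ξ (v k) k = cdet (fun (r : Rows (v k)) (j : {j : Fin n // j ≠ k}) =>
        if (r.2 : ℕ) < v (j : Fin n) r.1 then (0 : Poly n d)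
        else MvPolynomial.X (r.1, (r.2 : ℕ), (j : Fin n))) := by
      unfold line
      congr 1
      funext r j
      exact spec_gen v r.1 r.2 j
    rw [h4]
    exact h
  have hprod : pdet ξ v = ∏ k, line ξ (v k) k := by
    unfold pdet cdet
    rw [Finset.sum_eq_single (Equiv.refl (Fin n))]
    · rfl
    · intro σ _ hσ
      obtain ⟨k, hk⟩ : ∃ k, σ k ≠ k := by
        by_contra h
        push Not at h
        exact hσ (Equiv.ext h)
      exact Finset.prod_eq_zero (Finset.mem_univ k) (hoff k _ hk)
    · intro h
      exact absurd (Finset.mem_univ _) h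
  rw [hprod] at h1
  obtain ⟨k, _, hk⟩ := Finset.prod_eq_zero_iff.mp h1
  exact hdiag k hk

end flags

/-- **Generic flags.**  For a spread-out family of `n` positions there are flags over a field of
characteristic two with all `Delta ξ m` non-zero and the determinant of the lines non-zero. -/
theorem exists_flags {n d : ℕ} (v : Fin n → Fin d → ℕ) (hv : ∀ k, ∑ c, v k c = n - 1)
    (hs : SpreadOut n v) :
    ∃ (K : Type) (_ : Field K) (_ : CharP K 2) (ξ : Fin d → ℕ → Fin n → K),
      (∀ m : Fin d → ℕ, ∑ c, m c = n → Delta ξ m ≠ 0) ∧ pdet ξ v ≠ 0 := by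
  classical
  have : Fact (Nat.Prime 2) := ⟨Nat.prime_two⟩
  let K := FractionRing (Poly n d)
  have hinj : Function.Injective (algebraMap (Poly n d) K) := IsFractionRing.injective _ _
  have hcp : CharP K 2 := by
    have : CharP (Poly n d) 2 := inferInstance
    exact charP_of_injective_algebraMap hinj 2
  refine ⟨K, inferInstance, hcp, fun c i k => algebraMap (Poly n d) K (gen n d c i k), ?_, ?_⟩
  · intro m hm
    rw [← map_Delta (algebraMap (Poly n d) K) (gen n d) m]
    exact fun h => Delta_gen_ne_zero m hm (hinj (by rw [h, map_zero]))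
  · rw [← map_pdet (algebraMap (Poly n d) K) (gen n d) v]
    exact fun h => pdet_gen_ne_zero v hv hs (hinj (by rw [h, map_zero]))

end Helper13.TS
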