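import Pool.Agent.Helper13.TS.Generic

/-!
# The matching for three colours (thread TH-S, MP_eb8c5c_co)

For a spread-out family of `n` positions in `E_{n,3}` there is an injective map `w ↦ w + e_(c w)`
from the down-triangles `|w| = n - 2` to the positions, avoiding the given family.
-/

set_option autoImplicit false

namespace Helper13.TS

open Finset

section laplace

variable {A : Type*} [CommRing A] {R S : Type*} [Fintype R] [Fintype S] [DecidableEq R]
  [DecidableEq S]

/-- Laplace expansion along the row `none`. -/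
theorem cdet_option (a : Option R → S → A) :
    cdet a = ∑ k, a none k * cdet (fun (r : R) (s : {s : S // s ≠ k}) => a (some r) s) := by
  classical
  unfold cdet
  rw [← Fintype.sum_fiberwise (fun σ : Option R ≃ S => σ none)]
  refine Finset.sum_congr rfl fun k _ => ?_
  rw [Finset.mul_sum]
  refine Fintype.sum_equiv (Equiv.optionSubtype k) _ _ ?_
  rintro ⟨σ, hσ⟩
  rw [Fintype.prod_option]
  simp only
  rw [hσ]
  congr 1

theorem cdet_reindex {R' : Type*} [Fintype R'] [DecidableEq R'] (a : R → S → A) (e : R' ≃ R) :
    cdet (fun r' s => a (e r') s) = cdet a := by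
  unfold cdet
  refine Fintype.sum_equiv (Equiv.equivCongr e (Equiv.refl S)) _ _ ?_
  intro σ
  refine Fintype.prod_equiv e _ _ ?_
  intro r
  simp [Equiv.equivCongr]

theorem cdet_eq_zero_of_row_eq [CharP A 2] (a : R → S → A) (e : R ≃ S) {r r' : R} (hne : r ≠ r')
    (h : a r = a r') : cdet a = 0 := by
  rw [cdet_eq_det a e]
  refine Matrix.det_zero_of_row_eq hne ?_
  funext k
  simp only [Matrix.of_apply]
  rw [h]

end laplace

section flags

variable {n d : ℕ} {K : Type*} [Field K] [CharP K 2] (ξ : Fin d → ℕ → Fin n → K)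

/-- the map `Option (Rows v) → Rows (v + e_c)` -/
def addRow (v : Fin d → ℕ) (c : Fin d) : Option (Rows v) → Rows (v + Pi.single c 1)
  | none => ⟨c, ⟨v c, by simp⟩⟩
  | some r => ⟨r.1, ⟨r.2, lt_of_lt_of_le r.2.2 (by simp)⟩⟩

theorem addRow_bij (v : Fin d → ℕ) (c : Fin d) : Function.Bijective (addRow v c) := by
  classical
  rw [Fintype.bijective_iff_injective_and_card]
  constructor
  · rintro (_ | ⟨c₁, i₁⟩) (_ | ⟨c₂, i₂⟩) h
    · rfl
    · simp only [addRow, Sigma.mk.injEq] at h
      obtain ⟨rfl, h⟩ := h
      simp only [heq_eq_eq, Fin.mk.injEq] at h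
      exact absurd h (ne_of_gt i₂.2)
    · simp only [addRow, Sigma.mk.injEq] at h
      obtain ⟨rfl, h⟩ := h
      simp only [heq_eq_eq, Fin.mk.injEq] at h
      exact absurd h (ne_of_lt i₁.2)
    · simp only [addRow, Sigma.mk.injEq] at h
      obtain ⟨rfl, h⟩ := h
      simp only [heq_eq_eq, Fin.mk.injEq] at h
      have : i₁ = i₂ := Fin.ext h
      subst this
      rfl
  · rw [Fintype.card_option]
    simp [Rows, Finset.sum_add_distrib]

theorem sum_mul_line (v : Fin d → ℕ) (c : Fin d) :
    ∑ k, ξ c (v c) k * line ξ v k = Delta ξ (v + Pi.single c 1) := by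
  classical
  unfold Delta
  rw [← cdet_reindex _ (Equiv.ofBijective _ (addRow_bij v c)), cdet_option]
  rfl

theorem sum_mul_line_zero (v : Fin d → ℕ) (hv : ∑ c, v c + 1 = n) (c : Fin d) (i : ℕ)
    (hi : i < v c) : ∑ k, ξ c i k * line ξ v k = 0 := by
  classical
  have hcard : Fintype.card (Option (Rows v)) = Fintype.card (Fin n) := by
    rw [Fintype.card_option]
    simp [Rows, hv]
  let a : Option (Rows v) → Fin n → K := fun r => Option.elim r (ξ c i) (fun r => ξ r.1 r.2)
  have h := cdet_eq_zero_of_row_eq a (Fintype.equivOfCardEq hcard)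
    (r := none) (r' := some ⟨c, ⟨i, hi⟩⟩) (by simp) rfl
  rw [cdet_option] at h
  exact h

theorem eq_zero_of_rows (m : Fin d → ℕ) (hm : ∑ c, m c = n) (hD : Delta ξ m ≠ 0) (x : Fin n → K)
    (hx : ∀ c i, i < m c → ∑ k, ξ c i k * x k = 0) : x = 0 := by
  classical
  have hcard : Fintype.card (Rows m) = Fintype.card (Fin n) := by
    simp [Rows, hm]
  let e : Rows m ≃ Fin n := Fintype.equivOfCardEq hcard
  unfold Delta at hD
  rw [cdet_eq_det _ e] at hD
  have h := Matrix.eq_zero_of_mulVec_eq_zero hD (v := fun r => x (e r)) (by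
    funext r
    simp only [Matrix.mulVec, dotProduct, Matrix.of_apply, Pi.zero_apply]
    rw [← hx r.1 r.2 r.2.2]
    exact Equiv.sum_comp e (fun k => ξ r.1 r.2 k * x k))
  funext k
  have := congrFun h (e.symm k)
  simpa using this

theorem lines_indep (v : Fin n → Fin d → ℕ) (hp : pdet ξ v ≠ 0) (z : Fin n → K)
    (hz : ∀ k, ∑ j, z j * line ξ (v j) k = 0) : z = 0 := by
  classical
  unfold pdet at hp
  rw [cdet_eq_det _ (Equiv.refl (Fin n))] at hp
  refine Matrix.eq_zero_of_vecMul_eq_zero hp ?_
  funext k
  simp only [Matrix.vecMul, dotProduct, Matrix.of_apply, Pi.zero_apply, Equiv.refl_apply]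
  exact hz k

end flags

theorem SpreadOut.injective {n d : ℕ} {v : Fin n → Fin d → ℕ} (hs : SpreadOut n v)
    (hv : ∀ k, ∑ c, v k c = n - 1) : Function.Injective v := by
  classical
  intro i j hij
  by_contra hne
  have h := hs {i, j} ⟨i, by simp⟩ (v i) (by
    intro k hk c
    simp only [Finset.mem_insert, Finset.mem_singleton] at hk
    rcases hk with rfl | rfl
    · exact le_rfl
    · rw [hij])
  rw [hv i, Finset.card_pair hne] at h
  have := i.2
  have := j.2
  have hij' : (i : ℕ) ≠ j := fun h => hne (Fin.ext h)
  omega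

section three

variable {n : ℕ} {K : Type*} [Field K] [CharP K 2] (ξ : Fin 3 → ℕ → Fin n → K)

/-- the coefficient of `l_(w + e_c)` in the relation `r_w` -/
def rc (w : Fin 3 → ℕ) (c : Fin 3) : K :=
  Delta ξ (w + Pi.single (c + 1) 1 + Pi.single (c + 2) 1)

theorem relation (w : Fin 3 → ℕ) (hw : ∑ c, w c + 2 = n)
    (hD : ∀ m : Fin 3 → ℕ, ∑ c, m c = n → Delta ξ m ≠ 0) (k : Fin n) :
    ∑ c, rc ξ w c * line ξ (w + Pi.single c 1) k = 0 := by
  classical
  have hsum1 : ∀ c : Fin 3, ∑ c', (w + Pi.single c 1 : Fin 3 → ℕ) c' + 1 = n := by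
    intro c
    simp only [Pi.add_apply, Finset.sum_add_distrib, Finset.sum_pi_single', Finset.mem_univ,
      if_true]
    omega
  have key := eq_zero_of_rows ξ (w + Pi.single 1 1 + Pi.single 2 1) (by
      simp only [Pi.add_apply, Finset.sum_add_distrib, Finset.sum_pi_single', Finset.mem_univ,
        if_true]
      omega) (hD _ (by
      simp only [Pi.add_apply, Finset.sum_add_distrib, Finset.sum_pi_single', Finset.mem_univ,
        if_true]
      omega)) (fun k => ∑ c, rc ξ w c * line ξ (w + Pi.single c 1) k) ?_
  · exact congrFun key k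
  intro c i hi
  have hswap : ∑ k, ξ c i k * ∑ c', rc ξ w c' * line ξ (w + Pi.single c' 1) k
      = ∑ c', rc ξ w c' * ∑ k, ξ c i k * line ξ (w + Pi.single c' 1) k := by
    simp only [Finset.mul_sum]
    rw [Finset.sum_comm]
    refine Finset.sum_congr rfl fun c' _ => Finset.sum_congr rfl fun k _ => ?_
    ring
  rw [hswap]
  by_cases hiw : i < w c
  · refine Finset.sum_eq_zero fun c' _ => ?_
    rw [sum_mul_line_zero ξ _ (hsum1 c') c i (lt_of_lt_of_le hiw (by simp)), mul_zero]
  · have hc0 : c ≠ 0 := by
      rintro rfl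
      simp at hi
      exact hiw hi
    have hiw' : i = w c := by
      fin_cases c
      · exact absurd rfl hc0
      · simp at hi hiw ⊢
        omega
      · simp at hi hiw ⊢
        omega
    subst hiw'
    have h1 : ∀ c', c' ≠ c → ∑ k, ξ c (w c) k * line ξ (w + Pi.single c' 1) k
        = Delta ξ (w + Pi.single c' 1 + Pi.single c 1) := by
      intro c' hc'
      have := sum_mul_line ξ (w + Pi.single c' 1) c
      rw [← this]
      have e : (w + Pi.single c' 1 : Fin 3 → ℕ) c = w c := by
        simp [Ne.symm hc']
      rw [e]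
    have h2 : ∑ k, ξ c (w c) k * line ξ (w + Pi.single c 1) k = 0 :=
      sum_mul_line_zero ξ _ (hsum1 c) c (w c) (by simp)
    have h22 : ∀ x : K, x + x = 0 := CharTwo.add_self_eq_zero
    fin_cases c
    · exact absurd rfl hc0
    · rw [Fin.sum_univ_three]
      simp only [Fin.mk_one, Fin.isValue] at h1 h2 ⊢
      rw [h1 0 (by decide), h2, h1 2 (by decide)]
      simp only [rc, Fin.isValue, mul_zero, add_zero]
      have e1 : ((0 : Fin 3) + 1) = 1 := rfl
      have e2 : ((0 : Fin 3) + 2) = 2 := rfl
      have e3 : ((2 : Fin 3) + 1) = 0 := rfl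
      have e4 : ((2 : Fin 3) + 2) = 1 := rfl
      rw [e1, e2, e3, e4, add_right_comm w (Pi.single 2 1) (Pi.single 1 1), mul_comm]
      exact h22 _
    · rw [Fin.sum_univ_three]
      simp only [Fin.reduceFinMk, Fin.isValue] at h1 h2 ⊢
      rw [h1 0 (by decide), h2, h1 1 (by decide)]
      simp only [rc, Fin.isValue, mul_zero, add_zero]
      have e1 : ((0 : Fin 3) + 1) = 1 := rfl
      have e2 : ((0 : Fin 3) + 2) = 2 := rfl
      have e3 : ((1 : Fin 3) + 1) = 2 := rfl
      have e4 : ((1 : Fin 3) + 2) = 0 := rfl
      rw [e1, e2, e3, e4, add_right_comm w (Pi.single 2 1) (Pi.single 0 1), mul_comm]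
      exact h22 _

/-- **The matching of the down-triangles.** -/
theorem match3 (v : Fin n → Fin 3 → ℕ) (hv : ∀ k, ∑ c, v k c = n - 1) (hs : SpreadOut n v) :
    ∃ c : (Fin 3 → ℕ) → Fin 3,
      (∀ w : Fin 3 → ℕ, ∑ a, w a + 2 = n → ∀ k, v k ≠ w + Pi.single (c w) 1) ∧
      ∀ w w' : Fin 3 → ℕ, ∑ a, w a + 2 = n → ∑ a, w' a + 2 = n →
        w + Pi.single (c w) 1 = w' + Pi.single (c w') 1 → w = w' := by
  classical
  obtain ⟨K, _, _, ξ, hD, hp⟩ := exists_flags v hv hs
  have hinj := hs.injective hv
  rcases Nat.lt_or_ge n 2 with hn | hn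
  · exact ⟨fun _ => 0, fun w hw => by omega, fun w w' hw => by omega⟩
  let W : Finset (Fin 3 → ℕ) := Finset.piAntidiag Finset.univ (n - 2)
  have hW : ∀ w : Fin 3 → ℕ, w ∈ W ↔ ∑ a, w a = n - 2 := by
    intro w
    simp [W]
  let PP : Finset (Fin 3 → ℕ) := Finset.piAntidiag Finset.univ (n - 1)
  have hPP : ∀ w : Fin 3 → ℕ, w ∈ PP ↔ ∑ a, w a = n - 1 := by
    intro w
    simp [PP]
  have hadd : ∀ (w : Fin 3 → ℕ) (c : Fin 3), ∑ a, (w + Pi.single c 1 : Fin 3 → ℕ) a = ∑ a, w a + 1 := by
    intro w c
    simp only [Pi.add_apply, Finset.sum_add_distrib, Finset.sum_pi_single', Finset.mem_univ,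
      if_true]
  let t : W → Finset (Fin 3 → ℕ) := fun w =>
    (Finset.univ.image (fun c : Fin 3 => w.1 + Pi.single c 1)).filter (fun p => ∀ k, v k ≠ p)
  let coef : (Fin 3 → ℕ) → (Fin 3 → ℕ) → K := fun w p =>
    ∑ c, if p = w + Pi.single c 1 then rc ξ w c else 0
  have hall : ∀ s : Finset W, s.card ≤ (s.biUnion t).card := by
    intro s
    let vec : s → (↥(s.biUnion t) → K) := fun w p => coef w.1.1 p.1
    have hli : LinearIndependent K vec := by
      rw [Fintype.linearIndependent_iff]
      intro g hg
      let z : (Fin 3 → ℕ) → K := fun p => ∑ w : s, g w * coef w.1.1 p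
      have hz1 : ∀ p, (∀ k, v k ≠ p) → z p = 0 := by
        intro p hp'
        by_cases hmem : p ∈ s.biUnion t
        · have := congrFun hg ⟨p, hmem⟩
          simpa [vec, z, Finset.sum_apply, smul_eq_mul] using this
        · refine Finset.sum_eq_zero fun w _ => ?_
          have : coef w.1.1 p = 0 := by
            refine Finset.sum_eq_zero fun c _ => ?_
            rw [if_neg]
            intro hpe
            apply hmem
            rw [Finset.mem_biUnion]
            refine ⟨w.1, w.2, ?_⟩
            simp only [t, Finset.mem_filter, Finset.mem_image, Finset.mem_univ, true_and]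
            exact ⟨⟨c, hpe.symm⟩, hp'⟩
          rw [this, mul_zero]
      have hz2 : ∀ k, ∑ j, z (v j) * line ξ (v j) k = 0 := by
        intro k
        have h1 : ∑ p ∈ PP, z p * line ξ p k = 0 := by
          have h2 : ∑ p ∈ PP, z p * line ξ p k
              = ∑ w : s, g w * ∑ c, rc ξ w.1.1 c * line ξ (w.1.1 + Pi.single c 1) k := by
            simp only [z, Finset.sum_mul]
            rw [Finset.sum_comm]
            refine Finset.sum_congr rfl fun w _ => ?_
            have h3 : ∀ p, g w * coef w.1.1 p * line ξ p k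
                = ∑ c, (if p = w.1.1 + Pi.single c 1 then g w * (rc ξ w.1.1 c * line ξ p k)
                  else 0) := by
              intro p
              simp only [coef, Finset.mul_sum, Finset.sum_mul]
              refine Finset.sum_congr rfl fun c _ => ?_
              split_ifs
              · ring
              · ring
            simp only [h3]
            rw [Finset.sum_comm, Finset.mul_sum]
            refine Finset.sum_congr rfl fun c _ => ?_
            rw [Finset.sum_ite_eq' PP (w.1.1 + Pi.single c 1)
              (fun p => g w * (rc ξ w.1.1 c * line ξ p k)), if_pos]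
            rw [hPP, hadd, (hW _).1 w.1.2]
            omega
          rw [h2]
          refine Finset.sum_eq_zero fun w _ => ?_
          rw [relation ξ w.1.1 (by rw [(hW _).1 w.1.2]; omega) hD k, mul_zero]
        rw [← h1]
        have h4 : ∑ j, z (v j) * line ξ (v j) k
            = ∑ p ∈ Finset.univ.image v, z p * line ξ p k := by
          rw [Finset.sum_image (fun a _ b _ hab => hinj hab)]
        rw [h4]
        refine Finset.sum_subset ?_ ?_
        · intro p hp'
          rw [Finset.mem_image] at hp'
          obtain ⟨j, _, rfl⟩ := hp'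
          rw [hPP, hv]
        · intro p _ hp'
          rw [hz1 p, zero_mul]
          intro j hj
          exact hp' (Finset.mem_image.2 ⟨j, Finset.mem_univ _, hj⟩)
      have hz3 := lines_indep ξ v hp (fun j => z (v j)) hz2
      have hz : ∀ p, z p = 0 := by
        intro p
        by_cases h : ∃ k, v k = p
        · obtain ⟨k, rfl⟩ := h
          exact congrFun hz3 k
        · push Not at h
          exact hz1 p h
      -- triangularity
      by_contra hne
      push Not at hne
      obtain ⟨w₁, hw₁⟩ := hne
      obtain ⟨w, hw, hmax⟩ := Finset.exists_max_image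
        (Finset.univ.filter (fun w : s => g w ≠ 0)) (fun w => w.1.1 0)
        ⟨w₁, by simpa using hw₁⟩
      rw [Finset.mem_filter] at hw
      have h5 := hz (w.1.1 + Pi.single 0 1)
      have h6 : z (w.1.1 + Pi.single 0 1) = g w * rc ξ w.1.1 0 := by
        simp only [z]
        rw [Finset.sum_eq_single w]
        · congr 1
          simp only [coef]
          rw [Finset.sum_eq_single 0]
          · rw [if_pos rfl]
          · intro c _ hc
            rw [if_neg]
            intro he
            have := congrFun he 0
            simp [Ne.symm hc] at this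
          · intro h
            exact absurd (Finset.mem_univ _) h
        · intro w' _ hw'
          by_cases hg' : g w' = 0
          · rw [hg', zero_mul]
          · have : coef w'.1.1 (w.1.1 + Pi.single 0 1) = 0 := by
              refine Finset.sum_eq_zero fun c _ => ?_
              rw [if_neg]
              intro he
              by_cases hc : c = 0
              · subst hc
                apply hw'
                have : w.1.1 = w'.1.1 := add_right_cancel he
                exact Subtype.ext (Subtype.ext this.symm)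
              · have h7 := hmax w' (Finset.mem_filter.2 ⟨Finset.mem_univ _, hg'⟩)
                have h8 := congrFun he 0
                simp [Ne.symm hc] at h8
                omega
            rw [this, mul_zero]
        · intro h
          exact absurd (Finset.mem_univ _) h
      rw [h6] at h5
      rcases mul_eq_zero.1 h5 with h | h
      · exact hw.2 h
      · refine hD _ ?_ h
        rw [hadd, hadd, (hW _).1 w.1.2]
        omega
    have := hli.fintype_card_le_finrank
    simpa using this
  obtain ⟨f, hf, hft⟩ := (Finset.all_card_le_biUnion_card_iff_exists_injective t).mp hall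
  have hfc : ∀ w : W, ∃ c : Fin 3, f w = w.1 + Pi.single c 1 := by
    intro w
    have := hft w
    simp only [t, Finset.mem_filter, Finset.mem_image, Finset.mem_univ, true_and] at this
    obtain ⟨⟨c, hc⟩, _⟩ := this
    exact ⟨c, hc.symm⟩
  choose c hc using hfc
  refine ⟨fun w => if h : w ∈ W then c ⟨w, h⟩ else 0, ?_, ?_⟩
  · intro w hw k
    have hwW : w ∈ W := (hW w).2 (by omega)
    simp only [dif_pos hwW]
    rw [← hc ⟨w, hwW⟩]
    have := hft ⟨w, hwW⟩
    simp only [t, Finset.mem_filter] at this
    exact this.2 k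
  · intro w w' hw hw' he
    have hwW : w ∈ W := (hW w).2 (by omega)
    have hwW' : w' ∈ W := (hW w').2 (by omega)
    simp only [dif_pos hwW, dif_pos hwW'] at he
    rw [← hc ⟨w, hwW⟩, ← hc ⟨w', hwW'⟩] at he
    exact congrArg Subtype.val (hf he)

end three

end Helper13.TS
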