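import Pool.Agent.Helper13.TS.Strand

/-!
# Potentials on the triangular lattice (thread TH-S, MP_eb8c5c_co)
-/

set_option autoImplicit false

namespace Helper13.TS

open Finset

theorem third {x y z : Fin 3} (hxy : x ≠ y) (hxz : x ≠ z) (hyz : y ≠ z) : -(x + y) = z := by
  revert x y z
  decide

theorem eq_of_three {x y z k : Fin 3} (hxy : x ≠ y) (hxz : x ≠ z) (hyz : y ≠ z) :
    k = x ∨ k = y ∨ k = z := by
  revert x y z k
  decide

/-- the up-triangle with coordinates `s, t` -/
def pp (n s t : ℕ) : Fin 3 → ℕ := ![n - 1 - s - t, s, t]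

theorem eq_pp {n : ℕ} (p : Fin 3 → ℕ) (hp : ∑ a, p a + 1 = n) : pp n (p 1) (p 2) = p := by
  rw [Fin.sum_univ_three] at hp
  funext k
  fin_cases k
  · simp [pp]
    omega
  · rfl
  · rfl

theorem exists_potential {G : Type*} [CommRing G] (n : ℕ)
    (I : (Fin 3 → ℕ) → Fin 3 → Fin 3 → G) (g₀ : G)
    (anti : ∀ p x y, I p y x = - I p x y)
    (hup : ∀ p : Fin 3 → ℕ, ∑ a, p a + 1 = n → I p 0 1 + I p 1 2 + I p 2 0 = 0)
    (hdn : ∀ w : Fin 3 → ℕ, ∑ a, w a + 2 = n →
      I (w + Pi.single 0 1) 1 2 + I (w + Pi.single 2 1) 0 1 + I (w + Pi.single 1 1) 2 0 = 0) :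
    ∃ X : (Fin 3 → ℕ) → G, X (Pi.single 0 n) = g₀ ∧
      ∀ p : Fin 3 → ℕ, ∑ a, p a + 1 = n → ∀ x y, x ≠ y →
        X (p + Pi.single y 1) = X (p + Pi.single x 1) + I p x y := by
  classical
  let Y : ℕ → ℕ → G := fun s t => g₀ + ∑ s' ∈ Finset.range s, I (pp n s' 0) 0 1
    + ∑ t' ∈ Finset.range t, I (pp n s t') 0 2
  have hB : ∀ s t, Y s (t + 1) = Y s t + I (pp n s t) 0 2 := by
    intro s t
    simp only [Y, Finset.sum_range_succ]
    ring
  have hC : ∀ t s, s + t + 1 ≤ n → Y (s + 1) t = Y s t + I (pp n s t) 0 1 := by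
    intro t
    induction t with
    | zero =>
      intro s _
      simp only [Y, Finset.sum_range_succ, Finset.range_zero, Finset.sum_empty]
      ring
    | succ t ih =>
      intro s hs
      have h1 := ih s (by omega)
      have h2 := hB (s + 1) t
      have h3 := hB s t
      let w : Fin 3 → ℕ := ![n - 2 - s - t, s, t]
      have hw : ∑ a, w a + 2 = n := by
        rw [Fin.sum_univ_three]
        simp [w]
        omega
      have e0 : w + Pi.single 0 1 = pp n s t := by
        funext k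
        fin_cases k
        · simp [w, pp]
          omega
        · simp [w, pp]
        · simp [w, pp]
      have e1 : w + Pi.single 1 1 = pp n (s + 1) t := by
        funext k
        fin_cases k
        · simp [w, pp]
          omega
        · simp [w, pp]
        · simp [w, pp]
      have e2 : w + Pi.single 2 1 = pp n s (t + 1) := by
        funext k
        fin_cases k
        · simp [w, pp]
          omega
        · simp [w, pp]
        · simp [w, pp]
      have h4 := hdn w hw
      have h5 := hup (pp n s t) (by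
        rw [← e0, sum_add_single]
        omega)
      rw [e0, e1, e2] at h4
      have h6 := anti (pp n s t) 0 2
      have h7 := anti (pp n (s + 1) t) 0 2
      rw [h2, h1, h3]
      rw [h7] at h4
      rw [h6] at h5
      linear_combination h5 - h4
  refine ⟨fun m => Y (m 1) (m 2), ?_, ?_⟩
  · simp [Y]
  · intro p hp
    have hp' := hp
    rw [Fin.sum_univ_three] at hp'
    have hX0 : Y ((p + Pi.single 0 1 : Fin 3 → ℕ) 1) ((p + Pi.single 0 1 : Fin 3 → ℕ) 2)
        = Y (p 1) (p 2) := by simp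
    have hX1 : Y ((p + Pi.single 1 1 : Fin 3 → ℕ) 1) ((p + Pi.single 1 1 : Fin 3 → ℕ) 2)
        = Y (p 1) (p 2) + I p 0 1 := by
      have e1 : (p + Pi.single 1 1 : Fin 3 → ℕ) 1 = p 1 + 1 := by simp
      have e2 : (p + Pi.single 1 1 : Fin 3 → ℕ) 2 = p 2 := by simp
      rw [e1, e2, hC (p 2) (p 1) (by omega), eq_pp p hp]
    have hX2 : Y ((p + Pi.single 2 1 : Fin 3 → ℕ) 1) ((p + Pi.single 2 1 : Fin 3 → ℕ) 2)
        = Y (p 1) (p 2) + I p 0 2 := by
      have e1 : (p + Pi.single 2 1 : Fin 3 → ℕ) 1 = p 1 := by simp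
      have e2 : (p + Pi.single 2 1 : Fin 3 → ℕ) 2 = p 2 + 1 := by simp
      rw [e1, e2, hB, eq_pp p hp]
    have h5 := hup p hp
    have a1 := anti p 0 1
    have a2 := anti p 1 2
    have a3 := anti p 2 0
    intro x y hxy
    fin_cases x <;> fin_cases y
    · exact absurd rfl hxy
    · simp only [Fin.zero_eta, Fin.isValue, Fin.mk_one]
      rw [hX0, hX1]
    · simp only [Fin.zero_eta, Fin.isValue, Fin.reduceFinMk]
      rw [hX0, hX2]
    · simp only [Fin.zero_eta, Fin.isValue, Fin.mk_one]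
      rw [hX0, hX1, a1]
      ring
    · exact absurd rfl hxy
    · simp only [Fin.mk_one, Fin.isValue, Fin.reduceFinMk]
      rw [hX1, hX2, a3]
      linear_combination -h5
    · simp only [Fin.zero_eta, Fin.isValue, Fin.reduceFinMk]
      rw [hX0, hX2, a3]
      ring
    · simp only [Fin.mk_one, Fin.isValue, Fin.reduceFinMk]
      rw [hX1, hX2, a2, a3]
      linear_combination h5
    · exact absurd rfl hxy

variable {n : ℕ} [NeZero n] {v : Fin n → Fin 3 → ℕ} {c : (Fin 3 → ℕ) → Fin 3}

open Classical in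
/-- The increment of the potential of the label `i` along the edge `p + e_x → p + e_y`. -/
noncomputable def Inc (v : Fin n → Fin 3 → ℕ) (c : (Fin 3 → ℕ) → Fin 3) (i : Fin n)
    (p : Fin 3 → ℕ) (x y : Fin 3) : Fin 3 → ℤ :=
  if x = y then 0
  else if Internal n c (-(x + y)) p then
    (if lab v c y p = i then Pi.single (-(x + y)) 1 - Pi.single x 1 else 0)
      + (if lab v c x p = i then Pi.single y 1 - Pi.single (-(x + y)) 1 else 0)
  else if lab v c (-(x + y)) p = i then Pi.single y 1 - Pi.single x 1 else 0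

theorem Inc_int {i : Fin n} {p : Fin 3 → ℕ} {x y z : Fin 3} (hxy : x ≠ y) (hxz : x ≠ z)
    (hyz : y ≠ z) (h : Internal n c z p) : Inc v c i p x y =
      (if lab v c y p = i then Pi.single z 1 - Pi.single x 1 else 0)
      + (if lab v c x p = i then Pi.single y 1 - Pi.single z 1 else 0) := by
  classical
  unfold Inc
  rw [if_neg hxy, third hxy hxz hyz, if_pos h]

theorem Inc_ext {i : Fin n} {p : Fin 3 → ℕ} {x y z : Fin 3} (hxy : x ≠ y) (hxz : x ≠ z)
    (hyz : y ≠ z) (h : ¬ Internal n c z p) : Inc v c i p x y =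
      if lab v c z p = i then Pi.single y 1 - Pi.single x 1 else 0 := by
  classical
  unfold Inc
  rw [if_neg hxy, third hxy hxz hyz, if_neg h]

theorem exists_third {x y : Fin 3} (hxy : x ≠ y) : ∃ z, x ≠ z ∧ y ≠ z := by
  revert x y
  decide

theorem Inc_anti (i : Fin n) (p : Fin 3 → ℕ) (x y : Fin 3) :
    Inc v c i p y x = - Inc v c i p x y := by
  classical
  by_cases hxy : x = y
  · subst hxy
    simp [Inc]
  · obtain ⟨z, hxz, hyz⟩ := exists_third hxy
    by_cases h : Internal n c z p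
    · rw [Inc_int hxy hxz hyz h, Inc_int (Ne.symm hxy) hyz hxz h]
      split_ifs <;> abel
    · rw [Inc_ext hxy hxz hyz h, Inc_ext (Ne.symm hxy) hyz hxz h]
      split_ifs <;> abel

theorem Tiling.Inc_up (hT : Tiling n v c) (i : Fin n) (p : Fin 3 → ℕ) (hp : ∑ a, p a + 1 = n) :
    Inc v c i p 0 1 + Inc v c i p 1 2 + Inc v c i p 2 0 = 0 := by
  classical
  have h01 : (0 : Fin 3) ≠ 1 := by decide
  have h02 : (0 : Fin 3) ≠ 2 := by decide
  have h12 : (1 : Fin 3) ≠ 2 := by decide
  by_cases i0 : Internal n c 0 p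
  · have i1 : ¬ Internal n c 1 p := fun h => h01 (hT.internal_unique i0 h)
    have i2 : ¬ Internal n c 2 p := fun h => h02 (hT.internal_unique i0 h)
    rw [Inc_ext h01 h02 h12 i2, Inc_int h12 h01.symm h02.symm i0,
      Inc_ext h02.symm h12.symm h01 i1]
    split_ifs <;> abel
  by_cases i1 : Internal n c 1 p
  · have i2 : ¬ Internal n c 2 p := fun h => h12 (hT.internal_unique i1 h)
    rw [Inc_ext h01 h02 h12 i2, Inc_ext h12 h01.symm h02.symm i0,
      Inc_int h02.symm h12.symm h01 i1]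
    split_ifs <;> abel
  by_cases i2 : Internal n c 2 p
  · rw [Inc_int h01 h02 h12 i2, Inc_ext h12 h01.symm h02.symm i0,
      Inc_ext h02.symm h12.symm h01 i1]
    split_ifs <;> abel
  rcases hT.cover p hp with ⟨k, rfl⟩ | ⟨w, hw, hpw⟩
  · rw [Inc_ext h01 h02 h12 i2, Inc_ext h12 h01.symm h02.symm i0,
      Inc_ext h02.symm h12.symm h01 i1, hT.lab_hole, hT.lab_hole, hT.lab_hole]
    split_ifs <;> abel
  · exfalso
    have : Internal n c (c w) p := ⟨w, hw, rfl, hpw⟩
    rcases eq_of_three (k := c w) h01 h02 h12 with h | h | h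
    · exact i0 (h ▸ this)
    · exact i1 (h ▸ this)
    · exact i2 (h ▸ this)

theorem Tiling.Inc_dn (hT : Tiling n v c) (i : Fin n) (w : Fin 3 → ℕ) (hw : ∑ a, w a + 2 = n) :
    Inc v c i (w + Pi.single 0 1) 1 2 + Inc v c i (w + Pi.single 2 1) 0 1
      + Inc v c i (w + Pi.single 1 1) 2 0 = 0 := by
  classical
  have h01 : (0 : Fin 3) ≠ 1 := by decide
  have h02 : (0 : Fin 3) ≠ 2 := by decide
  have h12 : (1 : Fin 3) ≠ 2 := by decide
  rcases eq_of_three (k := c w) h01 h02 h12 with h | h | h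
  · have i0 : Internal n c 0 (w + Pi.single 0 1) := ⟨w, hw, h, rfl⟩
    have i1 : ¬ Internal n c 1 (w + Pi.single 1 1) :=
      Tiling.not_internal_step w (by rw [h]; exact h01)
    have i2 : ¬ Internal n c 2 (w + Pi.single 2 1) :=
      Tiling.not_internal_step w (by rw [h]; exact h02)
    have l1 := hT.lab_step w hw (a := 1) (by rw [h]; exact h01)
    have l2 := hT.lab_step w hw (a := 2) (by rw [h]; exact h02)
    rw [h] at l1 l2
    rw [Inc_int h12 h01.symm h02.symm i0, Inc_ext h01 h02 h12 i2,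
      Inc_ext h02.symm h12.symm h01 i1, l1, l2]
    split_ifs <;> abel
  · have i1 : Internal n c 1 (w + Pi.single 1 1) := ⟨w, hw, h, rfl⟩
    have i0 : ¬ Internal n c 0 (w + Pi.single 0 1) :=
      Tiling.not_internal_step w (by rw [h]; exact h01.symm)
    have i2 : ¬ Internal n c 2 (w + Pi.single 2 1) :=
      Tiling.not_internal_step w (by rw [h]; exact h12)
    have l0 := hT.lab_step w hw (a := 0) (by rw [h]; exact h01.symm)
    have l2 := hT.lab_step w hw (a := 2) (by rw [h]; exact h12)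
    rw [h] at l0 l2
    rw [Inc_ext h12 h01.symm h02.symm i0, Inc_ext h01 h02 h12 i2,
      Inc_int h02.symm h12.symm h01 i1, l0, l2]
    split_ifs <;> abel
  · have i2 : Internal n c 2 (w + Pi.single 2 1) := ⟨w, hw, h, rfl⟩
    have i0 : ¬ Internal n c 0 (w + Pi.single 0 1) :=
      Tiling.not_internal_step w (by rw [h]; exact h02.symm)
    have i1 : ¬ Internal n c 1 (w + Pi.single 1 1) :=
      Tiling.not_internal_step w (by rw [h]; exact h12.symm)
    have l0 := hT.lab_step w hw (a := 0) (by rw [h]; exact h02.symm)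
    have l1 := hT.lab_step w hw (a := 1) (by rw [h]; exact h12.symm)
    rw [h] at l0 l1
    rw [Inc_ext h12 h01.symm h02.symm i0, Inc_int h01 h02 h12 i2,
      Inc_ext h02.symm h12.symm h01 i1, l0, l1]
    split_ifs <;> abel

theorem Inc_left (i : Fin n) (p : Fin 3 → ℕ) {x y : Fin 3} (hxy : x ≠ y) :
    Inc v c i p x y x ≤ 0 := by
  classical
  obtain ⟨z, hxz, hyz⟩ := exists_third hxy
  by_cases h : Internal n c z p
  · rw [Inc_int hxy hxz hyz h]
    split_ifs <;> simp [hxz, hxy]
  · rw [Inc_ext hxy hxz hyz h]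
    split_ifs <;> simp [hxy]

theorem Inc_right (i : Fin n) (p : Fin 3 → ℕ) {x y : Fin 3} (hxy : x ≠ y) :
    0 ≤ Inc v c i p x y y := by
  have h := Inc_left (v := v) (c := c) i p (Ne.symm hxy)
  rw [Inc_anti] at h
  simpa using h

theorem Inc_facet (i : Fin n) (p : Fin 3 → ℕ) {x y z : Fin 3} (hxy : x ≠ y) (hxz : x ≠ z)
    (hyz : y ≠ z) (hp : p z = 0) : Inc v c i p x y z = 0 := by
  classical
  have h : ¬ Internal n c z p := by
    rintro ⟨w, _, _, rfl⟩
    simp at hp
  rw [Inc_ext hxy hxz hyz h]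
  split_ifs
  · simp [Ne.symm hxz, Ne.symm hyz]
  · rfl

theorem Inc_sum (i : Fin n) (p : Fin 3 → ℕ) (x y : Fin 3) :
    ∑ k, Inc v c i p x y k = 0 := by
  classical
  by_cases hxy : x = y
  · subst hxy
    simp [Inc]
  · obtain ⟨z, hxz, hyz⟩ := exists_third hxy
    by_cases h : Internal n c z p
    · rw [Inc_int hxy hxz hyz h]
      split_ifs <;> simp [Finset.sum_sub_distrib]
    · rw [Inc_ext hxy hxz hyz h]
      split_ifs <;> simp [Finset.sum_sub_distrib]

theorem Inc_sum_labels (p : Fin 3 → ℕ) {x y : Fin 3} (hxy : x ≠ y) :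
    ∑ i, Inc v c i p x y = Pi.single y 1 - Pi.single x 1 := by
  classical
  obtain ⟨z, hxz, hyz⟩ := exists_third hxy
  by_cases h : Internal n c z p
  · simp only [Inc_int hxy hxz hyz h, Finset.sum_add_distrib, Finset.sum_ite_eq, Finset.mem_univ,
      if_true]
    abel
  · simp only [Inc_ext hxy hxz hyz h, Finset.sum_ite_eq, Finset.mem_univ, if_true]

end Helper13.TS
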