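import Pool.Agent.Helper13.TS.Match
import Pool.Agent.Helper28.SP.Count

/-!
# Strands of a lozenge tiling (thread TH-S, MP_eb8c5c_co)
-/

set_option autoImplicit false

namespace Helper13.TS

open Finset

/-- A lozenge tiling of `n Δ₂` with holes `v`: the down-triangle `w` is glued to `w + e_(c w)`. -/
structure Tiling (n : ℕ) (v : Fin n → Fin 3 → ℕ) (c : (Fin 3 → ℕ) → Fin 3) : Prop where
  sum : ∀ k, ∑ a, v k a + 1 = n
  inj : Function.Injective v
  avoid : ∀ w : Fin 3 → ℕ, ∑ a, w a + 2 = n → ∀ k, v k ≠ w + Pi.single (c w) 1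
  cinj : ∀ w w' : Fin 3 → ℕ, ∑ a, w a + 2 = n → ∑ a, w' a + 2 = n →
    w + Pi.single (c w) 1 = w' + Pi.single (c w') 1 → w = w'

theorem sum_add_single (w : Fin 3 → ℕ) (c : Fin 3) :
    ∑ a, (w + Pi.single c 1 : Fin 3 → ℕ) a = ∑ a, w a + 1 := by
  simp only [Pi.add_apply, Finset.sum_add_distrib, Finset.sum_pi_single', Finset.mem_univ,
    if_true]

variable {n : ℕ} {v : Fin n → Fin 3 → ℕ} {c : (Fin 3 → ℕ) → Fin 3}

/-- Every up-triangle is a hole or glued to a down-triangle. -/
theorem Tiling.cover (hT : Tiling n v c) (p : Fin 3 → ℕ) (hp : ∑ a, p a + 1 = n) :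
    (∃ k, v k = p) ∨ ∃ w : Fin 3 → ℕ, ∑ a, w a + 2 = n ∧ p = w + Pi.single (c w) 1 := by
  classical
  by_contra hcon
  push Not at hcon
  obtain ⟨h1, h2⟩ := hcon
  let PP : Finset (Fin 3 → ℕ) := Finset.piAntidiag Finset.univ (n - 1)
  have hPP : ∀ w : Fin 3 → ℕ, w ∈ PP ↔ ∑ a, w a = n - 1 := by
    intro w
    simp [PP]
  have hcPP : PP.card = (3 : ℕ).multichoose (n - 1) := by
    rw [Pool.Agent.Helper28.SO.card_pa]
    simp
  let V : Finset (Fin 3 → ℕ) := Finset.univ.image v
  have hV : V.card = n := by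
    rw [Finset.card_image_of_injective _ hT.inj]
    simp
  have hVPP : V ⊆ PP := by
    intro q hq
    obtain ⟨k, _, rfl⟩ := Finset.mem_image.1 hq
    rw [hPP]
    have := hT.sum k
    omega
  have hpV : p ∉ V := by
    intro hq
    obtain ⟨k, _, hk⟩ := Finset.mem_image.1 hq
    exact h1 k hk
  have hpPP : p ∈ PP := by
    rw [hPP]
    omega
  rcases Nat.lt_or_ge n 2 with hn | hn
  · have hn1 : n = 1 := by omega
    have : (insert p V).card ≤ PP.card := Finset.card_le_card (by
      intro q hq
      rcases Finset.mem_insert.1 hq with rfl | hq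
      · exact hpPP
      · exact hVPP hq)
    rw [Finset.card_insert_of_notMem hpV, hV, hcPP, hn1] at this
    simp at this
  · let W : Finset (Fin 3 → ℕ) := Finset.piAntidiag Finset.univ (n - 2)
    have hW : ∀ w : Fin 3 → ℕ, w ∈ W ↔ ∑ a, w a = n - 2 := by
      intro w
      simp [W]
    have hcW : W.card = (3 : ℕ).multichoose (n - 2) := by
      rw [Pool.Agent.Helper28.SO.card_pa]
      simp
    let I : Finset (Fin 3 → ℕ) := W.image (fun w => w + Pi.single (c w) 1)
    have hI : I.card = W.card := by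
      refine Finset.card_image_of_injOn ?_
      intro w hw w' hw' he
      have hw := (hW w).1 hw
      have hw' := (hW w').1 hw'
      exact hT.cinj w w' (by omega) (by omega) he
    have hdisj : Disjoint V I := by
      rw [Finset.disjoint_left]
      intro q hq hq'
      obtain ⟨k, _, rfl⟩ := Finset.mem_image.1 hq
      obtain ⟨w, hw, he⟩ := Finset.mem_image.1 hq'
      have hw := (hW w).1 hw
      exact hT.avoid w (by omega) k he.symm
    have hpI : p ∉ I := by
      intro hq
      obtain ⟨w, hw, he⟩ := Finset.mem_image.1 hq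
      have hw := (hW w).1 hw
      exact h2 w (by omega) he.symm
    have : (insert p (V ∪ I)).card ≤ PP.card := Finset.card_le_card (by
      intro q hq
      rcases Finset.mem_insert.1 hq with rfl | hq
      · exact hpPP
      · rcases Finset.mem_union.1 hq with hq | hq
        · exact hVPP hq
        · obtain ⟨w, hw, rfl⟩ := Finset.mem_image.1 hq
          have hw := (hW w).1 hw
          rw [hPP, sum_add_single]
          omega)
    rw [Finset.card_insert_of_notMem (by
      rw [Finset.mem_union]
      rintro (h | h)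
      · exact hpV h
      · exact hpI h), Finset.card_union_of_disjoint hdisj, hV, hI, hcW, hcPP] at this
    obtain ⟨k, rfl⟩ : ∃ k, n = k + 2 := ⟨n - 2, by omega⟩
    have e1 : k + 2 - 1 = k + 1 := by omega
    have e2 : k + 2 - 2 = k := by omega
    have e3 : Nat.multichoose 3 (k + 1) = Nat.multichoose 2 (k + 1) + Nat.multichoose 3 k :=
      Nat.multichoose_succ_succ 2 k
    rw [e1, e2, e3, Nat.multichoose_two] at this
    omega

/-- The edge of type `z` of the up-triangle `p` is interior to a lozenge. -/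
def Internal (n : ℕ) (c : (Fin 3 → ℕ) → Fin 3) (z : Fin 3) (p : Fin 3 → ℕ) : Prop :=
  ∃ w : Fin 3 → ℕ, ∑ a, w a + 2 = n ∧ c w = z ∧ p = w + Pi.single z 1

/-- The strand of type `a` through the up-triangle `p` ends in the hole `j`. -/
inductive Lab (n : ℕ) (v : Fin n → Fin 3 → ℕ) (c : (Fin 3 → ℕ) → Fin 3) (a : Fin 3) (j : Fin n) :
    (Fin 3 → ℕ) → Prop
  | hole (p : Fin 3 → ℕ) (h : p = v j) : Lab n v c a j p
  | step (p : Fin 3 → ℕ) (w : Fin 3 → ℕ) (hw : ∑ x, w x + 2 = n) (hc : c w ≠ a)
      (h : p = w + Pi.single (c w) 1) (hl : Lab n v c a j (w + Pi.single a 1)) : Lab n v c a j p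

theorem Tiling.internal_unique (hT : Tiling n v c) {x y : Fin 3} {p : Fin 3 → ℕ}
    (hx : Internal n c x p) (hy : Internal n c y p) : x = y := by
  obtain ⟨w, hw, rfl, rfl⟩ := hx
  obtain ⟨w', hw', rfl, h⟩ := hy
  have := hT.cinj w w' hw hw' h
  rw [this]

theorem Tiling.hole_not_internal (hT : Tiling n v c) (k : Fin n) (z : Fin 3) :
    ¬ Internal n c z (v k) := by
  rintro ⟨w, hw, rfl, h⟩
  exact hT.avoid w hw k h

theorem Tiling.exists_lab (hT : Tiling n v c) (a : Fin 3) :
    ∀ (k : ℕ) (p : Fin 3 → ℕ), ∑ x, p x + 1 = n → p a + k = n → ¬ Internal n c a p →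
      ∃ j, Lab n v c a j p := by
  intro k
  induction k with
  | zero =>
    intro p hp hk _
    exfalso
    have : p a ≤ ∑ x, p x := Finset.single_le_sum (f := p) (fun _ _ => Nat.zero_le _)
      (Finset.mem_univ a)
    omega
  | succ k ih =>
    intro p hp hk hint
    rcases hT.cover p hp with ⟨j, rfl⟩ | ⟨w, hw, rfl⟩
    · exact ⟨j, Lab.hole _ rfl⟩
    · have hca : c w ≠ a := by
        intro h
        exact hint ⟨w, hw, h, by rw [h]⟩
      obtain ⟨j, hj⟩ := ih (w + Pi.single a 1) (by rw [sum_add_single]; omega) (by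
        have e1 : (w + Pi.single (c w) 1 : Fin 3 → ℕ) a = w a := by
          simp [Ne.symm hca]
        have e2 : (w + Pi.single a 1 : Fin 3 → ℕ) a = w a + 1 := by simp
        rw [e1] at hk
        rw [e2]
        omega) (by
        rintro ⟨w', hw', hc', he⟩
        have : w = w' := add_right_cancel he
        rw [this] at hca
        exact hca hc')
      exact ⟨j, Lab.step _ w hw hca rfl hj⟩

theorem Tiling.lab_unique (hT : Tiling n v c) {a : Fin 3} {j j' : Fin n} {p : Fin 3 → ℕ}
    (h : Lab n v c a j p) (h' : Lab n v c a j' p) : j = j' := by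
  induction h with
  | hole p h =>
    cases h' with
    | hole _ h' => exact hT.inj (h.symm.trans h')
    | step _ w hw hc h' hl => exact absurd (h.symm.trans h') (hT.avoid w hw j)
  | step p w hw hc h hl ih =>
    cases h' with
    | hole _ h' => exact absurd (h'.symm.trans h) (hT.avoid w hw j')
    | step _ w' hw' hc' h' hl' =>
      have : w = w' := hT.cinj w w' hw hw' (h.symm.trans h')
      subst this
      exact ih hl'

theorem Lab.le {a : Fin 3} {j : Fin n} {p : Fin 3 → ℕ} (h : Lab n v c a j p) : p a ≤ v j a := by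
  induction h with
  | hole p h => rw [h]
  | step p w hw hc h hl ih =>
    rw [h]
    have e1 : (w + Pi.single (c w) 1 : Fin 3 → ℕ) a = w a := by
      simp [Ne.symm hc]
    have e2 : (w + Pi.single a 1 : Fin 3 → ℕ) a = w a + 1 := by simp
    rw [e2] at ih
    rw [e1]
    omega

theorem Tiling.lab_inj {a : Fin 3} {j : Fin n} {p q : Fin 3 → ℕ}
    (h : Lab n v c a j p) (h' : Lab n v c a j q) (hpq : p a = q a) : p = q := by
  induction h generalizing q with
  | hole p h =>
    cases h' with
    | hole _ h' => exact h.trans h'.symm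
    | step _ w hw hc h' hl =>
      exfalso
      have h1 := hl.le
      have e1 : (w + Pi.single (c w) 1 : Fin 3 → ℕ) a = w a := by
        simp [Ne.symm hc]
      have e2 : (w + Pi.single a 1 : Fin 3 → ℕ) a = w a + 1 := by simp
      rw [e2] at h1
      rw [h, h', e1] at hpq
      omega
  | step p w hw hc h hl ih =>
    have e1 : (w + Pi.single (c w) 1 : Fin 3 → ℕ) a = w a := by
      simp [Ne.symm hc]
    have e2 : (w + Pi.single a 1 : Fin 3 → ℕ) a = w a + 1 := by simp
    cases h' with
    | hole _ h' =>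
      exfalso
      have h1 := hl.le
      rw [e2] at h1
      rw [h, h', e1] at hpq
      omega
    | step _ w' hw' hc' h' hl' =>
      have e1' : (w' + Pi.single (c w') 1 : Fin 3 → ℕ) a = w' a := by
        simp [Ne.symm hc']
      have e2' : (w' + Pi.single a 1 : Fin 3 → ℕ) a = w' a + 1 := by simp
      rw [h, h', e1, e1'] at hpq
      have h3 := ih hl' (by rw [e2, e2', hpq])
      have h4 : w = w' := add_right_cancel h3
      subst h4
      rw [h, h']

open Classical in
/-- The label of the edge of type `a` of the up-triangle `p`. -/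
noncomputable def lab [NeZero n] (v : Fin n → Fin 3 → ℕ) (c : (Fin 3 → ℕ) → Fin 3) (a : Fin 3)
    (p : Fin 3 → ℕ) : Fin n :=
  if h : ∃ j, Lab n v c a j p then h.choose else 0

theorem Tiling.lab_spec [NeZero n] (hT : Tiling n v c) (a : Fin 3) (p : Fin 3 → ℕ)
    (hp : ∑ x, p x + 1 = n) (hint : ¬ Internal n c a p) : Lab n v c a (lab v c a p) p := by
  have h : ∃ j, Lab n v c a j p := hT.exists_lab a (n - p a) p hp (by
    have : p a ≤ ∑ x, p x := Finset.single_le_sum (f := p) (fun _ _ => Nat.zero_le _)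
      (Finset.mem_univ a)
    omega) hint
  unfold lab
  rw [dif_pos h]
  exact h.choose_spec

theorem Tiling.lab_eq [NeZero n] (hT : Tiling n v c) {a : Fin 3} {p : Fin 3 → ℕ} {j : Fin n}
    (h : Lab n v c a j p) : lab v c a p = j := by
  have h' : ∃ j, Lab n v c a j p := ⟨j, h⟩
  unfold lab
  rw [dif_pos h']
  exact hT.lab_unique h'.choose_spec h

theorem Tiling.lab_hole [NeZero n] (hT : Tiling n v c) (a : Fin 3) (k : Fin n) :
    lab v c a (v k) = k := hT.lab_eq (Lab.hole _ rfl)

theorem Tiling.not_internal_step (w : Fin 3 → ℕ) {a : Fin 3} (hca : c w ≠ a) :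
    ¬ Internal n c a (w + Pi.single a 1) := by
  rintro ⟨w', hw', hc', he⟩
  have : w = w' := add_right_cancel he
  rw [this] at hca
  exact hca hc'

/-- the two parallel sides of a lozenge have the same label -/
theorem Tiling.lab_step [NeZero n] (hT : Tiling n v c) (w : Fin 3 → ℕ) (hw : ∑ x, w x + 2 = n)
    {a : Fin 3} (hca : c w ≠ a) :
    lab v c a (w + Pi.single (c w) 1) = lab v c a (w + Pi.single a 1) := by
  refine hT.lab_eq ?_
  refine Lab.step _ w hw hca rfl ?_
  exact hT.lab_spec a _ (by rw [sum_add_single]; omega) (Tiling.not_internal_step w hca)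

end Helper13.TS
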