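import Pool.Agent.Helper13.TS.Pot

/-!
# Topes of a lozenge tiling (thread TH-S, MP_eb8c5c_co)
-/

set_option autoImplicit false

namespace Helper13.TS

open Finset

variable {n : ℕ} [NeZero n] {v : Fin n → Fin 3 → ℕ} {c : (Fin 3 → ℕ) → Fin 3}

/-- A potential family of a tiling. -/
structure IsPot (n : ℕ) [NeZero n] (v : Fin n → Fin 3 → ℕ) (c : (Fin 3 → ℕ) → Fin 3)
    (X : Fin n → (Fin 3 → ℕ) → Fin 3 → ℤ) : Prop where
  base : ∀ i, X i (Pi.single 0 n) = Pi.single 0 1
  step : ∀ i, ∀ p : Fin 3 → ℕ, ∑ a, p a + 1 = n → ∀ x y, x ≠ y →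
    X i (p + Pi.single y 1) = X i (p + Pi.single x 1) + Inc v c i p x y

theorem Tiling.exists_pot (hT : Tiling n v c) :
    ∃ X : Fin n → (Fin 3 → ℕ) → Fin 3 → ℤ, IsPot n v c X := by
  have h : ∀ i : Fin n, ∃ X : (Fin 3 → ℕ) → (Fin 3 → ℤ), X (Pi.single 0 n) = Pi.single 0 1 ∧
      ∀ p : Fin 3 → ℕ, ∑ a, p a + 1 = n → ∀ x y, x ≠ y →
        X (p + Pi.single y 1) = X (p + Pi.single x 1) + Inc v c i p x y := fun i =>
    exists_potential n (Inc v c i) (Pi.single 0 1) (Inc_anti i) (hT.Inc_up i) (hT.Inc_dn i)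
  choose X hX1 hX2 using h
  exact ⟨X, hX1, hX2⟩

/-- lattice points are connected -/
theorem conn (Q : (Fin 3 → ℕ) → Prop) (h0 : Q (Pi.single 0 n))
    (hs : ∀ p : Fin 3 → ℕ, ∑ a, p a + 1 = n → ∀ y, y ≠ 0 → Q (p + Pi.single 0 1) →
      Q (p + Pi.single y 1)) : ∀ m : Fin 3 → ℕ, ∑ a, m a = n → Q m := by
  have key : ∀ k : ℕ, ∀ m : Fin 3 → ℕ, ∑ a, m a = n → m 1 + m 2 = k → Q m := by
    intro k
    induction k with
    | zero =>
      intro m hm hk
      rw [Fin.sum_univ_three] at hm
      have : m = Pi.single 0 n := by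
        funext a
        fin_cases a
        · simp
          omega
        · simp
          omega
        · simp
          omega
      rw [this]
      exact h0
    | succ k ih =>
      intro m hm hk
      rw [Fin.sum_univ_three] at hm
      by_cases h1 : m 1 = 0
      · let p : Fin 3 → ℕ := ![m 0, m 1, m 2 - 1]
        have hp : ∑ a, p a + 1 = n := by
          rw [Fin.sum_univ_three]
          simp [p]
          omega
        have e : m = p + Pi.single 2 1 := by
          funext a
          fin_cases a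
          · simp [p]
          · simp [p]
          · simp [p]
            omega
        rw [e]
        refine hs p hp 2 (by decide) (ih _ ?_ ?_)
        · rw [sum_add_single]
          exact hp
        · simp [p]
          omega
      · let p : Fin 3 → ℕ := ![m 0, m 1 - 1, m 2]
        have hp : ∑ a, p a + 1 = n := by
          rw [Fin.sum_univ_three]
          simp [p]
          omega
        have e : m = p + Pi.single 1 1 := by
          funext a
          fin_cases a
          · simp [p]
          · simp [p]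
            omega
          · simp [p]
        rw [e]
        refine hs p hp 1 (by decide) (ih _ ?_ ?_)
        · rw [sum_add_single]
          exact hp
        · simp [p]
          omega
  intro m hm
  exact key _ m hm rfl

theorem IsPot.sum_coord {X : Fin n → (Fin 3 → ℕ) → Fin 3 → ℤ} (hX : IsPot n v c X) (i : Fin n)
    (m : Fin 3 → ℕ) (hm : ∑ a, m a = n) : ∑ k, X i m k = 1 := by
  classical
  refine conn (fun m => ∑ k, X i m k = 1) ?_ ?_ m hm
  · rw [hX.base]
    simp
  · intro p hp y hy h
    show ∑ k, X i (p + Pi.single y 1) k = 1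
    rw [hX.step i p hp 0 y (Ne.symm hy)]
    simp only [Pi.add_apply, Finset.sum_add_distrib]
    rw [Inc_sum, add_zero]
    exact h

theorem IsPot.sum_labels {X : Fin n → (Fin 3 → ℕ) → Fin 3 → ℤ} (hX : IsPot n v c X)
    (m : Fin 3 → ℕ) (hm : ∑ a, m a = n) : ∀ k, ∑ i, X i m k = m k := by
  classical
  refine conn (fun m => ∀ k, ∑ i, X i m k = m k) ?_ ?_ m hm
  · intro k
    simp only [hX.base]
    rw [Finset.sum_const, Finset.card_univ, Fintype.card_fin]
    by_cases hk : k = 0
    · subst hk
      simp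
    · simp [hk]
  · intro p hp y hy h k
    have h1 := h k
    have h2 := congrFun (Inc_sum_labels (n := n) (v := v) (c := c) p (Ne.symm hy)) k
    simp only [hX.step _ p hp 0 y (Ne.symm hy), Pi.add_apply, Finset.sum_add_distrib]
    rw [h1]
    rw [Finset.sum_apply] at h2
    rw [h2]
    simp only [Pi.add_apply, Pi.sub_apply]
    by_cases hk : k = 0
    · subst hk
      simp [Ne.symm hy]
    · by_cases hky : k = y
      · subst hky
        simp [hk]
      · simp [hk, hky]

theorem IsPot.facet {X : Fin n → (Fin 3 → ℕ) → Fin 3 → ℤ} (hX : IsPot n v c X) (i : Fin n)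
    {x y z : Fin 3} (hxy : x ≠ y) (hxz : x ≠ z) (hyz : y ≠ z) :
    ∀ (k : ℕ) (m : Fin 3 → ℕ), ∑ a, m a = n → m z = 0 → m y = k →
      X i m z = X i (Pi.single x n) z := by
  have hsum : ∀ m : Fin 3 → ℕ, ∑ a, m a = m x + m y + m z := by
    intro m
    have : (Finset.univ : Finset (Fin 3)) = {x, y, z} := by
      ext k
      simp only [Finset.mem_univ, Finset.mem_insert, Finset.mem_singleton, true_iff]
      exact eq_of_three hxy hxz hyz
    rw [this, Finset.sum_insert (by simp [hxy, hxz]), Finset.sum_pair hyz]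
    ring
  intro k
  induction k with
  | zero =>
    intro m hm hz hy
    have : m = Pi.single x n := by
      rw [hsum] at hm
      funext a
      rcases eq_of_three (k := a) hxy hxz hyz with rfl | rfl | rfl
      · simp
        omega
      · simp [Ne.symm hxy, hy]
      · simp [Ne.symm hxz, hz]
    rw [this]
  | succ k ih =>
    intro m hm hz hy
    rw [hsum] at hm
    let p : Fin 3 → ℕ := fun a => if a = y then k else m a
    have hpx : p x = m x := if_neg hxy
    have hpy : p y = k := if_pos rfl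
    have hpz : p z = m z := if_neg (Ne.symm hyz)
    have hp : ∑ a, p a + 1 = n := by
      rw [hsum, hpx, hpy, hpz]
      omega
    have e : m = p + Pi.single y 1 := by
      funext a
      by_cases hay : a = y
      · subst hay
        simp [p, hy]
      · simp [p, hay]
    rw [e, hX.step i p hp x y hxy, Pi.add_apply, Inc_facet i p hxy hxz hyz (by rw [hpz, hz]),
      add_zero]
    refine ih _ ?_ ?_ ?_
    · rw [sum_add_single]
      exact hp
    · simp [Ne.symm hxz, hpz, hz]
    · simp [Ne.symm hxy, hpy]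

/-- the zeroth coordinate along the side `{0, 1}` -/
theorem IsPot.side {X : Fin n → (Fin 3 → ℕ) → Fin 3 → ℤ} (hX : IsPot n v c X) (i : Fin n) :
    ∀ s : ℕ, s ≤ n → X i (![n - s, s, 0] : Fin 3 → ℕ) 0
      = 1 - ((Finset.range s).filter (fun s' => lab v c 2 (pp n s' 0) = i)).card := by
  classical
  have h01 : (0 : Fin 3) ≠ 1 := by decide
  have h02 : (0 : Fin 3) ≠ 2 := by decide
  have h12 : (1 : Fin 3) ≠ 2 := by decide
  intro s
  induction s with
  | zero =>
    intro _
    have : (![n - 0, 0, 0] : Fin 3 → ℕ) = Pi.single 0 n := by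
      funext a
      fin_cases a <;> simp
    rw [this, hX.base]
    simp
  | succ s ih =>
    intro hs
    have hp : ∑ a, (pp n s 0) a + 1 = n := by
      rw [Fin.sum_univ_three]
      simp [pp]
      omega
    have e1 : (![n - (s + 1), s + 1, 0] : Fin 3 → ℕ) = pp n s 0 + Pi.single 1 1 := by
      funext a
      fin_cases a
      · simp [pp]
        omega
      · simp [pp]
      · simp [pp]
    have e0 : (![n - s, s, 0] : Fin 3 → ℕ) = pp n s 0 + Pi.single 0 1 := by
      funext a
      fin_cases a
      · simp [pp]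
        omega
      · simp [pp]
      · simp [pp]
    have hint : ¬ Internal n c 2 (pp n s 0) := by
      rintro ⟨w, _, _, h⟩
      have := congrFun h 2
      simp [pp] at this
    rw [e1, hX.step i _ hp 0 1 h01, ← e0, Pi.add_apply, ih (by omega),
      Inc_ext h01 h02 h12 hint, Finset.range_add_one, Finset.filter_insert]
    by_cases h : lab v c 2 (pp n s 0) = i
    · rw [if_pos h, if_pos h, Finset.card_insert_of_notMem (by simp)]
      simp
      ring
    · rw [if_neg h, if_neg h]
      simp

theorem Tiling.side_card (hT : Tiling n v c) (i : Fin n) :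
    ((Finset.range n).filter (fun s' => lab v c 2 (pp n s' 0) = i)).card ≤ 1 := by
  classical
  rw [Finset.card_le_one]
  intro s hs s' hs'
  rw [Finset.mem_filter, Finset.mem_range] at hs hs'
  have hlab : ∀ s, s < n → lab v c 2 (pp n s 0) = i → Lab n v c 2 i (pp n s 0) := by
    intro s hs h
    rw [← h]
    refine hT.lab_spec 2 _ ?_ ?_
    · rw [Fin.sum_univ_three]
      simp [pp]
      omega
    · rintro ⟨w, _, _, h⟩
      have := congrFun h 2
      simp [pp] at this
  have h := Tiling.lab_inj (hlab s hs.1 hs.2) (hlab s' hs'.1 hs'.2) (by simp [pp])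
  have := congrFun h 1
  simpa [pp] using this

theorem IsPot.down {X : Fin n → (Fin 3 → ℕ) → Fin 3 → ℤ} (hX : IsPot n v c X) (i : Fin n)
    {x z : Fin 3} (hxz : x ≠ z) : ∀ (k : ℕ) (m : Fin 3 → ℕ), ∑ a, m a = n → m z = k →
      ∃ m' : Fin 3 → ℕ, ∑ a, m' a = n ∧ m' z = 0 ∧ X i m' z ≤ X i m z := by
  intro k
  induction k with
  | zero =>
    intro m hm hz
    exact ⟨m, hm, hz, le_rfl⟩
  | succ k ih =>
    intro m hm hz
    let p : Fin 3 → ℕ := fun a => if a = z then k else m a
    have e : m = p + Pi.single z 1 := by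
      funext a
      by_cases haz : a = z
      · subst haz
        simp [p, hz]
      · simp [p, haz]
    have hp : ∑ a, p a + 1 = n := by
      rw [← sum_add_single p z, ← e]
      exact hm
    obtain ⟨m', h1, h2, h3⟩ := ih (p + Pi.single x 1) (by rw [sum_add_single]; exact hp)
      (by simp [p, Ne.symm hxz])
    refine ⟨m', h1, h2, h3.trans ?_⟩
    rw [e, hX.step i p hp x z hxz, Pi.add_apply]
    have := Inc_right (v := v) (c := c) i p hxz
    linarith

theorem Tiling.pot_nonneg (hT : Tiling n v c) {X : Fin n → (Fin 3 → ℕ) → Fin 3 → ℤ}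
    (hX : IsPot n v c X) (i : Fin n) (m : Fin 3 → ℕ) (hm : ∑ a, m a = n) (z : Fin 3) :
    0 ≤ X i m z := by
  classical
  have h01 : (0 : Fin 3) ≠ 1 := by decide
  have h02 : (0 : Fin 3) ≠ 2 := by decide
  have h12 : (1 : Fin 3) ≠ 2 := by decide
  rcases eq_of_three (k := z) h01 h02 h12 with rfl | rfl | rfl
  · obtain ⟨m', h1, h2, h3⟩ := hX.down i h01.symm (m 0) m hm rfl
    refine le_trans ?_ h3
    rw [hX.facet i h12 h01.symm h02.symm (m' 2) m' h1 h2 rfl]
    have h4 := hX.side i n le_rfl
    have e : (![n - n, n, 0] : Fin 3 → ℕ) = Pi.single 1 n := by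
      funext a
      fin_cases a <;> simp
    rw [e] at h4
    rw [h4]
    have := hT.side_card i
    have : (((Finset.range n).filter (fun s' => lab v c 2 (pp n s' 0) = i)).card : ℤ) ≤ 1 := by
      exact_mod_cast this
    linarith
  · obtain ⟨m', h1, h2, h3⟩ := hX.down i h01 (m 1) m hm rfl
    refine le_trans ?_ h3
    rw [hX.facet i h02 h01 h12.symm (m' 2) m' h1 h2 rfl, hX.base]
    simp
  · obtain ⟨m', h1, h2, h3⟩ := hX.down i h02 (m 2) m hm rfl
    refine le_trans ?_ h3
    rw [hX.facet i h01 h02 h12 (m' 1) m' h1 h2 rfl, hX.base]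
    simp

/-- The topes: `f m i` is the colour of the label `i` at the lattice point `m`. -/
structure IsTope (n : ℕ) [NeZero n] (v : Fin n → Fin 3 → ℕ) (c : (Fin 3 → ℕ) → Fin 3)
    (f : (Fin 3 → ℕ) → Fin n → Fin 3) : Prop where
  step : ∀ i, ∀ p : Fin 3 → ℕ, ∑ a, p a + 1 = n → ∀ x y, x ≠ y →
    (Pi.single (f (p + Pi.single y 1) i) 1 : Fin 3 → ℤ)
      = Pi.single (f (p + Pi.single x 1) i) 1 + Inc v c i p x y
  content : ∀ m : Fin 3 → ℕ, ∑ a, m a = n → ∀ k,
    (Finset.univ.filter (fun i => f m i = k)).card = m k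

theorem Tiling.exists_tope (hT : Tiling n v c) :
    ∃ f : (Fin 3 → ℕ) → Fin n → Fin 3, IsTope n v c f := by
  classical
  obtain ⟨X, hX⟩ := hT.exists_pot
  have hunit : ∀ m : Fin 3 → ℕ, ∑ a, m a = n → ∀ i, ∃ k : Fin 3, X i m = Pi.single k 1 := by
    intro m hm i
    have h1 := hX.sum_coord i m hm
    rw [Fin.sum_univ_three] at h1
    have h0 := hT.pot_nonneg hX i m hm 0
    have h2 := hT.pot_nonneg hX i m hm 1
    have h3 := hT.pot_nonneg hX i m hm 2
    have hc : (X i m 0 = 1 ∧ X i m 1 = 0 ∧ X i m 2 = 0) ∨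
        (X i m 0 = 0 ∧ X i m 1 = 1 ∧ X i m 2 = 0) ∨
        (X i m 0 = 0 ∧ X i m 1 = 0 ∧ X i m 2 = 1) := by omega
    rcases hc with ⟨a, b, d⟩ | ⟨a, b, d⟩ | ⟨a, b, d⟩
    · refine ⟨0, ?_⟩
      funext k
      fin_cases k <;> simp [a, b, d]
    · refine ⟨1, ?_⟩
      funext k
      fin_cases k <;> simp [a, b, d]
    · refine ⟨2, ?_⟩
      funext k
      fin_cases k <;> simp [a, b, d]
  let f : (Fin 3 → ℕ) → Fin n → Fin 3 := fun m i =>
    if h : ∃ k : Fin 3, X i m = Pi.single k 1 then h.choose else 0
  have hf : ∀ m : Fin 3 → ℕ, ∑ a, m a = n → ∀ i, X i m = Pi.single (f m i) 1 := by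
    intro m hm i
    have h := hunit m hm i
    simp only [f]
    rw [dif_pos h]
    exact h.choose_spec
  refine ⟨f, ?_, ?_⟩
  · intro i p hp x y hxy
    rw [← hf _ (by rw [sum_add_single]; exact hp), ← hf _ (by rw [sum_add_single]; exact hp)]
    exact hX.step i p hp x y hxy
  · intro m hm k
    have h := hX.sum_labels m hm k
    have h2 : ∀ i, X i m k = if f m i = k then 1 else 0 := by
      intro i
      rw [hf m hm i]
      by_cases hk : f m i = k
      · rw [if_pos hk, hk]
        simp
      · rw [if_neg hk]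
        simp [Ne.symm hk]
    simp only [h2] at h
    rw [Finset.sum_boole] at h
    exact_mod_cast h

end Helper13.TS
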