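import Pool.Agent.Helper13.TS.Tope
import Pool.Agent.Helper28.SP.TreeMain

/-!
# Three colours: every spread-out family is realised by a compatible family of trees
(thread TH-S, MP_eb8c5c_co)
-/

set_option autoImplicit false

namespace Helper13.TS

open Finset Pool.Agent.Helper28.SO

variable {n : ℕ} [NeZero n] {v : Fin n → Fin 3 → ℕ} {c : (Fin 3 → ℕ) → Fin 3}
  {f : (Fin 3 → ℕ) → Fin n → Fin 3}

theorem single_one_inj {a b : Fin 3} (h : (Pi.single a 1 : Fin 3 → ℤ) = Pi.single b 1) :
    a = b := by
  by_contra hne
  have := congrFun h a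
  simp [hne] at this

theorem IsTope.mono1 (hf : IsTope n v c f) (i : Fin n) (p : Fin 3 → ℕ) (hp : ∑ a, p a + 1 = n)
    {x y : Fin 3} (hxy : x ≠ y) (h : f (p + Pi.single x 1) i = y) :
    f (p + Pi.single y 1) i = y := by
  have h1 := congrFun (hf.step i p hp x y hxy) y
  rw [Pi.add_apply, h] at h1
  have h2 := Inc_right (v := v) (c := c) i p hxy
  by_contra hne
  simp only [Pi.single_eq_same] at h1
  rw [Pi.single_eq_of_ne (Ne.symm hne)] at h1
  linarith

/-- a step which does not move the label -/
theorem IsTope.eq_of_inc (hf : IsTope n v c f) (i : Fin n) (p : Fin 3 → ℕ)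
    (hp : ∑ a, p a + 1 = n) {x y : Fin 3} (hxy : x ≠ y) (h : Inc v c i p x y = 0) :
    f (p + Pi.single y 1) i = f (p + Pi.single x 1) i := by
  have h1 := hf.step i p hp x y hxy
  rw [h, add_zero] at h1
  exact single_one_inj h1

/-- a step which moves the label from `a` to `b` -/
theorem IsTope.of_inc (hf : IsTope n v c f) (i : Fin n) (p : Fin 3 → ℕ)
    (hp : ∑ a, p a + 1 = n) {x y a b : Fin 3} (hxy : x ≠ y) (hab : a ≠ b)
    (h : Inc v c i p x y = Pi.single b 1 - Pi.single a 1) :
    f (p + Pi.single x 1) i = a ∧ f (p + Pi.single y 1) i = b := by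
  have h1 := hf.step i p hp x y hxy
  rw [h] at h1
  have h2 : f (p + Pi.single x 1) i = a := by
    by_contra hne
    have h3 := congrFun h1 a
    simp only [Pi.add_apply, Pi.sub_apply, Pi.single_eq_same] at h3
    rw [Pi.single_eq_of_ne (Ne.symm hne), Pi.single_eq_of_ne hab] at h3
    have h4 : (0 : ℤ) ≤ (Pi.single (f (p + Pi.single y 1) i) 1 : Fin 3 → ℤ) a := by
      by_cases h5 : f (p + Pi.single y 1) i = a
      · rw [h5]
        simp
      · rw [Pi.single_eq_of_ne (Ne.symm h5)]
    linarith
  refine ⟨h2, ?_⟩
  rw [h2] at h1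
  apply single_one_inj
  rw [h1]
  abel

theorem IsTope.mono (hf : IsTope n v c f) (i : Fin n) (x : Fin 3) :
    ∀ (k : ℕ) (m m' : Fin 3 → ℕ), ∑ a, m a = n → ∑ a, m' a = n → m' x = m x + k →
      (∀ y, y ≠ x → m' y ≤ m y) → f m i = x → f m' i = x := by
  intro k
  induction k with
  | zero =>
    intro m m' hm hm' hk hle hfm
    have : m = m' := by
      by_contra hne
      have h1 : ∑ a, m' a < ∑ a, m a := by
        obtain ⟨y, hy⟩ : ∃ y, m y ≠ m' y := by
          by_contra h
          push Not at h
          exact hne (funext h)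
        refine Finset.sum_lt_sum ?_ ⟨y, Finset.mem_univ _, ?_⟩
        · intro a _
          by_cases ha : a = x
          · subst ha
            omega
          · exact hle a ha
        · have hyx : y ≠ x := by
            rintro rfl
            omega
          have := hle y hyx
          omega
      omega
    rw [← this]
    exact hfm
  | succ k ih =>
    intro m m' hm hm' hk hle hfm
    obtain ⟨y, hyx, hy⟩ : ∃ y, y ≠ x ∧ m' y < m y := by
      by_contra h
      push Not at h
      have h1 : ∑ a, m a < ∑ a, m' a := by
        refine Finset.sum_lt_sum ?_ ⟨x, Finset.mem_univ _, by omega⟩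
        intro a _
        by_cases ha : a = x
        · subst ha
          omega
        · exact h a ha
      omega
    let p : Fin 3 → ℕ := fun a => if a = y then m y - 1 else m a
    have e : m = p + Pi.single y 1 := by
      funext a
      by_cases hay : a = y
      · subst hay
        simp [p]
        omega
      · simp [p, hay]
    have hp : ∑ a, p a + 1 = n := by
      rw [← sum_add_single p y, ← e]
      exact hm
    refine ih (p + Pi.single x 1) m' (by rw [sum_add_single]; exact hp) hm' ?_ ?_ ?_
    · simp [p, Ne.symm hyx]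
      omega
    · intro a ha
      by_cases hay : a = y
      · subst hay
        simp [p, ha]
        omega
      · simp [p, ha, hay]
        exact hle a ha
    · rw [e] at hfm
      exact hf.mono1 i p hp hyx hfm

/-- The trees. -/
def tree (f : (Fin 3 → ℕ) → Fin n → Fin 3) (p : Fin 3 → ℕ) (i : Fin n) : Finset (Fin 3) :=
  Finset.univ.image (fun x => f (p + Pi.single x 1) i)

theorem IsTope.mem_tree (hf : IsTope n v c f) (i : Fin n) (p : Fin 3 → ℕ)
    (hp : ∑ a, p a + 1 = n) (k : Fin 3) : k ∈ tree f p i ↔ f (p + Pi.single k 1) i = k := by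
  unfold tree
  rw [Finset.mem_image]
  constructor
  · rintro ⟨x, _, hx⟩
    by_cases hxk : x = k
    · rw [← hxk]
      rw [hxk] at hx
      rw [hxk, hx]
    · exact hf.mono1 i p hp hxk hx
  · intro h
    exact ⟨k, Finset.mem_univ _, h⟩

/-- Every choice in a tree is a tope. -/
theorem IsTope.realize (hT : Tiling n v c) (hf : IsTope n v c f) (p : Fin 3 → ℕ)
    (hp : ∑ a, p a + 1 = n) (g : Fin n → Fin 3) (hg : ∀ i, g i ∈ tree f p i) :
    ∃ m : Fin 3 → ℕ, ∑ a, m a = n ∧ ∀ i, f m i = g i := by
  classical
  have hg' : ∀ i, f (p + Pi.single (g i) 1) i = g i := fun i => (hf.mem_tree i p hp _).1 (hg i)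
  have hsum : ∀ x, ∑ a, (p + Pi.single x 1 : Fin 3 → ℕ) a = n := fun x => by
    rw [sum_add_single]
    exact hp
  -- one moving label
  have hone : ∀ i₀ : Fin n, (∀ i, i ≠ i₀ → ∀ x y, x ≠ y → Inc v c i p x y = 0) →
      ∃ m : Fin 3 → ℕ, ∑ a, m a = n ∧ ∀ i, f m i = g i := by
    intro i₀ h
    refine ⟨p + Pi.single (g i₀) 1, hsum _, ?_⟩
    intro i
    by_cases hi : i = i₀
    · rw [hi]
      exact hg' i₀
    · by_cases hgg : g i = g i₀
      · rw [← hgg]
        exact hg' i
      · rw [hf.eq_of_inc i p hp hgg (h i hi _ _ hgg)]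
        exact hg' i
  rcases hT.cover p hp with ⟨k, rfl⟩ | ⟨w, hw, rfl⟩
  · refine hone k ?_
    intro i hi x y hxy
    obtain ⟨z, hxz, hyz⟩ := exists_third hxy
    rw [Inc_ext hxy hxz hyz (hT.hole_not_internal k z), hT.lab_hole, if_neg (Ne.symm hi)]
  · obtain ⟨x, y, hxz, hyz, hxy⟩ : ∃ x y : Fin 3, x ≠ c w ∧ y ≠ c w ∧ x ≠ y := by
      have : ∀ z : Fin 3, ∃ x y : Fin 3, x ≠ z ∧ y ≠ z ∧ x ≠ y := by decide
      exact this (c w)
    set z := c w with hz
    set p := w + Pi.single z 1 with hpdef
    have iz : Internal n c z p := ⟨w, hw, hz.symm, rfl⟩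
    have ix : ¬ Internal n c x p := fun h => hxz (hT.internal_unique h iz)
    have iy : ¬ Internal n c y p := fun h => hyz (hT.internal_unique h iz)
    by_cases hxy' : lab v c x p = lab v c y p
    · refine hone (lab v c x p) ?_
      intro i hi a b hab
      obtain ⟨d, had, hbd⟩ := exists_third hab
      by_cases hd : d = z
      · subst hd
        have ha : a = x ∨ a = y := by
          rcases eq_of_three (k := a) hxy hxz hyz with h | h | h
          · exact Or.inl h
          · exact Or.inr h
          · exact absurd h had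
        have hb : b = x ∨ b = y := by
          rcases eq_of_three (k := b) hxy hxz hyz with h | h | h
          · exact Or.inl h
          · exact Or.inr h
          · exact absurd h hbd
        rw [Inc_int hab had hbd iz]
        rcases ha with rfl | rfl <;> rcases hb with rfl | rfl
        · exact absurd rfl hab
        · rw [if_neg (fun h => hi (by rw [hxy', h])), if_neg (fun h => hi h.symm), add_zero]
        · rw [if_neg (fun h => hi h.symm), if_neg (fun h => hi (by rw [hxy', h])), add_zero]
        · exact absurd rfl hab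
      · have hd' : d = x ∨ d = y := by
          rcases eq_of_three (k := d) hxy hxz hyz with h | h | h
          · exact Or.inl h
          · exact Or.inr h
          · exact absurd h hd
        rcases hd' with rfl | rfl
        · rw [Inc_ext hab had hbd ix, if_neg (fun h => hi h.symm)]
        · rw [Inc_ext hab had hbd iy, if_neg (fun h => hi (by rw [hxy', h]))]
    · -- the two labels of the lozenge
      have hx1 := hf.of_inc (lab v c x p) p hp (x := y) (y := z) hyz hyz (by
        rw [Inc_ext hyz hxy.symm hxz.symm ix, if_pos rfl])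
      have hx2 : f (p + Pi.single x 1) (lab v c x p) = z := by
        have := hf.eq_of_inc (lab v c x p) p hp (x := z) (y := x) hxz.symm (by
          rw [Inc_ext hxz.symm hyz.symm hxy iy, if_neg (fun h => hxy' h.symm)])
        rw [this]
        exact hx1.2
      have hy1 := hf.of_inc (lab v c y p) p hp (x := x) (y := z) hxz hxz (by
        rw [Inc_ext hxz hxy hyz.symm iy, if_pos rfl])
      have hy2 : f (p + Pi.single y 1) (lab v c y p) = z := by
        have := hf.eq_of_inc (lab v c y p) p hp (x := z) (y := y) hyz.symm (by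
          rw [Inc_ext hyz.symm hxz.symm hxy.symm ix, if_neg hxy'])
        rw [this]
        exact hy1.2
      have hother : ∀ i, i ≠ lab v c x p → i ≠ lab v c y p → ∀ a,
          f (p + Pi.single a 1) i = g i := by
        intro i hix hiy
        have e1 : f (p + Pi.single z 1) i = f (p + Pi.single y 1) i :=
          hf.eq_of_inc i p hp hyz (by
            rw [Inc_ext hyz hxy.symm hxz.symm ix, if_neg (fun h => hix h.symm)])
        have e2 : f (p + Pi.single z 1) i = f (p + Pi.single x 1) i :=
          hf.eq_of_inc i p hp hxz (by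
            rw [Inc_ext hxz hxy hyz.symm iy, if_neg (fun h => hiy h.symm)])
        have e3 : ∀ a, f (p + Pi.single a 1) i = f (p + Pi.single z 1) i := by
          intro a
          rcases eq_of_three (k := a) hxy hxz hyz with rfl | rfl | h
          · exact e2.symm
          · exact e1.symm
          · rw [h]
        intro a
        rw [e3 a, ← e3 (g i)]
        exact hg' i
      have hgx : g (lab v c x p) = y ∨ g (lab v c x p) = z := by
        rcases eq_of_three (k := g (lab v c x p)) hxy hxz hyz with h | h | h
        · exfalso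
          have := hg' (lab v c x p)
          rw [h, hx2] at this
          exact hxz this.symm
        · exact Or.inl h
        · exact Or.inr h
      have hgy : g (lab v c y p) = x ∨ g (lab v c y p) = z := by
        rcases eq_of_three (k := g (lab v c y p)) hxy hxz hyz with h | h | h
        · exact Or.inl h
        · exfalso
          have := hg' (lab v c y p)
          rw [h, hy2] at this
          exact hyz this.symm
        · exact Or.inr h
      -- assembling
      have hmk : ∀ m : Fin 3 → ℕ, ∑ a, m a = n → f m (lab v c x p) = g (lab v c x p) →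
          f m (lab v c y p) = g (lab v c y p) →
          (∀ i, i ≠ lab v c x p → i ≠ lab v c y p → f m i = g i) →
          ∃ m : Fin 3 → ℕ, ∑ a, m a = n ∧ ∀ i, f m i = g i := by
        intro m hm h1 h2 h3
        refine ⟨m, hm, fun i => ?_⟩
        by_cases hix : i = lab v c x p
        · rw [hix]
          exact h1
        · by_cases hiy : i = lab v c y p
          · rw [hiy]
            exact h2
          · exact h3 i hix hiy
      rcases hgx with hgx | hgx <;> rcases hgy with hgy | hgy
      · -- the fourth vertex
        have hq : ∑ a, (w + Pi.single y 1 : Fin 3 → ℕ) a + 1 = n := by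
          rw [sum_add_single]
          omega
        have hyi : ¬ Internal n c y (w + Pi.single y 1) :=
          Tiling.not_internal_step w (fun h => hyz (by rw [hz, h]))
        have hl : lab v c y (w + Pi.single y 1) = lab v c y p :=
          (hT.lab_step w hw (a := y) (fun h => hyz (by rw [hz, h]))).symm
        have e : w + Pi.single y 1 + Pi.single z 1 = p + Pi.single y 1 := by
          rw [hpdef, add_right_comm]
        refine hmk (w + Pi.single y 1 + Pi.single x 1) ?_ ?_ ?_ ?_
        · rw [sum_add_single]
          exact hq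
        · rw [hf.eq_of_inc (lab v c x p) _ hq (x := z) (y := x) hxz.symm (by
            rw [Inc_ext hxz.symm hyz.symm hxy hyi, hl, if_neg (fun h => hxy' h.symm)]), e, hgx]
          exact hx1.1
        · rw [hgy]
          exact (hf.of_inc (lab v c y p) _ hq (x := z) (y := x) hxz.symm hxz.symm (by
            rw [Inc_ext hxz.symm hyz.symm hxy hyi, hl, if_pos rfl])).2
        · intro i hix hiy
          rw [hf.eq_of_inc i _ hq (x := z) (y := x) hxz.symm (by
            rw [Inc_ext hxz.symm hyz.symm hxy hyi, hl, if_neg (fun h => hiy h.symm)]), e]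
          exact hother i hix hiy y
      · exact hmk (p + Pi.single y 1) (hsum _) (by rw [hgx]; exact hx1.1) (by rw [hgy]; exact hy2)
          (fun i hix hiy => hother i hix hiy y)
      · exact hmk (p + Pi.single x 1) (hsum _) (by rw [hgx]; exact hx2) (by rw [hgy]; exact hy1.1)
          (fun i hix hiy => hother i hix hiy x)
      · exact hmk (p + Pi.single z 1) (hsum _) (by rw [hgx]; exact hx1.2)
          (by rw [hgy]; exact hy1.2) (fun i hix hiy => hother i hix hiy z)

/-- One can decrease the third coordinate keeping a pair of colours. -/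
theorem IsTope.push (hT : Tiling n v c) (hf : IsTope n v c f) {a b d : Fin 3} (hab : a ≠ b)
    (had : a ≠ d) (hbd : b ≠ d) {i j : Fin n} :
    ∀ (k : ℕ) (m : Fin 3 → ℕ), ∑ x, m x = n → m d = k → f m i = a → f m j = b →
      ∃ m' : Fin 3 → ℕ, ∑ x, m' x = n ∧ m' d = 0 ∧ f m' i = a ∧ f m' j = b := by
  intro k
  induction k with
  | zero =>
    intro m hm hd hi hj
    exact ⟨m, hm, hd, hi, hj⟩
  | succ k ih =>
    intro m hm hd hi hj
    let p : Fin 3 → ℕ := fun x => if x = d then k else m x
    have e : m = p + Pi.single d 1 := by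
      funext x
      by_cases hx : x = d
      · subst hx
        simp [p, hd]
      · simp [p, hx]
    have hp : ∑ x, p x + 1 = n := by
      rw [← sum_add_single p d, ← e]
      exact hm
    have hpd : p d = k := if_pos rfl
    rw [e] at hi hj
    -- the two moves
    have m1 := hf.mono1 i p hp had.symm hi
    have m2 := hf.mono1 j p hp hbd.symm hj
    by_cases h1 : f (p + Pi.single a 1) j = b
    · refine ih (p + Pi.single a 1) (by rw [sum_add_single]; exact hp) ?_ m1 h1
      simp [Ne.symm had, hpd]
    by_cases h2 : f (p + Pi.single b 1) i = a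
    · refine ih (p + Pi.single b 1) (by rw [sum_add_single]; exact hp) ?_ h2 m2
      simp [Ne.symm hbd, hpd]
    exfalso
    have i1 : Internal n c b p := by
      by_contra hint
      have h3 := congrFun (hf.step j p hp d a had.symm) b
      rw [Inc_ext had.symm hbd.symm hab hint, Pi.add_apply, hj] at h3
      rw [Pi.single_eq_of_ne (Ne.symm h1)] at h3
      split_ifs at h3
      · simp only [Pi.single_eq_same, Pi.sub_apply, Pi.single_eq_of_ne hab.symm,
          Pi.single_eq_of_ne hbd] at h3
        omega
      · simp only [Pi.single_eq_same, Pi.zero_apply] at h3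
        omega
    have i2 : Internal n c a p := by
      by_contra hint
      have h3 := congrFun (hf.step i p hp d b hbd.symm) a
      rw [Inc_ext hbd.symm had.symm hab.symm hint, Pi.add_apply, hi] at h3
      rw [Pi.single_eq_of_ne (Ne.symm h2)] at h3
      split_ifs at h3
      · simp only [Pi.single_eq_same, Pi.sub_apply, Pi.single_eq_of_ne hab,
          Pi.single_eq_of_ne had] at h3
        omega
      · simp only [Pi.single_eq_same, Pi.zero_apply] at h3
        omega
    exact hab (hT.internal_unique i2 i1)

theorem IsTope.no_swap (hT : Tiling n v c) (hf : IsTope n v c f) {a b : Fin 3} (hab : a ≠ b)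
    {i j : Fin n} {m m' : Fin 3 → ℕ} (hm : ∑ x, m x = n) (hm' : ∑ x, m' x = n)
    (hi : f m i = a) (hj : f m j = b) (hi' : f m' i = b) (hj' : f m' j = a) : False := by
  obtain ⟨d, had, hbd⟩ := exists_third hab
  obtain ⟨q, hq, hq0, hqi, hqj⟩ := hf.push hT hab had hbd (m d) m hm rfl hi hj
  obtain ⟨q', hq', hq0', hqj', hqi'⟩ := hf.push hT hab had hbd (m' d) m' hm' rfl hj' hi'
  have hsum : ∀ m : Fin 3 → ℕ, ∑ x, m x = m a + m b + m d := by
    intro m
    have : (Finset.univ : Finset (Fin 3)) = {a, b, d} := by
      ext k
      simp only [Finset.mem_univ, Finset.mem_insert, Finset.mem_singleton, true_iff]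
      exact eq_of_three hab had hbd
    rw [this, Finset.sum_insert (by simp [hab, had]), Finset.sum_pair hbd]
    ring
  have hs := hsum q
  have hs' := hsum q'
  rcases le_total (q a) (q' a) with h | h
  · have := hf.mono i a (q' a - q a) q q' hq hq' (by omega) (by
      intro y hy
      rcases eq_of_three (k := y) hab had hbd with rfl | rfl | rfl
      · exact absurd rfl hy
      · omega
      · omega) hqi
    rw [hqi'] at this
    exact hab this.symm
  · have := hf.mono j a (q a - q' a) q' q hq' hq (by omega) (by
      intro y hy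
      rcases eq_of_three (k := y) hab had hbd with rfl | rfl | rfl
      · exact absurd rfl hy
      · omega
      · omega) hqj'
    rw [hqj] at this
    exact hab this.symm

theorem IsTope.no_cycle (hf : IsTope n v c f) {a b d : Fin 3} (hab : a ≠ b)
    (had : a ≠ d) (hbd : b ≠ d) {i j k : Fin n} {m m' : Fin 3 → ℕ} (hm : ∑ x, m x = n)
    (hm' : ∑ x, m' x = n) (hi : f m i = a) (hj : f m j = b) (hk : f m k = d)
    (hi' : f m' i = b) (hj' : f m' j = d) (hk' : f m' k = a) : False := by
  have hsum : ∀ m : Fin 3 → ℕ, ∑ x, m x = m a + m b + m d := by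
    intro m
    have : (Finset.univ : Finset (Fin 3)) = {a, b, d} := by
      ext k
      simp only [Finset.mem_univ, Finset.mem_insert, Finset.mem_singleton, true_iff]
      exact eq_of_three hab had hbd
    rw [this, Finset.sum_insert (by simp [hab, had]), Finset.sum_pair hbd]
    ring
  have hs := hsum m
  have hs' := hsum m'
  have key : ∀ (l : Fin n) (x y : Fin 3) (q q' : Fin 3 → ℕ), ∑ x, q x = n → ∑ x, q' x = n →
      f q l = x → f q' l = y → x ≠ y → q x ≤ q' x → (∀ z, z ≠ x → q' z ≤ q z) → False := by
    intro l x y q q' hq hq' h1 h2 hne hle h3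
    have := hf.mono l x (q' x - q x) q q' hq hq' (by omega) h3 h1
    rw [h2] at this
    exact hne this.symm
  have cov : ∀ (x : Fin 3) (q q' : Fin 3 → ℕ), q' a ≤ q a ∨ a = x → q' b ≤ q b ∨ b = x →
      q' d ≤ q d ∨ d = x → ∀ z, z ≠ x → q' z ≤ q z := by
    intro x q q' h1 h2 h3 z hz
    rcases eq_of_three (k := z) hab had hbd with rfl | rfl | rfl
    · exact h1.resolve_right hz
    · exact h2.resolve_right hz
    · exact h3.resolve_right hz
  rcases le_total (m a) (m' a) with ha | ha <;> rcases le_total (m b) (m' b) with hb | hb <;>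
    rcases le_total (m d) (m' d) with hd | hd
  · -- all ≤ : then equality, use a
    exact key i a b m m' hm hm' hi hi' hab ha
      (cov a m m' (Or.inr rfl) (Or.inl (by omega)) (Or.inl (by omega)))
  · -- d decreases: from m' to m only d increases
    exact key j d b m' m hm' hm hj' hj hbd.symm hd
      (cov d m' m (Or.inl ha) (Or.inl hb) (Or.inr rfl))
  · -- b decreases
    exact key i b a m' m hm' hm hi' hi hab.symm hb
      (cov b m' m (Or.inl ha) (Or.inr rfl) (Or.inl hd))
  · -- only a increases
    exact key i a b m m' hm hm' hi hi' hab ha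
      (cov a m m' (Or.inr rfl) (Or.inl hb) (Or.inl hd))
  · -- a decreases
    exact key k a d m' m hm' hm hk' hk had ha
      (cov a m' m (Or.inr rfl) (Or.inl hb) (Or.inl hd))
  · -- only b increases
    exact key j b d m m' hm hm' hj hj' hbd hb
      (cov b m m' (Or.inl ha) (Or.inr rfl) (Or.inl hd))
  · -- only d increases
    exact key k d a m m' hm hm' hk hk' had.symm hd
      (cov d m m' (Or.inl ha) (Or.inl hb) (Or.inr rfl))
  · -- all ≥
    exact key i a b m m' hm hm' hi hi' hab (by omega)
      (cov a m m' (Or.inr rfl) (Or.inl hb) (Or.inl hd))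

theorem Tiling.treeFam (hT : Tiling n v c) (hf : IsTope n v c f) : TreeFam n 3 (tree f) := by
  classical
  have hn : 1 ≤ n := Nat.one_le_iff_ne_zero.2 (NeZero.ne n)
  have hconv : ∀ p : Fin 3 → ℕ, ∑ c, p c = n - 1 → ∑ c, p c + 1 = n := by
    intro p hp
    omega
  refine ⟨?_, ?_⟩
  · intro p hp k
    have h1 : (Finset.univ.filter (fun i => k ∈ tree f p i))
        = Finset.univ.filter (fun i => f (p + Pi.single k 1) i = k) := by
      ext i
      simp only [Finset.mem_filter, Finset.mem_univ, true_and]
      exact hf.mem_tree i p (hconv p hp) k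
    rw [h1, hf.content _ (by rw [sum_add_single]; exact hconv p hp)]
    simp
  · intro p q hp hq g g' hg hg' hgs hgs' hrow hcol
    have hp1 := hconv p hp
    have hq1 := hconv q hq
    by_contra hne
    have hP : ∀ i a, g' i a < g i a → a ∈ tree f p i := by
      intro i a h
      by_contra hmem
      rw [hgs i a hmem] at h
      exact absurd (hg' i a) (not_le.2 h)
    have hN : ∀ i a, g i a < g' i a → a ∈ tree f q i := by
      intro i a h
      by_contra hmem
      rw [hgs' i a hmem] at h
      exact absurd (hg i a) (not_le.2 h)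
    -- arcs
    have harc : ∀ a, (∃ i, g i a ≠ g' i a) → ∃ b, a ≠ b ∧ (∃ i, g' i a < g i a ∧ g i b < g' i b) := by
      intro a ⟨i, hi⟩
      obtain ⟨i₁, hi₁⟩ : ∃ i, g' i a < g i a := by
        by_contra h
        push Not at h
        have := (Finset.sum_lt_sum (s := Finset.univ) (f := fun i => g i a)
          (g := fun i => g' i a) (fun i _ => h i) ⟨i, Finset.mem_univ _, lt_of_le_of_ne (h i) hi⟩).ne
        exact this (hcol a)
      obtain ⟨b, hb⟩ : ∃ b, g i₁ b < g' i₁ b := by
        by_contra h
        push Not at h
        have := (Finset.sum_lt_sum (s := Finset.univ) (f := fun b => g' i₁ b)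
          (g := fun b => g i₁ b) (fun b _ => h b) ⟨a, Finset.mem_univ _, hi₁⟩).ne
        exact this (hrow i₁).symm
      refine ⟨b, ?_, i₁, hi₁, hb⟩
      rintro rfl
      exact absurd hb (not_lt.2 hi₁.le)
    -- choices
    have hchoice : ∀ (r : Fin 3 → ℕ), ∑ x, r x + 1 = n → ∀ (S : Finset (Fin n))
        (h : Fin n → Fin 3), (∀ i ∈ S, h i ∈ tree f r i) →
        ∃ m : Fin 3 → ℕ, ∑ x, m x = n ∧ ∀ i ∈ S, f m i = h i := by
      intro r hr S h hS
      obtain ⟨m, hm, hm2⟩ := hf.realize hT r hr
        (fun i => if i ∈ S then h i else f (r + Pi.single 0 1) i) (by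
          intro i
          split_ifs with hi
          · exact hS i hi
          · exact Finset.mem_image.2 ⟨0, Finset.mem_univ _, rfl⟩)
      refine ⟨m, hm, fun i hi => ?_⟩
      rw [hm2, if_pos hi]
    have htwo : ∀ a b, a ≠ b → (∃ i, g' i a < g i a ∧ g i b < g' i b) →
        (∃ i, g' i b < g i b ∧ g i a < g' i a) → False := by
      rintro a b hab ⟨i, hi1, hi2⟩ ⟨j, hj1, hj2⟩
      have hij : i ≠ j := by
        rintro rfl
        exact absurd hi1 (not_lt.2 hj2.le)
      obtain ⟨m, hm, hm2⟩ := hchoice p hp1 {i, j} (fun l => if l = i then a else b) (by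
        intro l hl
        rcases Finset.mem_insert.1 hl with rfl | hl
        · rw [if_pos rfl]
          exact hP l a hi1
        · rw [Finset.mem_singleton] at hl
          subst hl
          rw [if_neg (Ne.symm hij)]
          exact hP l b hj1)
      obtain ⟨m', hm', hm2'⟩ := hchoice q hq1 {i, j} (fun l => if l = i then b else a) (by
        intro l hl
        rcases Finset.mem_insert.1 hl with rfl | hl
        · rw [if_pos rfl]
          exact hN l b hi2
        · rw [Finset.mem_singleton] at hl
          subst hl
          rw [if_neg (Ne.symm hij)]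
          exact hN l a hj2)
      have a1 := hm2 i (by simp)
      have a2 := hm2 j (by simp)
      have a3 := hm2' i (by simp)
      have a4 := hm2' j (by simp)
      rw [if_pos rfl] at a1 a3
      rw [if_neg (Ne.symm hij)] at a2 a4
      exact hf.no_swap hT hab hm hm' a1 a2 a3 a4
    have hthree : ∀ a b d, a ≠ b → a ≠ d → b ≠ d → (∃ i, g' i a < g i a ∧ g i b < g' i b) →
        (∃ i, g' i b < g i b ∧ g i d < g' i d) → (∃ i, g' i d < g i d ∧ g i a < g' i a) →
        False := by
      rintro a b d hab had hbd ⟨i, hi1, hi2⟩ ⟨j, hj1, hj2⟩ ⟨k, hk1, hk2⟩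
      have hij : i ≠ j := by
        rintro rfl
        exact absurd hj1 (not_lt.2 hi2.le)
      have hjk : j ≠ k := by
        rintro rfl
        exact absurd hk1 (not_lt.2 hj2.le)
      have hik : i ≠ k := by
        rintro rfl
        exact absurd hi1 (not_lt.2 hk2.le)
      obtain ⟨m, hm, hm2⟩ := hchoice p hp1 {i, j, k}
        (fun l => if l = i then a else if l = j then b else d) (by
        intro l hl
        simp only [Finset.mem_insert, Finset.mem_singleton] at hl
        rcases hl with rfl | rfl | rfl
        · rw [if_pos rfl]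
          exact hP l a hi1
        · rw [if_neg (Ne.symm hij), if_pos rfl]
          exact hP l b hj1
        · rw [if_neg (Ne.symm hik), if_neg (Ne.symm hjk)]
          exact hP l d hk1)
      obtain ⟨m', hm', hm2'⟩ := hchoice q hq1 {i, j, k}
        (fun l => if l = i then b else if l = j then d else a) (by
        intro l hl
        simp only [Finset.mem_insert, Finset.mem_singleton] at hl
        rcases hl with rfl | rfl | rfl
        · rw [if_pos rfl]
          exact hN l b hi2
        · rw [if_neg (Ne.symm hij), if_pos rfl]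
          exact hN l d hj2
        · rw [if_neg (Ne.symm hik), if_neg (Ne.symm hjk)]
          exact hN l a hk2)
      have a1 := hm2 i (by simp)
      have a2 := hm2 j (by simp)
      have a3 := hm2 k (by simp)
      have b1 := hm2' i (by simp)
      have b2 := hm2' j (by simp)
      have b3 := hm2' k (by simp)
      rw [if_pos rfl] at a1 b1
      rw [if_neg (Ne.symm hij), if_pos rfl] at a2 b2
      rw [if_neg (Ne.symm hik), if_neg (Ne.symm hjk)] at a3 b3
      exact hf.no_cycle hab had hbd hm hm' a1 a2 a3 b1 b2 b3
    -- the walk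
    obtain ⟨i₀, a₀, h0⟩ : ∃ i a, g i a ≠ g' i a := by
      by_contra h
      push Not at h
      exact hne (funext fun i => funext fun a => h i a)
    obtain ⟨a₁, h01, A01⟩ := harc a₀ ⟨i₀, h0⟩
    obtain ⟨a₂, h12, A12⟩ := harc a₁ (by
      obtain ⟨i, _, h⟩ := A01
      exact ⟨i, h.ne⟩)
    by_cases h02 : a₀ = a₂
    · subst h02
      exact htwo a₀ a₁ h01 A01 A12
    obtain ⟨a₃, h23, A23⟩ := harc a₂ (by
      obtain ⟨i, _, h⟩ := A12
      exact ⟨i, h.ne⟩)
    rcases eq_of_three (k := a₃) h01 h02 h12 with rfl | rfl | rfl
    · exact hthree _ a₁ a₂ h01 h02 h12 A01 A12 A23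
    · exact htwo _ a₂ h12 A12 A23
    · exact h23 rfl

theorem Tiling.tree_hole (hT : Tiling n v c) (hf : IsTope n v c f) (k : Fin n) :
    tree f (v k) k = Finset.univ := by
  classical
  rw [Finset.eq_univ_iff_forall]
  intro x
  rw [hf.mem_tree k _ (hT.sum k)]
  obtain ⟨y, hxy⟩ : ∃ y : Fin 3, x ≠ y := by
    have : ∀ x : Fin 3, ∃ y : Fin 3, x ≠ y := by decide
    exact this x
  obtain ⟨z, hxz, hyz⟩ := exists_third hxy
  exact (hf.of_inc k _ (hT.sum k) hxy hxy (by
    rw [Inc_ext hxy hxz hyz (hT.hole_not_internal k z), hT.lab_hole, if_pos rfl])).1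

/-- **Three colours.**  Every spread-out family of `n` positions in `E_{n,3}` is the family of
holes of a compatible family of trees. -/
theorem treeFam3 {n : ℕ} (hn : 1 ≤ n) (v : Fin n → Fin 3 → ℕ) (hv : ∀ k, ∑ c, v k c = n - 1)
    (hs : SpreadOut n v) :
    ∃ T : (Fin 3 → ℕ) → Fin n → Finset (Fin 3), TreeFam n 3 T ∧
      ∀ k, T (v k) k = Finset.univ := by
  haveI : NeZero n := ⟨by omega⟩
  obtain ⟨c, hc1, hc2⟩ := match3 v hv hs
  have hT : Tiling n v c := ⟨fun k => by rw [hv]; omega, hs.injective hv, hc1, hc2⟩
  obtain ⟨f, hf⟩ := hT.exists_tope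
  exact ⟨tree f, hT.treeFam hf, fun k => hT.tree_hole hf k⟩

end Helper13.TS
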